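import Pool.Agent.Lib.MP_9e8926_ag_U.CalB

/-!
# MP_9e8926_ag, block G: base change to a finite extension of the residue field

`Bch m κ κ' A A'`: the ring `A'` is `A ⊗_κ κ'`, where `κ' / κ` is a field extension of degree `m`:
every basis of `κ'` over `κ` is a basis of `A'` over `A`.
-/

set_option autoImplicit false

noncomputable section

namespace FU

open Finset Module

/-- `A' = A ⊗_κ κ'`. -/
structure Bch (m : ℕ) (κ κ' A A' : Type*) [Field κ] [Field κ'] [Algebra κ κ'] [CommRing A]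
    [CommRing A'] [Algebra κ A] [Algebra κ' A'] where
  /-- the inclusion -/
  i : A →+* A'
  comm : ∀ x : κ, i (algebraMap κ A x) = algebraMap κ' A' (algebraMap κ κ' x)
  surj : ∀ (ω : Basis (Fin m) κ κ') (z : A'), ∃ w : Fin m → A,
    z = ∑ j, algebraMap κ' A' (ω j) * i (w j)
  inj : ∀ (ω : Basis (Fin m) κ κ') (w : Fin m → A),
    ∑ j, algebraMap κ' A' (ω j) * i (w j) = 0 → w = 0

variable {m : ℕ} {κ κ' A A' : Type*} [Field κ] [Field κ'] [Algebra κ κ'] [CommRing A]
  [CommRing A'] [Algebra κ A] [Algebra κ' A']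

private theorem bca_smul (i : A →+* A')
    (comm : ∀ x : κ, i (algebraMap κ A x) = algebraMap κ' A' (algebraMap κ κ' x)) (c : κ)
    (x : κ') : algebraMap κ' A' (c • x) = i (algebraMap κ A c) * algebraMap κ' A' x := by
  rw [Algebra.smul_def, map_mul, comm]

/-- Expansion of an element of `κ'`. -/
private theorem bca_expand (i : A →+* A')
    (comm : ∀ x : κ, i (algebraMap κ A x) = algebraMap κ' A' (algebraMap κ κ' x))
    (ω : Basis (Fin m) κ κ') (x : κ') (a : A) (τ : κ' →ₗ[κ] κ') :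
    algebraMap κ' A' (τ x) * i a =
      ∑ j, algebraMap κ' A' (τ (ω j)) * i (algebraMap κ A (ω.repr x j) * a) := by
  have h1 : τ x = ∑ j, ω.repr x j • τ (ω j) := by
    conv_lhs => rw [← ω.sum_repr x]
    rw [map_sum]
    exact Finset.sum_congr rfl fun j _ => map_smul _ _ _
  rw [h1, map_sum, Finset.sum_mul]
  refine Finset.sum_congr rfl fun j _ => ?_
  rw [bca_smul i comm, map_mul]
  ring

/-- Change of basis. -/
private theorem bca_change (i : A →+* A')
    (comm : ∀ x : κ, i (algebraMap κ A x) = algebraMap κ' A' (algebraMap κ κ' x))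
    (ω ω' : Basis (Fin m) κ κ') (w : Fin m → A) :
    ∑ l, algebraMap κ' A' (ω' l) * i (w l) = ∑ j, algebraMap κ' A' (ω j) *
      i (∑ l, algebraMap κ A (ω.repr (ω' l) j) * w l) := by
  have h1 : ∀ l, algebraMap κ' A' (ω' l) * i (w l) =
      ∑ j, algebraMap κ' A' (ω j) * i (algebraMap κ A (ω.repr (ω' l) j) * w l) :=
    fun l => bca_expand i comm ω (ω' l) (w l) LinearMap.id
  rw [Finset.sum_congr rfl fun l _ => h1 l, Finset.sum_comm]
  refine Finset.sum_congr rfl fun j _ => ?_
  rw [map_sum, Finset.mul_sum]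

/-- It is enough to have the property for one basis: change of basis with the coordinates
`ω' j = ∑ l, a j l • ω l`, `a j l ∈ κ`, and the inverse matrix. -/
theorem Bch.of_basis (i : A →+* A')
    (comm : ∀ x : κ, i (algebraMap κ A x) = algebraMap κ' A' (algebraMap κ κ' x))
    (ω : Basis (Fin m) κ κ')
    (surj : ∀ z : A', ∃ w : Fin m → A, z = ∑ j, algebraMap κ' A' (ω j) * i (w j))
    (inj : ∀ w : Fin m → A, ∑ j, algebraMap κ' A' (ω j) * i (w j) = 0 → w = 0) :
    ∃ B : Bch m κ κ' A A', B.i = i := by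
  refine ⟨⟨i, comm, fun ω' z => ?_, fun ω' w h => ?_⟩, rfl⟩
  · obtain ⟨w, hw⟩ := surj z
    exact ⟨fun j => ∑ l, algebraMap κ A (ω'.repr (ω l) j) * w l,
      hw.trans (bca_change i comm ω' ω w)⟩
  · rw [bca_change i comm ω ω' w] at h
    have h1 := fun j => congrFun (inj _ h) j
    funext k
    have h2 : ∀ l, ω'.repr (ω' l) k = ∑ j, ω.repr (ω' l) j * ω'.repr (ω j) k := by
      intro l
      have h3 := congrArg (fun v => ω'.repr v k) (ω.sum_repr (ω' l)).symm
      simp only [map_sum, map_smul, Finsupp.coe_finsetSum, Finset.sum_apply,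
        Finsupp.smul_apply, smul_eq_mul] at h3
      exact h3
    have h3 : w k = ∑ l, algebraMap κ A (ω'.repr (ω' l) k) * w l := by
      rw [Finset.sum_eq_single k]
      · rw [Basis.repr_self, Finsupp.single_eq_same, map_one, one_mul]
      · intro l _ hl
        rw [Basis.repr_self, Finsupp.single_eq_of_ne (Ne.symm hl), map_zero, zero_mul]
      · intro hk
        exact (hk (Finset.mem_univ k)).elim
    have h4 : ∑ l, algebraMap κ A (ω'.repr (ω' l) k) * w l =
        ∑ j, algebraMap κ A (ω'.repr (ω j) k) *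
          ∑ l, algebraMap κ A (ω.repr (ω' l) j) * w l := by
      simp only [Finset.mul_sum]
      rw [Finset.sum_comm]
      refine Finset.sum_congr rfl fun l _ => ?_
      rw [h2 l, map_sum, Finset.sum_mul]
      refine Finset.sum_congr rfl fun j _ => ?_
      rw [map_mul]
      ring
    rw [h3, h4, Pi.zero_apply]
    refine Finset.sum_eq_zero fun j _ => ?_
    have h5 := h1 j
    simp only [Pi.zero_apply] at h5
    rw [h5, mul_zero]

variable (B : Bch m κ κ' A A')

private theorem Bch.eq_of_sum (ω : Basis (Fin m) κ κ') {w w' : Fin m → A}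
    (h : ∑ j, algebraMap κ' A' (ω j) * B.i (w j) = ∑ j, algebraMap κ' A' (ω j) * B.i (w' j)) :
    w = w' := by
  have h1 : ∑ j, algebraMap κ' A' (ω j) * B.i ((w - w') j) = 0 := by
    rw [← sub_eq_zero, ← Finset.sum_sub_distrib] at h
    rw [← h]
    refine Finset.sum_congr rfl fun j _ => ?_
    rw [Pi.sub_apply, map_sub, mul_sub]
  exact sub_eq_zero.1 (B.inj ω _ h1)

private theorem Bch.i_expand (ω : Basis (Fin m) κ κ') (a : A) :
    B.i a = ∑ j, algebraMap κ' A' (ω j) * B.i (algebraMap κ A (ω.repr 1 j) * a) := by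
  have h := bca_expand B.i B.comm ω (1 : κ') a LinearMap.id
  simp only [LinearMap.id_apply, map_one, one_mul] at h
  exact h

theorem Bch.i_injective (ω : Basis (Fin m) κ κ') : Function.Injective B.i := by
  rw [injective_iff_map_eq_zero]
  intro a ha
  have h1 := B.i_expand ω a
  rw [ha] at h1
  have h2 := B.inj ω _ h1.symm
  obtain ⟨j, hj⟩ : ∃ j, ω.repr 1 j ≠ 0 := by
    by_contra hcon
    push Not at hcon
    have h3 : (1 : κ') = 0 := by
      rw [← ω.sum_repr 1]
      exact Finset.sum_eq_zero fun j _ => by rw [hcon j, zero_smul]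
    exact one_ne_zero h3
  have h4 : algebraMap κ A (ω.repr 1 j) * a = 0 := congrFun h2 j
  have h5 : algebraMap κ A (ω.repr 1 j)⁻¹ * (algebraMap κ A (ω.repr 1 j) * a) = 0 := by
    rw [h4, mul_zero]
  rwa [← mul_assoc, ← map_mul, inv_mul_cancel₀ hj, map_one, one_mul] at h5

/-- The coordinates. -/
def Bch.co (ω : Basis (Fin m) κ κ') (z : A') : Fin m → A := (B.surj ω z).choose

theorem Bch.co_spec (ω : Basis (Fin m) κ κ') (z : A') :
    z = ∑ j, algebraMap κ' A' (ω j) * B.i (B.co ω z j) := (B.surj ω z).choose_spec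

theorem Bch.co_unique (ω : Basis (Fin m) κ κ') {z : A'} {w : Fin m → A}
    (h : z = ∑ j, algebraMap κ' A' (ω j) * B.i (w j)) : B.co ω z = w := by
  exact B.eq_of_sum ω ((B.co_spec ω z).symm.trans h)

theorem Bch.co_add (ω : Basis (Fin m) κ κ') (z z' : A') :
    B.co ω (z + z') = B.co ω z + B.co ω z' := by
  refine B.co_unique ω ?_
  conv_lhs => rw [B.co_spec ω z, B.co_spec ω z', ← Finset.sum_add_distrib]
  refine Finset.sum_congr rfl fun j _ => ?_
  rw [Pi.add_apply, map_add, mul_add]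

theorem Bch.co_mul_i (ω : Basis (Fin m) κ κ') (z : A') (a : A) (j : Fin m) :
    B.co ω (z * B.i a) j = B.co ω z j * a := by
  have h : B.co ω (z * B.i a) = fun j => B.co ω z j * a := by
    refine B.co_unique ω ?_
    conv_lhs => rw [B.co_spec ω z, Finset.sum_mul]
    refine Finset.sum_congr rfl fun j _ => ?_
    rw [map_mul, mul_assoc]
  exact congrFun h j

/-- `1 = ∑ j, (ω.repr 1 j) • ω j`. -/
theorem Bch.co_i (ω : Basis (Fin m) κ κ') (a : A) (j : Fin m) :
    B.co ω (B.i a) j = algebraMap κ A (ω.repr 1 j) * a := by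
  exact congrFun (B.co_unique ω (B.i_expand ω a)) j

private theorem Bch.hom_ext' (ω : Basis (Fin m) κ κ') {C : Type*} [CommRing C] {f g : A' →+* C}
    (h1 : ∀ a, f (B.i a) = g (B.i a))
    (h2 : ∀ x : κ', f (algebraMap κ' A' x) = g (algebraMap κ' A' x)) : f = g := by
  refine RingHom.ext fun z => ?_
  rw [B.co_spec ω z, map_sum, map_sum]
  refine Finset.sum_congr rfl fun j _ => ?_
  rw [map_mul, map_mul, h1, h2]

/-- The map `z ↦ ∑ j, σ (ω j) * i (co ω z j)`. -/
private def Bch.actA (ω : Basis (Fin m) κ κ') (σ : κ' ≃ₐ[κ] κ') : A' →+ A' :=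
  AddMonoidHom.mk' (fun z => ∑ j, algebraMap κ' A' (σ (ω j)) * B.i (B.co ω z j)) fun z z' => by
    rw [← Finset.sum_add_distrib]
    refine Finset.sum_congr rfl fun j _ => ?_
    rw [B.co_add, Pi.add_apply, map_add, mul_add]

private theorem Bch.actA_apply (ω : Basis (Fin m) κ κ') (σ : κ' ≃ₐ[κ] κ') (z : A') :
    B.actA ω σ z = ∑ j, algebraMap κ' A' (σ (ω j)) * B.i (B.co ω z j) := rfl

private theorem Bch.actA_mul_i (ω : Basis (Fin m) κ κ') (σ : κ' ≃ₐ[κ] κ') (x : κ') (a : A) :
    B.actA ω σ (algebraMap κ' A' x * B.i a) = algebraMap κ' A' (σ x) * B.i a := by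
  have h1 : B.co ω (algebraMap κ' A' x * B.i a) = fun j => algebraMap κ A (ω.repr x j) * a :=
    B.co_unique ω (bca_expand B.i B.comm ω x a LinearMap.id)
  rw [B.actA_apply, h1]
  exact (bca_expand B.i B.comm ω x a σ.toLinearMap).symm

private theorem Bch.actA_mul (ω : Basis (Fin m) κ κ') (σ : κ' ≃ₐ[κ] κ') (z z' : A') :
    B.actA ω σ (z * z') = B.actA ω σ z * B.actA ω σ z' := by
  have h1 : z * z' = ∑ j, ∑ l, algebraMap κ' A' (ω j * ω l) *
      B.i (B.co ω z j * B.co ω z' l) := by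
    conv_lhs => rw [B.co_spec ω z, B.co_spec ω z', Finset.sum_mul_sum]
    refine Finset.sum_congr rfl fun j _ => Finset.sum_congr rfl fun l _ => ?_
    rw [map_mul, map_mul]
    ring
  rw [h1, map_sum, B.actA_apply ω σ z, B.actA_apply ω σ z', Finset.sum_mul_sum]
  refine Finset.sum_congr rfl fun j _ => ?_
  rw [map_sum]
  refine Finset.sum_congr rfl fun l _ => ?_
  rw [B.actA_mul_i, map_mul σ, map_mul (algebraMap κ' A'), map_mul B.i]
  ring

/-- The action of an automorphism as a ring homomorphism. -/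
private def Bch.actR (ω : Basis (Fin m) κ κ') (σ : κ' ≃ₐ[κ] κ') : A' →+* A' where
  toFun := B.actA ω σ
  map_zero' := map_zero _
  map_add' := map_add _
  map_mul' := B.actA_mul ω σ
  map_one' := by
    have h := B.actA_mul_i ω σ 1 1
    rwa [map_one (algebraMap κ' A'), map_one B.i, mul_one, map_one σ,
      map_one (algebraMap κ' A'), mul_one] at h

private theorem Bch.actR_i (ω : Basis (Fin m) κ κ') (σ : κ' ≃ₐ[κ] κ') (a : A) :
    B.actR ω σ (B.i a) = B.i a := by
  have h := B.actA_mul_i ω σ 1 a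
  rw [map_one, one_mul, map_one, map_one, one_mul] at h
  exact h

private theorem Bch.actR_algebraMap (ω : Basis (Fin m) κ κ') (σ : κ' ≃ₐ[κ] κ') (x : κ') :
    B.actR ω σ (algebraMap κ' A' x) = algebraMap κ' A' (σ x) := by
  have h := B.actA_mul_i ω σ x 1
  rw [map_one, mul_one, mul_one] at h
  exact h

/-- The Galois group acts on `A'`.
PROOF. `s z = ∑ j, σ (ω j) * i (co ω z j)`. Additive: `co_add`. Multiplicative: for
`z = ∑ ω_j w_j`, `z' = ∑ ω_l v_l` and `ω_j ω_l = ∑_t c^t_{jl} ω_t` with `c^t_{jl} ∈ κ` the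
coordinates
of `z z'` are `∑_{j,l} c^t_{jl} w_j v_l` (`co_unique`), and
`∑_t σ (ω_t) c^t_{jl} = σ (ω_j ω_l) = σ (ω_j) σ (ω_l)`. The inverse is the same map for `σ⁻¹`
(both maps fix `i A` and are `σ` resp. `σ⁻¹` on `κ'`, so the compositions are the identity). -/
theorem Bch.exists_act (ω : Basis (Fin m) κ κ') (σ : κ' ≃ₐ[κ] κ') :
    ∃ s : A' ≃+* A', (∀ a, s (B.i a) = B.i a) ∧
      ∀ x : κ', s (algebraMap κ' A' x) = algebraMap κ' A' (σ x) := by
  refine ⟨RingEquiv.ofRingHom (B.actR ω σ) (B.actR ω σ.symm) ?_ ?_, fun a => B.actR_i ω σ a,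
    fun x => B.actR_algebraMap ω σ x⟩
  · refine B.hom_ext' ω (fun a => ?_) fun x => ?_
    · rw [RingHom.comp_apply, B.actR_i, B.actR_i, RingHom.id_apply]
    · rw [RingHom.comp_apply, B.actR_algebraMap, B.actR_algebraMap, AlgEquiv.apply_symm_apply,
        RingHom.id_apply]
  · refine B.hom_ext' ω (fun a => ?_) fun x => ?_
    · rw [RingHom.comp_apply, B.actR_i, B.actR_i, RingHom.id_apply]
    · rw [RingHom.comp_apply, B.actR_algebraMap, B.actR_algebraMap, AlgEquiv.symm_apply_apply,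
        RingHom.id_apply]

/-- The action of the Galois group. -/
def Bch.act (ω : Basis (Fin m) κ κ') (σ : κ' ≃ₐ[κ] κ') : A' ≃+* A' :=
  (B.exists_act ω σ).choose

theorem Bch.act_i (ω : Basis (Fin m) κ κ') (σ : κ' ≃ₐ[κ] κ') (a : A) :
    B.act ω σ (B.i a) = B.i a := (B.exists_act ω σ).choose_spec.1 a

theorem Bch.act_algebraMap (ω : Basis (Fin m) κ κ') (σ : κ' ≃ₐ[κ] κ') (x : κ') :
    B.act ω σ (algebraMap κ' A' x) = algebraMap κ' A' (σ x) := (B.exists_act ω σ).choose_spec.2 x

/-- Two ring homomorphisms from `A'` which agree on `i A` and on `κ'` are equal (`co_spec`). -/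
theorem Bch.hom_ext (ω : Basis (Fin m) κ κ') {C : Type*} [CommRing C] {f g : A' →+* C}
    (h1 : ∀ a, f (B.i a) = g (B.i a))
    (h2 : ∀ x : κ', f (algebraMap κ' A' x) = g (algebraMap κ' A' x)) : f = g := by
  exact B.hom_ext' ω h1 h2

theorem Bch.act_mul (ω : Basis (Fin m) κ κ') (σ τ : κ' ≃ₐ[κ] κ') (z : A') :
    B.act ω (σ * τ) z = B.act ω σ (B.act ω τ z) := by
  have h : ((B.act ω (σ * τ) : A' ≃+* A') : A' →+* A') =
      ((B.act ω σ : A' ≃+* A') : A' →+* A').comp ((B.act ω τ : A' ≃+* A') : A' →+* A') := by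
    refine B.hom_ext ω (fun a => ?_) fun x => ?_
    · rw [RingHom.comp_apply, RingEquiv.coe_toRingHom, RingEquiv.coe_toRingHom,
        RingEquiv.coe_toRingHom, B.act_i, B.act_i, B.act_i]
    · rw [RingHom.comp_apply, RingEquiv.coe_toRingHom, RingEquiv.coe_toRingHom,
        RingEquiv.coe_toRingHom, B.act_algebraMap, B.act_algebraMap, B.act_algebraMap]
      rfl
  exact RingHom.congr_fun h z

theorem Bch.act_one (ω : Basis (Fin m) κ κ') (z : A') : B.act ω 1 z = z := by
  have h : ((B.act ω (1 : κ' ≃ₐ[κ] κ') : A' ≃+* A') : A' →+* A') = RingHom.id A' := by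
    refine B.hom_ext ω (fun a => ?_) fun x => ?_
    · rw [RingEquiv.coe_toRingHom, B.act_i, RingHom.id_apply]
    · rw [RingEquiv.coe_toRingHom, B.act_algebraMap, RingHom.id_apply]
      rfl
  exact RingHom.congr_fun h z

private theorem Bch.sum_act_mul [FiniteDimensional κ κ'] [IsGalois κ κ']
    (ω : Basis (Fin m) κ κ') (x : κ') (a : A) :
    ∑ σ : κ' ≃ₐ[κ] κ', B.act ω σ (algebraMap κ' A' x * B.i a) =
      B.i (algebraMap κ A (Algebra.trace κ κ' x) * a) := by
  rw [map_mul, B.comm, trace_eq_sum_automorphisms, map_sum, Finset.sum_mul]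
  refine Finset.sum_congr rfl fun σ _ => ?_
  rw [map_mul, B.act_i, B.act_algebraMap]

/-- Traces. PROOF. By linearity let `z = x * i a` with `x ∈ κ'`:
`∑ σ, σ (x) = algebraMap κ κ' (Algebra.trace κ κ' x)` (`trace_eq_sum_automorphisms`). -/
theorem Bch.sum_act [FiniteDimensional κ κ'] [IsGalois κ κ'] (ω : Basis (Fin m) κ κ') (z : A') :
    ∑ σ : κ' ≃ₐ[κ] κ', B.act ω σ z =
      B.i (∑ j, algebraMap κ A (Algebra.trace κ κ' (ω j)) * B.co ω z j) := by
  conv_lhs => rw [B.co_spec ω z]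
  rw [map_sum, Finset.sum_congr rfl fun σ _ => map_sum (B.act ω σ) _ _, Finset.sum_comm]
  exact Finset.sum_congr rfl fun j _ => B.sum_act_mul ω _ _

/-- The coordinates of `z` are traces of multiples of `z`: with the trace dual basis `ω*`
(`Basis.traceDual`, `Basis.trace_traceDual_mul`)
`i (co ω z j) = ∑ σ, act σ (z * ω*_j)`. -/
theorem Bch.exists_dual [FiniteDimensional κ κ'] [IsGalois κ κ'] (ω : Basis (Fin m) κ κ')
    (j : Fin m) : ∃ x : κ', ∀ z : A',
      B.i (B.co ω z j) = ∑ σ : κ' ≃ₐ[κ] κ', B.act ω σ (z * algebraMap κ' A' x) := by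
  refine ⟨ω.traceDual j, fun z => ?_⟩
  have h1 : z * algebraMap κ' A' (ω.traceDual j) =
      ∑ l, algebraMap κ' A' (ω l * ω.traceDual j) * B.i (B.co ω z l) := by
    conv_lhs => rw [B.co_spec ω z, Finset.sum_mul]
    refine Finset.sum_congr rfl fun l _ => ?_
    rw [map_mul]
    ring
  rw [h1, Finset.sum_congr rfl fun σ _ => map_sum (B.act ω σ) _ _, Finset.sum_comm,
    Finset.sum_congr rfl fun l _ => B.sum_act_mul ω _ _, Finset.sum_eq_single j]
  · rw [Basis.trace_mul_traceDual, if_pos rfl, map_one, one_mul]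
  · intro l _ hl
    rw [Basis.trace_mul_traceDual, if_neg hl, map_zero, zero_mul, map_zero]
  · intro hj
    exact (hj (Finset.mem_univ j)).elim

end FU
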