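import Pool.Agent.Lib.MP_9e8926_ag_G.BCa

/-!
# MP_9e8926_ag, block G: ideals under base change
-/

set_option autoImplicit false

noncomputable section

namespace FU

open Finset Module

variable {m : ℕ} {κ κ' A A' : Type*} [Field κ] [Field κ'] [Algebra κ κ'] [CommRing A]
  [CommRing A'] [Algebra κ A] [Algebra κ' A'] (B : Bch m κ κ' A A')

private theorem Bch.bcb_expand (ω : Basis (Fin m) κ κ') (x : κ') (a : A) :
    algebraMap κ' A' x * B.i a =
      ∑ j, algebraMap κ' A' (ω j) * B.i (algebraMap κ A (ω.repr x j) * a) := by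
  have h1 : algebraMap κ' A' x = ∑ j, algebraMap κ' A' (ω.repr x j • ω j) := by
    conv_lhs => rw [← ω.sum_repr x]
    rw [map_sum]
  rw [h1, Finset.sum_mul]
  refine Finset.sum_congr rfl fun j _ => ?_
  rw [Algebra.smul_def, map_mul, ← B.comm, map_mul]
  ring

private theorem Bch.bcb_co_mul (ω : Basis (Fin m) κ κ') (x : κ') (y : A') :
    B.co ω (algebraMap κ' A' x * y) =
      fun j => ∑ t, algebraMap κ A (ω.repr (x * ω t) j) * B.co ω y t := by
  refine B.co_unique ω ?_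
  conv_lhs => rw [B.co_spec ω y, Finset.mul_sum]
  have h1 : ∀ t, algebraMap κ' A' x * (algebraMap κ' A' (ω t) * B.i (B.co ω y t)) =
      ∑ j, algebraMap κ' A' (ω j) *
        B.i (algebraMap κ A (ω.repr (x * ω t) j) * B.co ω y t) := by
    intro t
    rw [← mul_assoc, ← map_mul]
    exact B.bcb_expand ω _ _
  rw [Finset.sum_congr rfl fun t _ => h1 t, Finset.sum_comm]
  refine Finset.sum_congr rfl fun j _ => ?_
  rw [map_sum, Finset.mul_sum]

private theorem Bch.bcb_co_zero (ω : Basis (Fin m) κ κ') (j : Fin m) : B.co ω 0 j = 0 := by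
  have h := B.co_mul_i ω 0 0 j
  rwa [map_zero, mul_zero, mul_zero] at h

private theorem Bch.bcb_co_sum (ω : Basis (Fin m) κ κ') {ι : Type*} (s : Finset ι)
    (f : ι → A') (j : Fin m) : B.co ω (∑ l ∈ s, f l) j = ∑ l ∈ s, B.co ω (f l) j := by
  classical
  induction s using Finset.induction_on with
  | empty => rw [Finset.sum_empty, Finset.sum_empty, B.bcb_co_zero]
  | insert a s ha ih => rw [Finset.sum_insert ha, Finset.sum_insert ha, B.co_add, Pi.add_apply, ih]

private theorem Bch.bcb_co_mem (ω : Basis (Fin m) κ κ') (I : Ideal A) {z : A'}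
    (hz : z ∈ I.map B.i) : ∀ j, B.co ω z j ∈ I := by
  refine Submodule.span_induction (p := fun z _ => ∀ j, B.co ω z j ∈ I) ?_ ?_ ?_ ?_ hz
  · rintro z ⟨a, ha, rfl⟩ j
    rw [B.co_i]
    exact I.mul_mem_left _ ha
  · intro j
    rw [B.bcb_co_zero]
    exact I.zero_mem
  · intro x y _ _ hx hy j
    rw [B.co_add]
    exact I.add_mem (hx j) (hy j)
  · intro r y _ hy j
    have h1 : r • y = ∑ l, algebraMap κ' A' (ω l) * (y * B.i (B.co ω r l)) := by
      rw [smul_eq_mul]
      conv_lhs => rw [B.co_spec ω r, Finset.sum_mul]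
      refine Finset.sum_congr rfl fun l _ => ?_
      ring
    rw [h1, B.bcb_co_sum]
    refine I.sum_mem fun l _ => ?_
    rw [B.bcb_co_mul]
    refine I.sum_mem fun t _ => I.mul_mem_left _ ?_
    rw [B.co_mul_i]
    exact I.mul_mem_right _ (hy t)

/-- Extension and contraction: `IA' ∩ A = I`. PROOF. The elements of `I.map i` are the `z` all
of whose coordinates are in `I` (this set is an ideal which contains `i I`: multiplication of `z`
by `ω_l` is a `κ`-linear combination of coordinates). If `i a` is in it, then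
` (ω.repr 1 j) • a ∈ I` for all `j` (`co_i`), and `ω.repr 1 j ≠ 0` for some `j`. -/
theorem Bch.comap_map (ω : Basis (Fin m) κ κ') (I : Ideal A) {a : A} (ha : B.i a ∈ I.map B.i) :
    a ∈ I := by
  obtain ⟨j, hj⟩ : ∃ j, ω.repr 1 j ≠ 0 := by
    by_contra hcon
    push Not at hcon
    have h3 : (1 : κ') = 0 := by
      rw [← ω.sum_repr 1]
      exact Finset.sum_eq_zero fun j _ => by rw [hcon j, zero_smul]
    exact one_ne_zero h3
  have h := B.bcb_co_mem ω I ha j
  rw [B.co_i] at h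
  have h2 := I.mul_mem_left (algebraMap κ A (ω.repr 1 j)⁻¹) h
  rwa [← mul_assoc, ← map_mul, inv_mul_cancel₀ hj, map_one, one_mul] at h2

/-- The action preserves extended ideals (`Submodule.span_induction` or `Ideal.map_map`). -/
theorem Bch.act_mem_map (ω : Basis (Fin m) κ κ') (σ : κ' ≃ₐ[κ] κ') (I : Ideal A) {z : A'}
    (hz : z ∈ I.map B.i) : B.act ω σ z ∈ I.map B.i := by
  have h := Ideal.mem_map_of_mem ((B.act ω σ : A' ≃+* A') : A' →+* A') hz
  rw [Ideal.map_map] at h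
  have h2 : ((B.act ω σ : A' ≃+* A') : A' →+* A').comp B.i = B.i :=
    RingHom.ext fun a => B.act_i ω σ a
  rw [h2] at h
  exact h

private theorem Bch.bcb_inv_act (ω : Basis (Fin m) κ κ') (σ : κ' ≃ₐ[κ] κ') (z : A') :
    B.act ω σ⁻¹ (B.act ω σ z) = z := by
  rw [← B.act_mul, inv_mul_cancel, B.act_one]

private theorem Bch.bcb_act_inv (ω : Basis (Fin m) κ κ') (σ : κ' ≃ₐ[κ] κ') (z : A') :
    B.act ω σ (B.act ω σ⁻¹ z) = z := by
  rw [← B.act_mul, mul_inv_cancel, B.act_one]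

/-- The image of an ideal under the action. -/
def Bch.img (ω : Basis (Fin m) κ κ') (σ : κ' ≃ₐ[κ] κ') (I : Ideal A') : Ideal A' :=
  I.comap (B.act ω σ⁻¹ : A' →+* A')

theorem Bch.mem_img (ω : Basis (Fin m) κ κ') (σ : κ' ≃ₐ[κ] κ') (I : Ideal A') (z : A') :
    z ∈ B.img ω σ I ↔ B.act ω σ⁻¹ z ∈ I := Iff.rfl

theorem Bch.act_mem_img (ω : Basis (Fin m) κ κ') (σ : κ' ≃ₐ[κ] κ') (I : Ideal A') (z : A') :
    B.act ω σ z ∈ B.img ω σ I ↔ z ∈ I := by
  rw [B.mem_img, B.bcb_inv_act]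

theorem Bch.img_one (ω : Basis (Fin m) κ κ') (I : Ideal A') : B.img ω 1 I = I := by
  ext z
  rw [B.mem_img, inv_one, B.act_one]

theorem Bch.img_img (ω : Basis (Fin m) κ κ') (σ τ : κ' ≃ₐ[κ] κ') (I : Ideal A') :
    B.img ω σ (B.img ω τ I) = B.img ω (σ * τ) I := by
  ext z
  rw [B.mem_img, B.mem_img, B.mem_img, mul_inv_rev, B.act_mul]

theorem Bch.img_mono (ω : Basis (Fin m) κ κ') (σ : κ' ≃ₐ[κ] κ') {I I' : Ideal A'}
    (h : I ≤ I') : B.img ω σ I ≤ B.img ω σ I' :=
  fun _ hz => h hz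

private theorem Bch.bcb_img_eq (ω : Basis (Fin m) κ κ') (σ : κ' ≃ₐ[κ] κ') (I : Ideal A') :
    B.img ω σ I = I.map ((B.act ω σ : A' ≃+* A') : A' →+* A') := by
  refine le_antisymm (fun z hz => ?_) (Ideal.map_le_iff_le_comap.2 fun z hz => ?_)
  · have h := Ideal.mem_map_of_mem ((B.act ω σ : A' ≃+* A') : A' →+* A') ((B.mem_img ω σ I z).1 hz)
    rw [RingEquiv.coe_toRingHom, B.bcb_act_inv] at h
    exact h
  · exact (B.act_mem_img ω σ I z).2 hz

theorem Bch.img_pow (ω : Basis (Fin m) κ κ') (σ : κ' ≃ₐ[κ] κ') (I : Ideal A') (u : ℕ) :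
    B.img ω σ (I ^ u) = B.img ω σ I ^ u := by
  rw [B.bcb_img_eq, B.bcb_img_eq, Ideal.map_pow]

theorem Bch.img_map (ω : Basis (Fin m) κ κ') (σ : κ' ≃ₐ[κ] κ') (I : Ideal A) :
    B.img ω σ (I.map B.i) = I.map B.i := by
  refine le_antisymm (fun z hz => ?_) fun z hz => B.act_mem_map ω σ⁻¹ I hz
  have h := B.act_mem_map ω σ I ((B.mem_img ω σ _ z).1 hz)
  rwa [B.bcb_act_inv] at h

/-- PROOF. `act σ` induces a bijection of `A' ⧸ I` and `A' ⧸ img σ I`; the cardinalities are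
`card κ' ^ finrank` (`Module.card_eq_pow_finrank`, `Nat.card` version) and `card κ' ≥ 2`. -/
theorem Bch.finrank_img [Finite κ'] (ω : Basis (Fin m) κ κ') (σ : κ' ≃ₐ[κ] κ') (I : Ideal A')
    (hI : Module.Finite κ' (A' ⧸ I)) (hI' : Module.Finite κ' (A' ⧸ B.img ω σ I)) :
    finrank κ' (A' ⧸ B.img ω σ I) = finrank κ' (A' ⧸ I) := by
  have e := Ideal.quotientEquiv I (B.img ω σ I) (B.act ω σ) (B.bcb_img_eq ω σ I)
  have h1 : Nat.card (A' ⧸ I) = Nat.card (A' ⧸ B.img ω σ I) := Nat.card_congr e.toEquiv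
  rw [Module.natCard_eq_pow_finrank (K := κ') (V := A' ⧸ I),
    Module.natCard_eq_pow_finrank (K := κ') (V := A' ⧸ B.img ω σ I)] at h1
  exact (Nat.pow_right_injective Finite.one_lt_card h1).symm

/-- The intersection of the conjugates. -/
def Bch.core (ω : Basis (Fin m) κ κ') (I : Ideal A') : Ideal A' :=
  ⨅ σ : κ' ≃ₐ[κ] κ', B.img ω σ I

theorem Bch.core_le (ω : Basis (Fin m) κ κ') (I : Ideal A') : B.core ω I ≤ I :=
  (iInf_le _ (1 : κ' ≃ₐ[κ] κ')).trans (B.img_one ω I).le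

theorem Bch.act_mem_core (ω : Basis (Fin m) κ κ') (σ : κ' ≃ₐ[κ] κ') (I : Ideal A') {z : A'}
    (hz : z ∈ B.core ω I) : B.act ω σ z ∈ B.core ω I := by
  refine (Submodule.mem_iInf _).2 fun τ => ?_
  have h := (Submodule.mem_iInf _).1 hz (σ⁻¹ * τ)
  rw [B.mem_img] at h ⊢
  rwa [mul_inv_rev, inv_inv, B.act_mul] at h

/-- `core I = I ⊓ ⨅ σ ∈ univ, img σ I`. -/
theorem Bch.core_eq [Finite κ'] [Fintype (κ' ≃ₐ[κ] κ')] (ω : Basis (Fin m) κ κ')
    (I : Ideal A') : B.core ω I = I ⊓ ⨅ σ ∈ (univ : Finset (κ' ≃ₐ[κ] κ')), B.img ω σ I := by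
  refine le_antisymm (le_inf (B.core_le ω I) ?_) (inf_le_right.trans ?_)
  · exact le_iInf fun σ => le_iInf fun _ => iInf_le _ σ
  · exact le_iInf fun σ => (iInf_le _ σ).trans (iInf_le _ (mem_univ σ))

/-- The coordinates of an element of the core are in the contraction of the core. -/
private theorem Bch.bcb_co_core [Finite κ] [Finite κ'] (ω : Basis (Fin m) κ κ') (I : Ideal A')
    {z : A'} (hz : z ∈ B.core ω I) (j : Fin m) : B.co ω z j ∈ (B.core ω I).comap B.i := by
  have _ : FiniteDimensional κ κ' := Module.Finite.of_basis ω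
  obtain ⟨x, hx⟩ := B.exists_dual ω j
  rw [Ideal.mem_comap, hx z]
  exact Ideal.sum_mem _ fun σ _ => B.act_mem_core ω σ I (Ideal.mul_mem_right _ _ hz)

/-- Descent of the colength.

PROOF. Let `g = (core I).comap i`. The map ` (Fin m → A) → A' ⧸ core I`, `w ↦ ∑ ω_j i (w_j)`, has
the
kernel ` (Fin m → g)`: if `z = ∑ ω_j i (w_j) ∈ core I` then `i (w_j) = ∑ σ, act σ (z x_j) ∈ core I`
(`exists_dual`, `act_mem_core`). So `card (A ⧸ g) ^ m ≤ card (A' ⧸ core I)`, that is
`card κ ^ (m finrank κ (A ⧸ g)) ≤ card κ' ^ finrank κ' (A' ⧸ core I)` and `card κ' = card κ ^ m`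
(`Module.card_eq_pow_finrank`). -/
theorem Bch.finrank_comap_le [Finite κ] [Finite κ'] (ω : Basis (Fin m) κ κ') (hm : 1 ≤ m)
    (I : Ideal A')
    (hI : Module.Finite κ' (A' ⧸ B.core ω I)) (hg : Module.Finite κ (A ⧸ (B.core ω I).comap B.i)) :
    finrank κ (A ⧸ (B.core ω I).comap B.i) ≤ finrank κ' (A' ⧸ B.core ω I) := by
  have hfin : Finite (A' ⧸ B.core ω I) := Module.finite_of_finite κ'
  let F : (Fin m → A ⧸ (B.core ω I).comap B.i) → A' ⧸ B.core ω I := fun w =>
    Ideal.Quotient.mk _ (∑ j, algebraMap κ' A' (ω j) * B.i (Quotient.out (w j)))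
  have hF : Function.Injective F := by
    intro w w' h
    have h1 : ∑ j, algebraMap κ' A' (ω j) * B.i (Quotient.out (w j) - Quotient.out (w' j)) ∈
        B.core ω I := by
      have h2 := Ideal.Quotient.eq.1 h
      rw [← Finset.sum_sub_distrib] at h2
      convert h2 using 2 with j _
      rw [map_sub, mul_sub]
    funext j
    have h3 := B.bcb_co_core ω I h1 j
    rw [B.co_unique ω (w := fun j => Quotient.out (w j) - Quotient.out (w' j)) rfl] at h3
    have h4 := Ideal.Quotient.eq.2 h3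
    have h5 : ∀ v : A ⧸ (B.core ω I).comap B.i,
        Ideal.Quotient.mk ((B.core ω I).comap B.i) (Quotient.out v) = v :=
      fun v => Quotient.out_eq v
    rwa [h5, h5] at h4
  have h1 := Nat.card_le_card_of_injective F hF
  rw [Nat.card_fun, Nat.card_fin, Module.natCard_eq_pow_finrank (K := κ),
    Module.natCard_eq_pow_finrank (K := κ') (V := A' ⧸ B.core ω I)] at h1
  have h2 : Nat.card κ' = Nat.card κ ^ m := by
    have _ : Module.Finite κ κ' := Module.Finite.of_basis ω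
    rw [Module.natCard_eq_pow_finrank (K := κ) (V := κ'), finrank_eq_card_basis ω,
      Fintype.card_fin]
  rw [h2, ← pow_mul, ← pow_mul] at h1
  have h3 := (Nat.pow_le_pow_iff_right (Finite.one_lt_card (α := κ))).1 h1
  rw [mul_comm] at h3
  exact Nat.le_of_mul_le_mul_left h3 hm

end FU
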