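import Pool.Agent.Lib.MP_9e8926_ag_G.BCb

/-!
# MP_9e8926_ag, block G: norms, and the field of fractions
-/

set_option autoImplicit false

noncomputable section

namespace FU

open Finset Module

section

variable {m : ℕ} {κ κ' A A' : Type*} [Field κ] [Field κ'] [Algebra κ κ'] [CommRing A]
  [CommRing A'] [Algebra κ A] [Algebra κ' A'] (B : Bch m κ κ' A A')

/-- PROOF. Choose `x ∈ κ'` of trace one (the trace form of a separable extension is not zero,
`Algebra.trace_surjective`). Then `∑ σ, act σ (z x) = z ∑ σ, σ x = z`, and the left side is in the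
image of `i` by `sum_act`. -/
theorem Bch.exists_of_fixed [FiniteDimensional κ κ'] [IsGalois κ κ'] (ω : Basis (Fin m) κ κ')
    {z : A'} (hz : ∀ σ : κ' ≃ₐ[κ] κ', B.act ω σ z = z) : ∃ a : A, z = B.i a := by
  obtain ⟨x, hx⟩ := Algebra.trace_surjective κ κ' 1
  refine ⟨_, Eq.trans ?_ (B.sum_act ω (z * algebraMap κ' A' x))⟩
  have h1 : ∀ σ : κ' ≃ₐ[κ] κ', B.act ω σ (z * algebraMap κ' A' x) =
      z * algebraMap κ' A' (σ x) := by
    intro σ
    rw [map_mul, hz σ, B.act_algebraMap]
  rw [Finset.sum_congr rfl fun σ _ => h1 σ, ← Finset.mul_sum, ← map_sum,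
    ← trace_eq_sum_automorphisms (K := κ) x, hx, map_one, map_one, mul_one]

/-- Every nonzero element divides a nonzero element of `A`: the norm `∏ σ, act σ y`
(`act_one` for the factor `y`, `exists_of_fixed`, `act_mul`). -/
theorem Bch.exists_norm [IsDomain A'] [FiniteDimensional κ κ'] [IsGalois κ κ']
    (ω : Basis (Fin m) κ κ') {y : A'} (hy : y ≠ 0) :
    ∃ (y' : A') (d : A), d ≠ 0 ∧ y * y' = B.i d := by
  classical
  have hfix : ∀ τ : κ' ≃ₐ[κ] κ', B.act ω τ (∏ σ : κ' ≃ₐ[κ] κ', B.act ω σ y) =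
      ∏ σ : κ' ≃ₐ[κ] κ', B.act ω σ y := by
    intro τ
    rw [map_prod]
    have h1 : ∀ σ : κ' ≃ₐ[κ] κ', B.act ω τ (B.act ω σ y) = B.act ω (τ * σ) y := fun σ =>
      (B.act_mul ω τ σ y).symm
    rw [Finset.prod_congr rfl fun σ _ => h1 σ]
    exact Fintype.prod_equiv (Equiv.mulLeft τ) _ _ fun σ => rfl
  obtain ⟨d, hd⟩ := B.exists_of_fixed ω hfix
  have hne : (∏ σ : κ' ≃ₐ[κ] κ', B.act ω σ y) ≠ 0 :=
    Finset.prod_ne_zero_iff.2 fun σ _ => by
      rw [Ne, EmbeddingLike.map_eq_zero_iff]
      exact hy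
  refine ⟨∏ σ ∈ (univ : Finset (κ' ≃ₐ[κ] κ')).erase 1, B.act ω σ y, d, ?_, ?_⟩
  · rintro rfl
    rw [map_zero] at hd
    exact hne hd
  · rw [← hd, ← Finset.mul_prod_erase univ (fun σ : κ' ≃ₐ[κ] κ' => B.act ω σ y)
      (Finset.mem_univ 1), B.act_one]

end

variable {m : ℕ} {κ κ' R R' K K' : Type*} [Field κ] [Field κ'] [Algebra κ κ'] [CommRing R]
  [CommRing R'] [Algebra κ R] [Algebra κ' R'] [Field K] [Field K'] [Algebra R K]
  [Algebra R' K'] [Algebra κ K] [Algebra κ' K'] [IsScalarTower κ R K] [IsScalarTower κ' R' K']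

/-- PROOF. `i` of the new structure is `IsFractionRing.map` (`IsFractionRing.lift`) of `B.i`, which
is injective (`i_injective`). By `Bch.of_basis` for one basis `ω`: an element of `K'` is `x / y`
with
`x, y ∈ R'`, and by `exists_norm` it is `x' / i d` with `x' = ∑ ω_j i (w_j)`; so it is
`∑ ω_j i (w_j / d)`. If `∑ ω_j i (a_j) = 0`, `a_j ∈ K`, multiply by a common denominator
(`IsLocalization.exist_integer_multiples`) and use `B.inj`. -/
theorem exists_BK [IsDomain R] [IsDomain R'] [IsFractionRing R K] [IsFractionRing R' K']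
    [FiniteDimensional κ κ'] [IsGalois κ κ'] (B : Bch m κ κ' R R') (ω : Basis (Fin m) κ κ') :
    ∃ BK : Bch m κ κ' K K', ∀ a, algebraMap R' K' (B.i a) = BK.i (algebraMap R K a) := by
  have hi := B.i_injective ω
  obtain ⟨iK, hiK⟩ : ∃ iK : K →+* K', ∀ a, iK (algebraMap R K a) = algebraMap R' K' (B.i a) :=
    ⟨IsFractionRing.map hi, fun a => IsLocalization.map_eq _ a⟩
  have hK' : ∀ x : κ', algebraMap κ' K' x = algebraMap R' K' (algebraMap κ' R' x) := fun x =>
    IsScalarTower.algebraMap_apply κ' R' K' x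
  have hcomm : ∀ x : κ, iK (algebraMap κ K x) = algebraMap κ' K' (algebraMap κ κ' x) := by
    intro x
    rw [IsScalarTower.algebraMap_apply κ R K x, hiK, B.comm, hK']
  have hsurj : ∀ z : K', ∃ w : Fin m → K, z = ∑ j, algebraMap κ' K' (ω j) * iK (w j) := by
    intro z
    obtain ⟨x, y, hy, rfl⟩ := IsFractionRing.div_surjective (A := R') z
    obtain ⟨y', d, hd, hyd⟩ := B.exists_norm ω (nonZeroDivisors.ne_zero hy)
    obtain ⟨w, hw⟩ := B.surj ω (x * y')
    refine ⟨fun j => algebraMap R K (w j) / algebraMap R K d, ?_⟩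
    have hd' : algebraMap R' K' (B.i d) ≠ 0 := by
      intro h0
      have h1 := (IsFractionRing.injective R' K') (h0.trans (map_zero _).symm)
      exact hd (hi (h1.trans (map_zero _).symm))
    have hy0 : algebraMap R' K' y ≠ 0 := by
      intro h0
      exact nonZeroDivisors.ne_zero hy
        ((IsFractionRing.injective R' K') (h0.trans (map_zero _).symm))
    have h2 : ∑ j, algebraMap κ' K' (ω j) * iK (algebraMap R K (w j) / algebraMap R K d) =
        algebraMap R' K' (x * y') / algebraMap R' K' (B.i d) := by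
      rw [hw, map_sum, Finset.sum_div]
      refine Finset.sum_congr rfl fun j _ => ?_
      rw [map_div₀, hiK, hiK, map_mul, hK', mul_div_assoc]
    rw [h2, div_eq_div_iff hy0 hd', ← hyd, map_mul, map_mul]
    ring
  have hinj : ∀ w : Fin m → K, ∑ j, algebraMap κ' K' (ω j) * iK (w j) = 0 → w = 0 := by
    intro w hw
    obtain ⟨b, hb⟩ := IsLocalization.exist_integer_multiples_of_finite (nonZeroDivisors R) w
    choose a ha using hb
    have hb0 : algebraMap R K (b : R) ≠ 0 := by
      intro h0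
      exact nonZeroDivisors.ne_zero b.2
        ((IsFractionRing.injective R K) (h0.trans (map_zero _).symm))
    have h3 : ∑ j, algebraMap κ' R' (ω j) * B.i (a j) = 0 := by
      apply IsFractionRing.injective R' K'
      rw [map_zero, map_sum]
      calc ∑ j, algebraMap R' K' (algebraMap κ' R' (ω j) * B.i (a j))
          = ∑ j, iK (algebraMap R K (b : R)) * (algebraMap κ' K' (ω j) * iK (w j)) := by
            refine Finset.sum_congr rfl fun j _ => ?_
            rw [map_mul, ← hK', ← hiK, ha j, Algebra.smul_def, map_mul]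
            ring
        _ = 0 := by rw [← Finset.mul_sum, hw, mul_zero]
    have h4 := B.inj ω a h3
    funext j
    have h5 := ha j
    rw [h4, Pi.zero_apply, map_zero, Algebra.smul_def] at h5
    exact (mul_eq_zero.1 h5.symm).resolve_left hb0
  obtain ⟨BK, hBK⟩ := Bch.of_basis iK hcomm ω hsurj hinj
  exact ⟨BK, fun a => by rw [hBK, hiK]⟩

end FU
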