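import Pool.Agent.Lib.MP_9e8926_ag_G.BCc

/-!
# MP_9e8926_ag, block G: `p^{-e}`-linear maps and base change
-/

set_option autoImplicit false

noncomputable section

namespace FU

open Finset Module IsLocalRing

/-- The `q`-th powers of a basis are a basis.
PROOF. Finite fields are perfect: a relation `∑ λ_j ω_j ^ q = 0` with `λ_j = μ_j ^ q` gives
` (∑ μ_j ω_j) ^ q = 0`, so all `μ_j = 0`. A linearly independent family of `m = dim κ'` elements is
a basis (`basisOfLinearIndependentOfCardEqFinrank`). -/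
theorem exists_basis_pow {m : ℕ} {κ κ' : Type*} [Field κ] [Field κ'] [Finite κ] [Algebra κ κ']
    (p : ℕ) [Fact p.Prime] [CharP κ p] [CharP κ' p] (e : ℕ) (ω : Basis (Fin m) κ κ') :
    ∃ ω' : Basis (Fin m) κ κ', ∀ j, ω' j = ω j ^ p ^ e := by
  classical
  have hp : p.Prime := Fact.out
  have hli : LinearIndependent κ (fun j => ω j ^ p ^ e) := by
    rw [Fintype.linearIndependent_iff]
    intro g hg
    have hs : Function.Surjective (iterateFrobenius κ p e) :=
      Finite.surjective_of_injective (iterateFrobenius κ p e).injective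
    choose μ hμ using fun j => hs (g j)
    have h1 : (∑ j, μ j • ω j) ^ p ^ e = 0 := by
      rw [sum_pow_char_pow p e, ← hg]
      refine Finset.sum_congr rfl fun j _ => ?_
      rw [smul_pow, ← hμ j, iterateFrobenius_def]
    have h2 : ∑ j, μ j • ω j = 0 := pow_eq_zero_iff (pow_ne_zero e hp.ne_zero) |>.1 h1
    intro j
    have h3 := Fintype.linearIndependent_iff.1 ω.linearIndependent μ h2 j
    rw [← hμ j, h3, map_zero]
  have hc : Fintype.card (Fin m) = finrank κ κ' := (finrank_eq_card_basis ω).symm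
  by_cases hm : Nonempty (Fin m)
  · exact ⟨basisOfLinearIndependentOfCardEqFinrank hli hc,
      fun j => by rw [coe_basisOfLinearIndependentOfCardEqFinrank]⟩
  · exact ⟨ω, fun j => (hm ⟨j⟩).elim⟩

variable {m : ℕ} {κ κ' R R' K K' : Type*} [Field κ] [Field κ'] [Finite κ] [Finite κ']
  [Algebra κ κ'] [CommRing R] [CommRing R'] [Algebra κ R] [Algebra κ' R'] [Field K] [Field K']
  [Algebra R K] [Algebra R' K'] [Algebra κ K] [Algebra κ' K'] [IsScalarTower κ R K]
  [IsScalarTower κ' R' K'] (B : Bch m κ κ' R R') (BK : Bch m κ κ' K K')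
  (hBK : ∀ a, algebraMap R' K' (B.i a) = BK.i (algebraMap R K a))
  (ω : Basis (Fin m) κ κ') {p : ℕ} [Fact p.Prime] [CharP κ p] [CharP κ' p] [CharP K' p]
  {r : ℕ} (P : Fin r → Ideal R) (c : Fin r → ℚ)

/-- `Dq` of the extended ideals is the extension of `Dq` (`Ideal.map_pow`,
`Ideal.map_prod`). -/
theorem map_Dq (q : ℕ) : Dq (fun j => (P j).map B.i) c q = (Dq P c q).map B.i := by
  unfold Dq
  have h := map_prod (Ideal.mapHom B.i)
    (fun j => P j ^ ⌈(c j : ℝ) * ((q : ℝ) - 1)⌉₊) (univ : Finset (Fin r))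
  refine Eq.trans ?_ h.symm
  exact Finset.prod_congr rfl fun j _ => (Ideal.map_pow _ _ _).symm

include hBK in
/-- An element of `K'` is in `R'` iff its coordinates are in `R`. -/
theorem mem_range_iff (x : K') :
    x ∈ (algebraMap R' K').range ↔ ∀ j, BK.co ω x j ∈ (algebraMap R K).range := by
  constructor
  · rintro ⟨z, rfl⟩ j
    have h1 : BK.co ω (algebraMap R' K' z) = fun j => algebraMap R K (B.co ω z j) := by
      apply BK.co_unique
      conv_lhs => rw [B.co_spec ω z]
      rw [map_sum]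
      refine Finset.sum_congr rfl fun j _ => ?_
      rw [map_mul, hBK, ← IsScalarTower.algebraMap_apply]
    rw [h1]
    exact ⟨_, rfl⟩
  · intro h
    choose w hw using h
    refine ⟨∑ j, algebraMap κ' R' (ω j) * B.i (w j), ?_⟩
    refine Eq.trans ?_ (BK.co_spec ω x).symm
    rw [map_sum]
    refine Finset.sum_congr rfl fun j _ => ?_
    rw [map_mul, hBK, ← IsScalarTower.algebraMap_apply, hw j]

include hBK ω in
/-- PROOF. Let `q = p ^ e`, `ω' j = ω j ^ q` (`exists_basis_pow`) and
`φ' x = ∑ j, ω_j φ (co ω' x j)`. Additive: `co_add`. Linear: for `a = ∑ ω_l i (a_l)`,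
`x = ∑ ω_j ^ q i (x_j)` and `ω_l ω_j = ∑_t c^t_{lj} ω_t` we have
`a ^ q x = ∑_t ω_t ^ q i (∑_{l,j} (c^t_{lj} a_l) ^ q x_j)`, so
`φ' (a ^ q x) = ∑_t ω_t ∑_{l,j} c^t_{lj} a_l φ (x_j) = a φ' x`. Integrality: if `x Dq' ⊆ R'`, then
for
`a ∈ Dq P c q` the coordinates `x_j a` of `x i a` are in `R` (`mem_range_iff`, `co_mul_i`), so
`φ (x_j) ∈ R`. Values on `K`: `1 = ∑ λ_j ω_j ^ q` with `λ_j = μ_j ^ q`, ` (∑ μ_j ω_j) ^ q = 1`, so
`∑ μ_j ω_j = 1` and `φ' (i x) = ∑ ω_j φ (λ_j x) = ∑ μ_j ω_j φ x = φ x`. -/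
theorem exists_cart_ext {e : ℕ} {φ : K →+ K} (hφ : IsCart p P c e φ) :
    ∃ φ' : K' →+ K', IsCart p (fun j => (P j).map B.i) c e φ' ∧
      ∀ x, φ' (BK.i x) = BK.i (φ x) := by
  have hp : p.Prime := Fact.out
  obtain ⟨ω', hω'⟩ := exists_basis_pow p e ω
  let φ' : K' →+ K' :=
    { toFun := fun x => ∑ j, algebraMap κ' K' (ω j) * BK.i (φ (BK.co ω' x j))
      map_zero' := by
        have h0 : BK.co ω' (0 : K') = 0 := BK.co_unique ω' (by simp)
        simp [h0]
      map_add' := fun x y => by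
        rw [BK.co_add, ← Finset.sum_add_distrib]
        refine Finset.sum_congr rfl fun j _ => ?_
        rw [Pi.add_apply, map_add, map_add, mul_add] }
  have hφ' : ∀ x, φ' x = ∑ j, algebraMap κ' K' (ω j) * BK.i (φ (BK.co ω' x j)) :=
    fun x => rfl
  have hCK' : CharP K' p := inferInstance
  have key : ∀ (y : κ') (x : K),
      φ' (algebraMap κ' K' (y ^ p ^ e) * BK.i x) = algebraMap κ' K' y * BK.i (φ x) := by
    intro y x
    have h1 : BK.co ω' (algebraMap κ' K' (y ^ p ^ e) * BK.i x) =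
        fun j => algebraMap κ K (ω.repr y j) ^ p ^ e * x := by
      apply BK.co_unique
      have h2 : y ^ p ^ e = ∑ j, algebraMap κ κ' (ω.repr y j) ^ p ^ e * ω' j := by
        conv_lhs => rw [← ω.sum_repr y]
        rw [sum_pow_char_pow p e]
        refine Finset.sum_congr rfl fun j _ => ?_
        rw [hω' j, Algebra.smul_def, mul_pow]
      rw [h2, map_sum, Finset.sum_mul]
      refine Finset.sum_congr rfl fun j _ => ?_
      rw [map_mul, map_mul, map_pow, map_pow, BK.comm]
      ring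
    rw [hφ', h1]
    conv_rhs => rw [← ω.sum_repr y]
    rw [map_sum, Finset.sum_mul]
    refine Finset.sum_congr rfl fun j _ => ?_
    rw [hφ.1, map_mul, BK.comm, Algebra.smul_def, map_mul]
    ring
  refine ⟨φ', ⟨?_, ?_⟩, ?_⟩
  · intro a x
    have hmul : ∀ (y : κ') (b : K) (x : K'),
        φ' ((algebraMap κ' K' y * BK.i b) ^ p ^ e * x) =
          (algebraMap κ' K' y * BK.i b) * φ' x := by
      intro y b x
      rw [BK.co_spec ω' x, Finset.mul_sum, map_sum, map_sum, Finset.mul_sum]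
      refine Finset.sum_congr rfl fun j _ => ?_
      have h3 : (algebraMap κ' K' y * BK.i b) ^ p ^ e *
          (algebraMap κ' K' (ω' j) * BK.i (BK.co ω' x j)) =
          algebraMap κ' K' ((y * ω j) ^ p ^ e) * BK.i (b ^ p ^ e * BK.co ω' x j) := by
        rw [hω' j, mul_pow, mul_pow, map_mul, map_mul, map_pow, map_pow, map_pow]
        ring
      have h4 : algebraMap κ' K' (ω' j) * BK.i (BK.co ω' x j) =
          algebraMap κ' K' (ω j ^ p ^ e) * BK.i (BK.co ω' x j) := by
        rw [hω' j]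
      rw [h3, h4, key, key, hφ.1, map_mul, map_mul]
      ring
    conv_lhs => rw [BK.co_spec ω a]
    rw [sum_pow_char_pow p e, Finset.sum_mul, map_sum]
    conv_rhs => rw [BK.co_spec ω a]
    rw [Finset.sum_mul]
    exact Finset.sum_congr rfl fun j _ => hmul _ _ _
  · intro x hx
    have h1 : ∀ j, φ (BK.co ω' x j) ∈ (algebraMap R K).range := by
      intro j
      apply hφ.2
      intro a ha
      have h2 : B.i a ∈ Dq (fun j => (P j).map B.i) c (p ^ e) := by
        rw [map_Dq]
        exact Ideal.mem_map_of_mem _ ha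
      have h3 := (mem_range_iff B BK hBK ω' _).1 (hx _ h2) j
      rwa [hBK, BK.co_mul_i] at h3
    choose w hw using h1
    refine ⟨∑ j, algebraMap κ' R' (ω j) * B.i (w j), ?_⟩
    rw [hφ', map_sum]
    refine Finset.sum_congr rfl fun j _ => ?_
    rw [map_mul, hBK, ← IsScalarTower.algebraMap_apply, hw j]
  · intro x
    have h := key 1 x
    rwa [one_pow, map_one, one_mul, one_mul] at h

include hBK in
/-- The action on `K'` extends the one on `R'` (`hom_ext` for the maps `R' → K'`). -/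
theorem act_algebraMap_R (σ : κ' ≃ₐ[κ] κ') (z : R') :
    BK.act ω σ (algebraMap R' K' z) = algebraMap R' K' (B.act ω σ z) := by
  have h := B.hom_ext ω (f := (BK.act ω σ : K' →+* K').comp (algebraMap R' K'))
    (g := (algebraMap R' K').comp (B.act ω σ : R' →+* R')) ?_ ?_
  · exact DFunLike.congr_fun h z
  · intro a
    simp only [RingHom.coe_comp, Function.comp_apply, RingHom.coe_coe]
    rw [B.act_i, hBK, BK.act_i]
  · intro x
    simp only [RingHom.coe_comp, Function.comp_apply, RingHom.coe_coe]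
    rw [B.act_algebraMap, ← IsScalarTower.algebraMap_apply, ← IsScalarTower.algebraMap_apply,
      BK.act_algebraMap]

include hBK in
/-- Conjugation with the action: `x ↦ act σ (φ (act σ⁻¹ x))` is again `p^{-e}`-linear for the
extended ideals (`act_mem_map`, `map_Dq`, `act_algebraMap_R`). -/
theorem cart_conj {e : ℕ} {φ : K' →+ K'} (hφ : IsCart p (fun j => (P j).map B.i) c e φ)
    (σ : κ' ≃ₐ[κ] κ') :
    ∃ ψ : K' →+ K', IsCart p (fun j => (P j).map B.i) c e ψ ∧
      ∀ x, ψ (BK.act ω σ x) = BK.act ω σ (φ x) := by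
  let s : K' ≃+* K' := BK.act ω σ
  have hs : ∀ z, s (algebraMap R' K' z) = algebraMap R' K' (B.act ω σ z) :=
    act_algebraMap_R B BK hBK ω σ
  have hs' : ∀ z, s.symm (algebraMap R' K' z) = algebraMap R' K' ((B.act ω σ).symm z) := by
    intro z
    rw [RingEquiv.symm_apply_eq, hs, RingEquiv.apply_symm_apply]
  refine ⟨((s : K' →+ K').comp φ).comp (s.symm : K' →+ K'), ⟨?_, ?_⟩, ?_⟩
  · intro a x
    change s (φ (s.symm (a ^ p ^ e * x))) = a * s (φ (s.symm x))
    rw [map_mul, map_pow, hφ.1, map_mul, RingEquiv.apply_symm_apply]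
  · intro x hx
    change s (φ (s.symm x)) ∈ _
    have h1 : φ (s.symm x) ∈ (algebraMap R' K').range := by
      apply hφ.2
      intro a ha
      have h2 : B.act ω σ a ∈ Dq (fun j => (P j).map B.i) c (p ^ e) := by
        rw [map_Dq] at ha ⊢
        exact B.act_mem_map ω σ _ ha
      obtain ⟨w, hw⟩ := hx _ h2
      refine ⟨(B.act ω σ).symm w, ?_⟩
      rw [← hs', hw, map_mul, hs', RingEquiv.symm_apply_apply]
    obtain ⟨w, hw⟩ := h1
    exact ⟨B.act ω σ w, by rw [← hs, hw]⟩
  · intro x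
    change s (φ (s.symm (s x))) = s (φ x)
    rw [RingEquiv.symm_apply_apply]

end FU
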