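import Pool.Agent.Lib.MP_9e8926_ag_U.Ext
import Pool.Agent.Lib.MP_9e8926_ag_U.CalB

/-!
# MP_9e8926_ag, block G: the ring over its `q`-th powers
-/

set_option autoImplicit false

noncomputable section

namespace FU

open IsLocalRing PowerSeries Finset

variable {p : ℕ} [Fact p.Prime] {κ R K : Type*} [Field κ] [CommRing R] [IsDomain R]
  [IsLocalRing R] [Field K] [CharP K p] [Algebra κ R] [Algebra R K] [IsFractionRing R K] {r : ℕ}
  {P : Fin r → Ideal R} {n C0 : ℕ} {E : ℝ}

private theorem ext_Dl_sum (d : Dat p κ K (maximalIdeal R) P n C0 E) (e : ℕ) (l : List (Fin n))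
    {ι : Type*} (s : Finset ι) (f : ι → K) :
    d.Dl e l (∑ x ∈ s, f x) = ∑ x ∈ s, d.Dl e l (f x) := by
  induction l with
  | nil => rfl
  | cons i l ih =>
    change d.Dt i e (d.Dl e l (∑ x ∈ s, f x)) = ∑ x ∈ s, d.Dt i e (d.Dl e l (f x))
    rw [ih, map_sum]

/-- A strongly `F`-regular local ring contains the `q`-th roots of its elements. -/
theorem root_mem_SFR {c : Fin r → ℚ} (hS : SFR p K (maximalIdeal R) P c ⊤ 0) (e : ℕ) {x : K}
    (hx : x ^ p ^ e ∈ (algebraMap R K).range) : x ∈ (algebraMap R K).range := by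
  obtain ⟨e0, he0, hsp⟩ := exists_split hS
  obtain ⟨ψ, hψ, h1⟩ := hsp e
  refine root_mem hψ h1 (x := x) ?_
  have h2 : e ≤ e * e0 := Nat.le_mul_of_pos_right e he0
  obtain ⟨j, hj⟩ := Nat.exists_eq_add_of_le h2
  rw [hj, pow_add, pow_mul]
  exact pow_mem hx _

/-- The expansion of `H ^ (n q) z` in the monomials in `y` over the `q`-th powers. -/
theorem Dat.exists_repr (d : Dat p κ K (maximalIdeal R) P n C0 E) {c : Fin r → ℚ}
    (hS : SFR p K (maximalIdeal R) P c ⊤ 0) (e : ℕ) (z : R) :
    ∃ w : (Fin n → Fin (p ^ e)) → R,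
      d.H ^ (n * p ^ e) * z = ∑ α, (∏ i, d.y i ^ (α i : ℕ)) * w α ^ p ^ e := by
  have hq : 0 < p ^ e := pow_pos (Fact.out : p.Prime).pos e
  have hinj : Function.Injective (algebraMap R K) := IsFractionRing.injective R K
  have hb : ∀ i, d.Stab i (⊤ : Ideal R) := fun i k a _ => Submodule.mem_top
  obtain ⟨u, hu⟩ := d.basis e (algebraMap R K z)
  have hw : ∀ α, ∃ w : R, algebraMap R K w = algebraMap R K d.H ^ n * u α := by
    intro α
    have h1 : (∏ i, d.y i ^ (p ^ e - 1 - (α i : ℕ))) * z ∈ (⊤ : Ideal R) := Submodule.mem_top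
    obtain ⟨a', -, h2⟩ := d.Dl_mem hb e (List.finRange n) h1
    have h3 : d.Dl e (List.finRange n)
        (algebraMap R K ((∏ i, d.y i ^ (p ^ e - 1 - (α i : ℕ))) * z)) = u α ^ p ^ e := by
      rw [map_mul, hu, Finset.mul_sum, ext_Dl_sum, Finset.sum_eq_single α]
      · have h4 : algebraMap R K (∏ i, d.y i ^ (p ^ e - 1 - (α i : ℕ))) *
            ((∏ i, algebraMap R K (d.y i) ^ (α i : ℕ)) * u α ^ p ^ e) =
            (∏ i, algebraMap R K (d.y i) ^ (p ^ e - 1 - (α i : ℕ) + (α i : ℕ))) *
              u α ^ p ^ e := by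
          rw [← mul_assoc, map_prod, ← Finset.prod_mul_distrib]
          congr 1
          refine Finset.prod_congr rfl fun i _ => ?_
          rw [map_pow, pow_add]
        rw [h4, d.Dl_monomial, if_pos]
        · intro i
          have := (α i).2
          omega
        · intro i
          have := (α i).2
          omega
      · intro β _ hβ
        have h4 : algebraMap R K (∏ i, d.y i ^ (p ^ e - 1 - (α i : ℕ))) *
            ((∏ i, algebraMap R K (d.y i) ^ (β i : ℕ)) * u β ^ p ^ e) =
            (∏ i, algebraMap R K (d.y i) ^ (p ^ e - 1 - (α i : ℕ) + (β i : ℕ))) *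
              u β ^ p ^ e := by
          rw [← mul_assoc, map_prod, ← Finset.prod_mul_distrib]
          congr 1
          refine Finset.prod_congr rfl fun i _ => ?_
          rw [map_pow, pow_add]
        rw [h4, d.Dl_monomial, if_neg]
        · intro h
          apply hβ
          funext i
          have h5 := h i
          have h6 := (α i).2
          apply Fin.ext
          omega
        · intro i
          have h5 := (α i).2
          have h6 := (β i).2
          omega
      · intro h
        exact absurd (Finset.mem_univ _) h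
    have h4 : algebraMap R K a' = (algebraMap R K d.H ^ n * u α) ^ p ^ e := by
      rw [h2, h3, List.length_finRange, mul_pow, ← pow_mul]
    obtain ⟨w, hw⟩ := root_mem_SFR hS e (x := algebraMap R K d.H ^ n * u α) ⟨a', h4⟩
    exact ⟨w, hw⟩
  choose w hw using hw
  refine ⟨w, hinj ?_⟩
  rw [map_mul, map_pow, hu, Finset.mul_sum, map_sum]
  refine Finset.sum_congr rfl fun α _ => ?_
  rw [map_mul, map_pow, hw, mul_pow, ← pow_mul, map_prod]
  simp only [map_pow]
  ring

end FU
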