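import Pool.Agent.Lib.MP_9e8926_ag_G.BCc

/-!
# MP_9e8926_ag, block G: the base change of a strongly `F`-regular local ring is a domain
-/

set_option autoImplicit false

noncomputable section

namespace FU

open Finset Module IsLocalRing

/-- Part (a). -/
private theorem gdom_closed {p : ℕ} [Fact p.Prime] {R K : Type*} [CommRing R] [IsDomain R]
    [IsLocalRing R] [Field K] [Algebra R K] [IsFractionRing R K] {r : ℕ} {P : Fin r → Ideal R}
    {c : Fin r → ℚ} (hS : SFR p K (maximalIdeal R) P c ⊤ 0) {x : K} {d : R} (hd : d ≠ 0)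
    (h : ∀ k : ℕ, ∃ s : R, algebraMap R K s = algebraMap R K d * x ^ k) :
    ∃ s : R, algebraMap R K s = x := by
  obtain ⟨e, -, φ, hφ, a, ha⟩ := exists_cart_one hS hd
  obtain ⟨s, hs⟩ := h (p ^ e)
  obtain ⟨u, hu⟩ := hφ.map_R (a * s)
  refine ⟨u, hu.trans ?_⟩
  have h1 : algebraMap R K (a * s) = x ^ p ^ e * algebraMap R K (d * a) := by
    rw [map_mul, hs, map_mul]
    ring
  rw [h1, hφ.1, ha, mul_one]

/-- Part (b). -/
private theorem gdom_den {κ R K : Type*} [Field κ] [CommRing R] [IsDomain R] [Field K]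
    [Algebra κ R] [Algebra R K] [Algebra κ K] [IsScalarTower κ R K] [IsFractionRing R K] {x : K}
    (hx : IsAlgebraic κ x) : ∃ d : R, d ≠ 0 ∧
      ∀ k : ℕ, ∃ s : R, algebraMap R K s = algebraMap R K d * x ^ k := by
  have hint : IsIntegral κ x := hx.isIntegral
  obtain ⟨u, v, hv, rfl⟩ := IsFractionRing.div_surjective (A := R) x
  have hv0 : v ≠ 0 := nonZeroDivisors.ne_zero hv
  have hv1 : algebraMap R K v ≠ 0 := fun h =>
    hv0 (IsFractionRing.injective R K (h.trans (map_zero _).symm))
  set x : K := algebraMap R K u / algebraMap R K v with hxd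
  set f := minpoly κ x with hf
  have hmon : f.Monic := minpoly.monic hint
  refine ⟨v ^ f.natDegree, pow_ne_zero _ hv0, fun k => ?_⟩
  have hlt : (Polynomial.X ^ k %ₘ f).natDegree < f.natDegree :=
    Polynomial.natDegree_modByMonic_lt _ hmon (minpoly.ne_one κ x)
  have h1 : x ^ k = ∑ i ∈ Finset.range f.natDegree, (Polynomial.X ^ k %ₘ f).coeff i • x ^ i := by
    rw [← Polynomial.aeval_eq_sum_range' hlt,
      Polynomial.aeval_modByMonic_eq_self_of_root (minpoly.aeval κ x), map_pow,
      Polynomial.aeval_X]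
  refine ⟨∑ i ∈ Finset.range f.natDegree,
    algebraMap κ R ((Polynomial.X ^ k %ₘ f).coeff i) * (u ^ i * v ^ (f.natDegree - i)), ?_⟩
  rw [h1, map_sum, Finset.mul_sum]
  refine Finset.sum_congr rfl fun i hi => ?_
  have hi' : i ≤ f.natDegree := (Finset.mem_range.1 hi).le
  rw [Algebra.smul_def, map_mul, ← IsScalarTower.algebraMap_apply κ R K, map_mul, map_pow,
    map_pow, map_pow, hxd, div_pow]
  have h2 : algebraMap R K v ^ f.natDegree =
      algebraMap R K v ^ (f.natDegree - i) * algebraMap R K v ^ i := by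
    rw [← pow_add, Nat.sub_add_cancel hi']
  rw [h2]
  field_simp

/-- PROOF. (a) If `x ∈ K`, `d ≠ 0` in `R` and `d x ^ k ∈ R` for all `k`, then `x ∈ R`: take `e`,
`φ`,
`a` from `exists_cart_one` for `d`; then `x = x φ (d a) = φ (x ^ q (d a)) = φ (a (d x ^ q))`, and
`a (d x ^ q)` is in `R`, so `x ∈ R` (`IsCart.map_R`).
(b) Let `x` be algebraic over `κ`, of degree `s`, `x = u / v`; all `x ^ k` are `κ`-linear
combinations of `1, …, x ^ (s - 1)` (reduce modulo the monic polynomial `minpoly κ x`,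
`Polynomial.modByMonic`), so `d = v ^ s` is good for (a). So `x ∈ R`.
(c) There is `c0 ∈ κ` with `x - c0 ∈ 𝔪` (`hres`). If `y = x - c0 ≠ 0`: `y` is algebraic over `κ`,
so `y⁻¹ ∈ κ[y]` (`IsAlgebraic.inv`, apply (b) to `y⁻¹`: `y⁻¹ ∈ R`), so `y` is a unit of `R`, a
contradiction. -/
theorem alg_of_SFR {p : ℕ} [Fact p.Prime] {κ R K : Type*} [Field κ] [CommRing R] [IsDomain R]
    [IsLocalRing R] [Field K] [Algebra κ R] [Algebra R K] [Algebra κ K] [IsScalarTower κ R K]
    [IsFractionRing R K] {r : ℕ} {P : Fin r → Ideal R} {c : Fin r → ℚ}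
    (hS : SFR p K (maximalIdeal R) P c ⊤ 0)
    (hres : ∀ a : R, ∃ t : κ, a - algebraMap κ R t ∈ maximalIdeal R) {x : K}
    (hx : IsAlgebraic κ x) : ∃ t : κ, x = algebraMap κ K t := by
  have hB : ∀ y : K, IsAlgebraic κ y → ∃ s : R, algebraMap R K s = y := fun y hy => by
    obtain ⟨d, hd, h⟩ := gdom_den (R := R) hy
    exact gdom_closed hS hd h
  obtain ⟨s, hs⟩ := hB x hx
  obtain ⟨t, ht⟩ := hres s
  refine ⟨t, ?_⟩
  by_contra hne
  have hy : x - algebraMap κ K t ≠ 0 := sub_ne_zero.2 hne
  obtain ⟨v, hv⟩ := hB _ (hx.sub (isAlgebraic_algebraMap t)).inv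
  have e1 : algebraMap R K (s - algebraMap κ R t) = x - algebraMap κ K t := by
    rw [map_sub, hs, ← IsScalarTower.algebraMap_apply κ R K]
  have e2 : (s - algebraMap κ R t) * v = 1 := by
    apply IsFractionRing.injective R K
    rw [map_mul, e1, hv, map_one, mul_inv_cancel₀ hy]
  exact (mem_maximalIdeal _).1 ht (IsUnit.of_mul_eq_one v e2)

private theorem gdom_lift {κ K : Type*} [Field κ] [Field K] [Algebra κ K] {f : Polynomial κ}
    (hf : f.Monic) (halg : ∀ x : K, IsAlgebraic κ x → ∃ t : κ, x = algebraMap κ K t)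
    {g : Polynomial K} (hg : g.Monic) (hd : g ∣ f.map (algebraMap κ K)) :
    ∃ q : Polynomial κ, q.map (algebraMap κ K) = g ∧ q.natDegree = g.natDegree ∧ q.Monic := by
  have h1 := integralClosure.mem_lifts_of_monic_of_dvd_map K hf hg hd
  refine Polynomial.lifts_and_natDegree_eq_and_monic ?_ hg
  rw [Polynomial.lifts_iff_coeff_lifts] at h1 ⊢
  intro n
  obtain ⟨y, hy⟩ := h1 n
  have h2 : IsIntegral κ (g.coeff n) := by
    rw [← hy]
    exact y.2
  obtain ⟨t, ht⟩ := halg _ h2.isAlgebraic
  exact ⟨t, ht.symm⟩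

private theorem gdom_irr {κ K : Type*} [Field κ] [Field K] [Algebra κ K] {f : Polynomial κ}
    (hf : f.Monic) (hfi : Irreducible f)
    (halg : ∀ x : K, IsAlgebraic κ x → ∃ t : κ, x = algebraMap κ K t) :
    Irreducible (f.map (algebraMap κ K)) := by
  rw [(hf.map (algebraMap κ K)).irreducible_iff_natDegree]
  constructor
  · intro h
    have h1 := congrArg Polynomial.natDegree h
    rw [hf.natDegree_map, Polynomial.natDegree_one] at h1
    exact absurd h1 hfi.natDegree_pos.ne'
  · intro g h hg hh hgh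
    obtain ⟨g0, hg0, hgd, hgm⟩ := gdom_lift hf halg hg ⟨h, hgh.symm⟩
    obtain ⟨h0, hh0, hhd, hhm⟩ := gdom_lift hf halg hh ⟨g, by rw [← hgh, mul_comm]⟩
    have h1 : g0 * h0 = f := by
      apply Polynomial.map_injective _ (algebraMap κ K).injective
      rw [Polynomial.map_mul, hg0, hh0, hgh]
    have h2 := (hf.irreducible_iff_natDegree.1 hfi).2 g0 h0 hgm hhm h1
    rw [hgd, hhd] at h2
    exact h2

private theorem gdom_poly {m : ℕ} {R : Type*} [CommRing R] (hm : 0 < m) (w : Fin m → R) :
    ∃ S : Polynomial R, S.natDegree < m ∧ ∀ j : Fin m, S.coeff j = w j := by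
  classical
  have hc : ∀ n : ℕ, (∑ j : Fin m, Polynomial.monomial (j : ℕ) (w j)).coeff n =
      ∑ j : Fin m, if (j : ℕ) = n then w j else 0 := by
    intro n
    rw [Polynomial.finsetSum_coeff]
    exact Finset.sum_congr rfl fun j _ => by rw [Polynomial.coeff_monomial]
  refine ⟨∑ j : Fin m, Polynomial.monomial (j : ℕ) (w j), ?_, fun j => ?_⟩
  · refine lt_of_le_of_lt (Polynomial.natDegree_le_iff_coeff_eq_zero.2 fun n hn => ?_)
      (Nat.sub_lt hm one_pos)
    rw [hc]
    refine Finset.sum_eq_zero fun j _ => ?_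
    have hj := j.2
    rw [if_neg (by omega)]
  · rw [hc, Finset.sum_eq_single j]
    · rw [if_pos rfl]
    · intro l _ hl
      rw [if_neg fun h => hl (Fin.ext h)]
    · intro h
      exact (h (Finset.mem_univ j)).elim

/-- PROOF. Let `θ` be a primitive element of `κ' / κ` (`Field.exists_primitive_element`, finite
fields are perfect) and `f = minpoly κ θ`, of degree `m` (`m` is the dimension, by `ω`); the powers
`1, θ, …, θ ^ (m - 1)` are a basis `ω'`, `Basis (Fin m) κ κ'` (`PowerBasis.basis`, reindexed).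
(a) `f_K = f.map` is irreducible over `K`: it is monic of degree `m ≥ 1`, and if `g` is a monic
factor then the coefficients of `g` are integral over `κ`
(`integralClosure.mem_lifts_of_monic_of_dvd_map` or `Polynomial.isIntegral_coeff_of_dvd`), so by
`halg` they are in `κ`, and `g` is a factor of `f` in `κ[X]` (`Polynomial.map_dvd_map`), `f` is
irreducible.
(b) Let `z w = 0` in `R'`, `z = ∑ θ ^ j i (z_j)`, `w = ∑ θ ^ j i (w_j)` (`B.surj ω'`), and
`Z = ∑ z_j X ^ j`, `W = ∑ w_j X ^ j` in `R[X]`, of degree `< m`. Divide `Z W = f_R Q + S`, `deg S <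
m`
(`f_R = f.map` is monic). The evaluation `R[X] → R'` (`Polynomial.eval₂ B.i θ`) kills `Z W` and
`f_R`, so it kills `S`, and `S = 0` by `B.inj ω'`. So `f_K` divides `Z_K W_K`; it is prime, so it
divides `Z_K`, say, and `Z_K = 0` for degree reasons, so `z = 0`. `R'` is not zero: `i` is
injective (`B.i_injective ω`). -/
theorem isDomain_of_Bch {m : ℕ} {κ κ' R R' K : Type*} [Field κ] [Field κ'] [Finite κ] [Finite κ']
    [Algebra κ κ'] [CommRing R] [CommRing R'] [Algebra κ R] [Algebra κ' R'] [Field K]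
    [Algebra R K] [Algebra κ K] [IsScalarTower κ R K] [IsDomain R] [IsFractionRing R K]
    (B : Bch m κ κ' R R') (ω : Basis (Fin m) κ κ')
    (halg : ∀ x : K, IsAlgebraic κ x → ∃ t : κ, x = algebraMap κ K t) : IsDomain R' := by
  have _ : FiniteDimensional κ κ' := Module.Finite.of_basis ω
  have hm : Module.finrank κ κ' = m := by rw [finrank_eq_card_basis ω, Fintype.card_fin]
  let pb : PowerBasis κ κ' := Field.powerBasisOfFiniteOfSeparable κ κ'
  have hdim : pb.dim = m := by rw [← pb.finrank, hm]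
  let ω' : Basis (Fin m) κ κ' := pb.basis.reindex (finCongr hdim)
  have hω' : ∀ j, ω' j = pb.gen ^ (j : ℕ) := by
    intro j
    rw [Basis.reindex_apply, pb.basis_eq_pow]
    rfl
  set f := minpoly κ pb.gen with hf
  have hfm : f.Monic := minpoly.monic (pb.isIntegral_gen)
  have hfd : f.natDegree = m := by rw [hf, pb.natDegree_minpoly, hdim]
  have hfi : Irreducible f := minpoly.irreducible pb.isIntegral_gen
  have hm0 : 0 < m := by rw [← hfd]; exact hfi.natDegree_pos
  have hK : Irreducible (f.map (algebraMap κ K)) := gdom_irr hfm hfi halg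
  set θ : R' := algebraMap κ' R' pb.gen with hθ
  have hev : ∀ S : Polynomial R, S.natDegree < m → Polynomial.eval₂ B.i θ S =
      ∑ j : Fin m, algebraMap κ' R' (ω' j) * B.i (S.coeff j) := by
    intro S hS
    rw [Polynomial.eval₂_eq_sum_range' B.i hS, Finset.sum_range]
    refine Finset.sum_congr rfl fun j _ => ?_
    rw [hω', map_pow, mul_comm]
  have hinj : ∀ S : Polynomial R, S.natDegree < m → Polynomial.eval₂ B.i θ S = 0 → S = 0 := by
    intro S hS h0
    rw [hev S hS] at h0
    have h1 := B.inj ω' _ h0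
    ext j
    rw [Polynomial.coeff_zero]
    rcases lt_or_ge j m with hj | hj
    · exact congrFun h1 ⟨j, hj⟩
    · exact Polynomial.coeff_eq_zero_of_natDegree_lt (lt_of_lt_of_le hS hj)
  have hsurj : ∀ z : R', ∃ S : Polynomial R, S.natDegree < m ∧ Polynomial.eval₂ B.i θ S = z := by
    intro z
    obtain ⟨w, hw⟩ := B.surj ω' z
    obtain ⟨S, hS, hc⟩ := gdom_poly hm0 w
    refine ⟨S, hS, ?_⟩
    rw [hev S hS, hw]
    exact Finset.sum_congr rfl fun j _ => by rw [hc j]
  have hfR : Polynomial.eval₂ B.i θ (f.map (algebraMap κ R)) = 0 := by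
    rw [Polynomial.eval₂_map]
    have h1 : B.i.comp (algebraMap κ R) = (algebraMap κ' R').comp (algebraMap κ κ') :=
      RingHom.ext fun t => B.comm t
    rw [h1, hθ, ← Polynomial.hom_eval₂]
    have h2 : Polynomial.eval₂ (algebraMap κ κ') pb.gen f = 0 := minpoly.aeval κ pb.gen
    rw [h2, map_zero]
  have hfRm : (f.map (algebraMap κ R)).Monic := hfm.map _
  have hfRd : (f.map (algebraMap κ R)).natDegree = m := by rw [hfm.natDegree_map, hfd]
  have hne1 : f.map (algebraMap κ R) ≠ 1 := by
    intro h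
    rw [h, Polynomial.natDegree_one] at hfRd
    omega
  have hfK : (f.map (algebraMap κ R)).map (algebraMap R K) = f.map (algebraMap κ K) := by
    rw [Polynomial.map_map, ← IsScalarTower.algebraMap_eq]
  have hzero : ∀ Z : Polynomial R, Z.natDegree < m →
      f.map (algebraMap κ K) ∣ Z.map (algebraMap R K) → Z = 0 := by
    intro Z hZ hd
    have h1 := Polynomial.eq_zero_of_dvd_of_natDegree_lt hd (by
      rw [hfm.natDegree_map, hfd]
      exact lt_of_le_of_lt Polynomial.natDegree_map_le hZ)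
    exact (Polynomial.map_eq_zero_iff (IsFractionRing.injective R K)).1 h1
  have hnt : Nontrivial R' := by
    refine ⟨⟨0, 1, fun h => ?_⟩⟩
    have h1 : B.i 0 = B.i 1 := by rw [map_zero, map_one, h]
    exact zero_ne_one (B.i_injective ω h1)
  have hnz : NoZeroDivisors R' := by
    refine ⟨fun {z w} hzw => ?_⟩
    obtain ⟨Z, hZ, rfl⟩ := hsurj z
    obtain ⟨W, hW, rfl⟩ := hsurj w
    rw [← Polynomial.eval₂_mul] at hzw
    have h1 : Polynomial.eval₂ B.i θ ((Z * W) %ₘ f.map (algebraMap κ R)) = 0 := by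
      have h2 := congrArg (Polynomial.eval₂ B.i θ)
        (Polynomial.modByMonic_add_div (Z * W) (f.map (algebraMap κ R)))
      rw [Polynomial.eval₂_add, Polynomial.eval₂_mul, hfR, zero_mul, add_zero, hzw] at h2
      exact h2
    have h3 := hinj _ (by
      rw [← hfRd]
      exact Polynomial.natDegree_modByMonic_lt _ hfRm hne1) h1
    have h4 : f.map (algebraMap κ K) ∣ Z.map (algebraMap R K) * W.map (algebraMap R K) := by
      rw [← hfK, ← Polynomial.map_mul]
      exact Polynomial.map_dvd _ ((Polynomial.modByMonic_eq_zero_iff_dvd hfRm).1 h3)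
    rcases (hK.prime.dvd_or_dvd h4) with h | h
    · left
      rw [hzero Z hZ h, Polynomial.eval₂_zero]
    · right
      rw [hzero W hW h, Polynomial.eval₂_zero]
  exact NoZeroDivisors.to_isDomain R'

end FU
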