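import Pool.Agent.Lib.MP_9e8926_ag_G.InstA
import Pool.Agent.Lib.MP_9e8926_ag_U.ALoc

/-!
# MP_9e8926_ag, block G: base change of the local ring at the origin
-/

set_option autoImplicit false

noncomputable section

namespace FU

open Finset Module MvPolynomial

variable {κ κ' : Type} [Field κ] [Field κ'] {N : ℕ} (j : κ →+* κ')
  (J : Ideal (MvPolynomial (Fin N) κ))

private theorem instb_zero {k : Type} [Field k] (I : Ideal (MvPolynomial (Fin N) k))
    {f : MvPolynomial (Fin N) k} (hf : f ∈ I) : toO k I f = 0 := by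
  show algebraMap (MvPolynomial (Fin N) k ⧸ I) (Oc k I) (Ideal.Quotient.mk I f) = 0
  rw [Ideal.Quotient.eq_zero_iff_mem.2 hf, map_zero]

/-- PROOF. `toO κ' (bc j J) ∘ map j` kills `J`, so it factors through `MvPolynomial _ κ ⧸ J`
(`Ideal.Quotient.lift`), and it maps the elements of `nv κ J` to units (`isUnit_toO`), so it
extends to the localization (`IsLocalization.lift`). -/
theorem exists_iO : ∃ i : Oc κ J →+* Oc κ' (bc j J), ∀ f : MvPolynomial (Fin N) κ,
    i (toO κ J f) = toO κ' (bc j J) (MvPolynomial.map j f) := by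
  obtain ⟨g, hg⟩ : ∃ g : MvPolynomial (Fin N) κ →+* Oc κ' (bc j J),
      ∀ f, g f = toO κ' (bc j J) (MvPolynomial.map j f) :=
    ⟨(toO κ' (bc j J)).comp (MvPolynomial.map j), fun f => rfl⟩
  have hJ : ∀ f ∈ J, g f = 0 := fun f hf => by
    rw [hg]
    exact instb_zero _ (Ideal.mem_map_of_mem _ hf)
  have hu : ∀ y : nv κ J, IsUnit (Ideal.Quotient.lift J g hJ (y : MvPolynomial (Fin N) κ ⧸ J)) := by
    rintro ⟨_, u, hu, rfl⟩
    show IsUnit (Ideal.Quotient.lift J g hJ (Ideal.Quotient.mk J u))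
    rw [Ideal.Quotient.lift_mk, hg]
    refine isUnit_toO _ _ ?_
    have hu' : IsUnit (constantCoeff u) := hu
    rw [constantCoeff_map]
    exact fun h0 => hu'.ne_zero ((map_eq_zero j).1 h0)
  refine ⟨IsLocalization.lift (M := nv κ J) (S := Oc κ J) (P := Oc κ' (bc j J)) hu, fun f => ?_⟩
  have h1 := IsLocalization.lift_eq (M := nv κ J) (S := Oc κ J) (P := Oc κ' (bc j J)) hu
    (Ideal.Quotient.mk J f)
  rw [Ideal.Quotient.lift_mk, hg] at h1
  exact h1

/-- The map of the local rings. -/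
def iO : Oc κ J →+* Oc κ' (bc j J) := (exists_iO j J).choose

theorem iO_toO (f : MvPolynomial (Fin N) κ) :
    iO j J (toO κ J f) = toO κ' (bc j J) (MvPolynomial.map j f) := (exists_iO j J).choose_spec f

private theorem instb_comp : (iO j J).comp (toO κ J) =
    (toO κ' (bc j J)).comp (MvPolynomial.map j) :=
  RingHom.ext fun f => iO_toO j J f

theorem map_mX : (mX N κ).map (MvPolynomial.map j) = mX N κ' := by
  unfold mX
  rw [Ideal.map_span, ← Set.range_comp]
  congr 2
  funext l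
  exact MvPolynomial.map_X j l

theorem map_mO : (mO κ J).map (iO j J) = mO κ' (bc j J) := by
  unfold mO
  rw [Ideal.map_map, instb_comp, ← Ideal.map_map, map_mX]

theorem map_map_toO (I : Ideal (MvPolynomial (Fin N) κ)) :
    (I.map (toO κ J)).map (iO j J) = (bc j I).map (toO κ' (bc j J)) := by
  rw [Ideal.map_map, instb_comp, ← Ideal.map_map]

private theorem instb_alg {k : Type} [Field k] (I : Ideal (MvPolynomial (Fin N) k)) (x : k) :
    toO k I (algebraMap k (MvPolynomial (Fin N) k) x) = algebraMap k (Oc k I) x := by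
  rw [algebraMap_Oc, MvPolynomial.algebraMap_eq]

/-- Common denominators. -/
private theorem instb_den {k : Type} [Field k] (I : Ideal (MvPolynomial (Fin N) k)) {m : ℕ}
    (w : Fin m → Oc k I) : ∃ u : MvPolynomial (Fin N) k, constantCoeff u = 1 ∧
      ∃ F : Fin m → MvPolynomial (Fin N) k, ∀ l, w l * toO k I u = toO k I (F l) := by
  choose f u hu h using fun l => exists_toO I (w l)
  refine ⟨∏ l, u l, ?_, fun l => f l * ∏ i ∈ univ.erase l, u i, fun l => ?_⟩
  · rw [map_prod]
    exact Finset.prod_eq_one fun l _ => hu l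
  · rw [← Finset.mul_prod_erase univ u (Finset.mem_univ l), map_mul, map_mul, ← mul_assoc, h l]

private theorem instb_surj [Finite κ] [Finite κ'] {m : ℕ} [Algebra κ κ']
    (ω : Basis (Fin m) κ κ') (z : Oc κ' (bc (algebraMap κ κ') J)) :
    ∃ w : Fin m → Oc κ J, z = ∑ l, algebraMap κ' (Oc κ' (bc (algebraMap κ κ') J)) (ω l) *
      iO (algebraMap κ κ') J (w l) := by
  obtain ⟨BP, hBP⟩ := exists_polyBch ω (N := N)
  obtain ⟨f, u, hu, hz⟩ := exists_toO _ z
  obtain ⟨u', d, hd, hud⟩ := exists_norm_poly ω hu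
  obtain ⟨w, hw⟩ := BP.surj ω (f * u')
  have hdu : IsUnit (toO κ J d) := isUnit_toO J d (by rw [hd]; exact one_ne_zero)
  obtain ⟨v, hv⟩ := hdu.exists_right_inv
  refine ⟨fun l => toO κ J (w l) * v, ?_⟩
  have h1 : z * iO (algebraMap κ κ') J (toO κ J d) =
      toO κ' (bc (algebraMap κ κ') J) (f * u') := by
    rw [iO_toO, ← hud, map_mul, ← mul_assoc, hz, map_mul]
  have h2 : z = toO κ' (bc (algebraMap κ κ') J) (f * u') * iO (algebraMap κ κ') J v := by
    rw [← h1, mul_assoc, ← map_mul, hv, map_one, mul_one]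
  rw [h2, hw, map_sum, Finset.sum_mul]
  refine Finset.sum_congr rfl fun l _ => ?_
  rw [map_mul, map_mul, instb_alg, hBP, iO_toO, mul_assoc]

private theorem instb_inj [Finite κ] [Finite κ'] {m : ℕ} [Algebra κ κ']
    (ω : Basis (Fin m) κ κ') (w : Fin m → Oc κ J)
    (h : ∑ l, algebraMap κ' (Oc κ' (bc (algebraMap κ κ') J)) (ω l) *
      iO (algebraMap κ κ') J (w l) = 0) : w = 0 := by
  obtain ⟨BP, hBP⟩ := exists_polyBch ω (N := N)
  obtain ⟨u, hu, F, hF⟩ := instb_den J w
  have h1 : toO κ' (bc (algebraMap κ κ') J)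
      (∑ l, algebraMap κ' (MvPolynomial (Fin N) κ') (ω l) * BP.i (F l)) = 0 := by
    have h2 : (∑ l, algebraMap κ' (Oc κ' (bc (algebraMap κ κ') J)) (ω l) *
        iO (algebraMap κ κ') J (w l)) * iO (algebraMap κ κ') J (toO κ J u) = 0 := by
      rw [h, zero_mul]
    rw [← h2, map_sum, Finset.sum_mul]
    refine Finset.sum_congr rfl fun l _ => ?_
    rw [map_mul, instb_alg, hBP, ← iO_toO, ← hF l, map_mul, mul_assoc]
  obtain ⟨u1, hu1, h3⟩ := (toO_eq_zero _ _).1 h1
  obtain ⟨u', d, hd, hud⟩ := exists_norm_poly ω hu1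
  have h4 : ∑ l, algebraMap κ' (MvPolynomial (Fin N) κ') (ω l) * BP.i (d * F l) ∈
      J.map BP.i := by
    have h5 := (bc (algebraMap κ κ') J).mul_mem_left u' h3
    rw [← mul_assoc, mul_comm u' u1, hud, Finset.mul_sum] at h5
    rw [hBP]
    rw [hBP] at h5
    convert h5 using 2 with l _
    rw [map_mul]
    ring
  have h6 := (BP.mem_map_iff ω J _).1 h4
  rw [BP.co_unique ω (w := fun l => d * F l) rfl] at h6
  funext l
  have h7 : toO κ J (F l) = 0 := (toO_eq_zero J _).2 ⟨d, hd, h6 l⟩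
  have h8 : IsUnit (toO κ J u) := isUnit_toO J u (by rw [hu]; exact one_ne_zero)
  have h9 : w l * toO κ J u = 0 := by rw [hF l, h7]
  exact (h8.mul_left_eq_zero).1 h9

/-- PROOF. `Bch.of_basis` for `iO` and `ω`; `comm` is `algebraMap_Oc`. Let `O = Oc κ J`,
`O' = Oc κ' (bc j J)`, `BP` the structure for the polynomial rings (`exists_polyBch`).
Surjectivity: `z * toO u = toO f` with `constantCoeff u = 1` (`exists_toO`), `u u' = map d`,
`constantCoeff d = 1` (`exists_norm_poly`); so `z * toO (map d) = toO (f u')`,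
`f u' = ∑ C (ω_j) * map f_j` (`BP.surj`), and `toO κ J d` is a unit of `O` (`isUnit_toO`) with
inverse `v`: `z = ∑ ω_j iO (toO f_j * v)`.
Injectivity: let `∑ ω_j iO (w_j) = 0`; a common denominator `u` of the `w_j`: `w_j * toO u = toO
f_j`,
`constantCoeff u = 1` (the product of the denominators of `exists_toO`). Then
`toO (∑ C ω_j * map f_j) = 0`, so `u1 * ∑ C ω_j * map f_j ∈ bc j J` with `constantCoeff u1 = 1`
(`toO_eq_zero`), and with `u1 u1' = map d` also `∑ C ω_j * map (d f_j) ∈ bc j J`. By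
`Bch.mem_map_iff` (and `co_unique`) `d f_j ∈ J`, so `toO f_j = 0` (`toO_eq_zero`) and `w_j = 0`
(`toO u` is a unit). -/
theorem exists_BchO [Finite κ] [Finite κ'] {m : ℕ} [Algebra κ κ'] (hj : algebraMap κ κ' = j)
    (ω : Basis (Fin m) κ κ') :
    ∃ B : Bch m κ κ' (Oc κ J) (Oc κ' (bc j J)), B.i = iO j J := by
  subst hj
  refine Bch.of_basis (A := Oc κ J) (A' := Oc κ' (bc (algebraMap κ κ') J))
    (iO (algebraMap κ κ') J) (fun x => ?_) ω (instb_surj J ω) (instb_inj J ω)
  rw [algebraMap_Oc, iO_toO, MvPolynomial.map_C, algebraMap_Oc]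

end FU
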