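import Pool.Agent.Lib.MP_9e8926_ag_G.Main
import Pool.Agent.Lib.MP_9e8926_ag_G.GDom
import Pool.Agent.Lib.MP_9e8926_ag_G.InstB
import Pool.Agent.Lib.MP_9e8926_ag_U.AFinA

/-!
# MP_9e8926_ag, block G: extension of the residue field of a closed point
-/

set_option autoImplicit false

noncomputable section

namespace FU

open Finset Module MvPolynomial IsLocalRing

private theorem fin_aeval {N n : ℕ} {A B : Type} [CommRing A] [CommRing B] (φ : A →+* B)
    (y : Fin n → MvPolynomial (Fin N) A) (a : MvPolynomial (Fin n) A) :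
    MvPolynomial.map φ (aeval y a) =
      aeval (fun i => MvPolynomial.map φ (y i)) (MvPolynomial.map φ a) := by
  induction a using MvPolynomial.induction_on with
  | C a =>
    rw [MvPolynomial.map_C, MvPolynomial.algHom_C, MvPolynomial.algHom_C]
    exact MvPolynomial.map_C φ a
  | add p q hp hq => simp only [map_add, hp, hq]
  | mul_X p i hp => simp only [map_mul, hp, aeval_X, MvPolynomial.map_X]

/-- Extension of the base field of an affine scheme does not make the Frobenius volume at the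
origin smaller. -/
theorem Fvol_le_ext_G {N r n D : ℕ} (hn : 1 ≤ n) {κ κ' : Type} [Field κ] [Finite κ] [Field κ']
    [Finite κ'] (j : κ →+* κ') {J : Ideal (MvPolynomial (Fin N) κ)} (hJ : J ≤ mX N κ)
    {P : Fin r → Ideal (MvPolynomial (Fin N) κ)} (c : Fin r → ℚ) (d : HDat J P n D)
    (hF : d.F ≠ 0) (hnz : ∀ t, aeval d.y d.F * t ∈ J → t ∈ J) :
    Fvol n κ J P c ≤ Fvol n κ' (bc j J) (fun i => bc j (P i)) c := by
  by_cases hS : SFR (ringChar κ) (FractionRing (Oc κ J)) (mO κ J)
    (fun i => (P i).map (toO κ J)) c ⊤ 0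
  swap
  · have h0 : fpt (ringChar κ) (FractionRing (Oc κ J)) (mO κ J)
        (fun i => (P i).map (toO κ J)) c (mO κ J) = 0 := by
      by_contra hne
      exact hS (SFR.of_fpt_pos (lt_of_le_of_ne fpt_nonneg' (Ne.symm hne)))
    have h1 : Fvol n κ J P c ≤ 0 := by
      unfold Fvol
      have h2 : IsPrim (R := Oc κ J) (mO κ J) (mO κ J) := ⟨le_rfl, 1, (pow_one _).le⟩
      refine (FvolR_le h2).trans ?_
      rw [h0, zero_pow (by omega), mul_zero]
    exact h1.trans FvolR_nonneg
  let _ : Algebra κ κ' := j.toAlgebra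
  have hj : algebraMap κ κ' = j := rfl
  obtain ⟨p, hp⟩ : ∃ p, p = ringChar κ := ⟨_, rfl⟩
  have hcp : CharP κ p := hp ▸ ringChar.charP κ
  have hpr : Fact p.Prime := ⟨CharP.char_is_prime κ p⟩
  have hcp' : CharP κ' p := charP_of_injective_algebraMap (algebraMap κ κ').injective p
  have hp' : ringChar κ' = p := ringChar.eq κ' p
  have hJ' : bc j J ≤ mX N κ' := by
    rw [← map_mX j]
    exact Ideal.map_mono hJ
  have hlr : IsLocalRing (Oc κ J) := isLocal_Oc hJ
  have hlr' : IsLocalRing (Oc κ' (bc j J)) := isLocal_Oc hJ'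
  have hmax := maximal_Oc hJ
  have hmax' := maximal_Oc hJ'
  rw [← hp] at hS
  have hdom : IsDomain (Oc κ J) := hS.isDomain hpr.out.pos (isLocalRing_Oc J hJ).2
  obtain ⟨B, hB⟩ := exists_BchO j J hj (finBasis κ κ')
  have hdom' : IsDomain (Oc κ' (bc j J)) := by
    refine isDomain_of_Bch (K := FractionRing (Oc κ J)) B (finBasis κ κ') fun x hx => ?_
    rw [← hmax] at hS
    refine alg_of_SFR hS (fun a => ?_) hx
    rw [hmax]
    exact residue_Oc J a
  have h1 : CharP (Oc κ J) p := charP_Oc p hJ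
  have h2 : CharP (FractionRing (Oc κ J)) p := charP_frac p hJ
  have h1' : CharP (Oc κ' (bc j J)) p := charP_Oc p hJ'
  have h2' : CharP (FractionRing (Oc κ' (bc j J))) p := charP_frac p hJ'
  have hf := toO_F_ne hJ d hnz
  have hev : aeval (d.map j).y (d.map j).F = MvPolynomial.map j (aeval d.y d.F) := by
    have h3 : (d.map j).y = fun i => MvPolynomial.map j (d.y i) := rfl
    have h4 : (d.map j).F = MvPolynomial.map j d.F := rfl
    rw [h3, h4, fin_aeval]
  have hf' : toO κ' (bc j J) (aeval (d.map j).y (d.map j).F) ≠ 0 := by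
    rw [hev, ← iO_toO, ← hB]
    exact fun h => hf (B.i_injective (finBasis κ κ') (h.trans (map_zero _).symm))
  have hF' : (d.map j).F ≠ 0 := fun h => hF (MvPolynomial.map_injective j j.injective
    (h.trans (map_zero _).symm))
  obtain ⟨e⟩ := d.dat p hn _ le_rfl hF hf
  obtain ⟨e'⟩ := (d.map j).dat p hn _ le_rfl hF' hf'
  obtain ⟨A, hA⟩ := e.E0
  obtain ⟨A', hA'⟩ := e'.E0
  have hlim := hlim_Oc κ J n A hA
  have hlim' := hlim_Oc κ' (bc j J) n A' hA'
  have hP : (fun i => (bc j (P i)).map (toO κ' (bc j J))) =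
      fun i => ((P i).map (toO κ J)).map B.i := by
    funext i
    rw [hB, map_map_toO]
  have hmm : (maximalIdeal (Oc κ J)).map B.i = maximalIdeal (Oc κ' (bc j J)) := by
    rw [hmax, hmax', hB, map_mO]
  unfold Fvol
  rw [hp', ← hp]
  rw [← hmax] at e hlim hS ⊢
  rw [← hmax'] at e' hlim' ⊢
  rw [hP] at e' ⊢
  exact FvolR_le_ext B hmm (finBasis κ κ') _ c finrank_pos hn e e' hS hlim hlim'

end FU
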