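import Pool.Agent.Lib.MP_9e8926_ag_G.CartX

/-!
# MP_9e8926_ag, block G: the ideals `I_e` and base change
-/

set_option autoImplicit false

noncomputable section

namespace FU

open Finset Module IsLocalRing

variable {m : ℕ} {κ κ' R R' K K' : Type*} [Field κ] [Field κ'] [Finite κ] [Finite κ']
  [Algebra κ κ'] [CommRing R] [CommRing R'] [Algebra κ R] [Algebra κ' R'] [Field K] [Field K']
  [Algebra R K] [Algebra R' K'] [Algebra κ K] [Algebra κ' K'] [IsScalarTower κ R K]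
  [IsScalarTower κ' R' K'] [IsDomain R] [IsDomain R'] [IsLocalRing R] [IsLocalRing R']
  [IsFractionRing R K] [IsFractionRing R' K'] (B : Bch m κ κ' R R')
  (hB : (maximalIdeal R).map B.i = maximalIdeal R') (ω : Basis (Fin m) κ κ')
  {p : ℕ} [Fact p.Prime] [CharP κ p] [CharP κ' p] [CharP K' p] {r : ℕ} (P : Fin r → Ideal R)
  (c : Fin r → ℚ)

include hB ω in
/-- PROOF. Let `a ∉ I_e`: `φ a ∉ 𝔪` for some `φ`, and `φ a = b ∈ R` (`IsCart.map_R`). Let `φ'` be
the extension (`exists_BK`, `exists_cart_ext`). Then `φ' (i a) = i b`, and `i b ∉ 𝔪' = 𝔪 R'`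
(`comap_map`). -/
theorem comap_Ie_le (e : ℕ) :
    (Ie p K' (maximalIdeal R') (fun j => (P j).map B.i) c e).comap B.i ≤
      Ie p K (maximalIdeal R) P c e := by
  have hfd : FiniteDimensional κ κ' := Module.Finite.of_basis ω
  obtain ⟨BK, hBK⟩ := exists_BK (K := K) (K' := K') B ω
  intro a ha φ hφ
  obtain ⟨b, hb⟩ := hφ.map_R a
  obtain ⟨φ', hφ', hext⟩ := exists_cart_ext B BK hBK ω P c hφ
  obtain ⟨b', hb', h1⟩ := ha φ' hφ'
  rw [hBK, hext, ← hb, ← hBK] at h1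
  have h2 : B.i b = b' := IsFractionRing.injective R' K' h1
  rw [← h2, ← hB] at hb'
  exact ⟨b, B.comap_map ω _ hb', hb.symm⟩

include hB in
/-- PROOF. `cart_conj` for `σ⁻¹` (with `exists_BK`): `φ (act σ z) = act σ (ψ z)` for a suitable `ψ`,
and `act σ` preserves `𝔪' = 𝔪 R'` (`act_mem_map`). -/
theorem act_mem_Ie (e : ℕ) (σ : κ' ≃ₐ[κ] κ') {z : R'}
    (hz : z ∈ Ie p K' (maximalIdeal R') (fun j => (P j).map B.i) c e) :
    B.act ω σ z ∈ Ie p K' (maximalIdeal R') (fun j => (P j).map B.i) c e := by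
  have hfd : FiniteDimensional κ κ' := Module.Finite.of_basis ω
  obtain ⟨BK, hBK⟩ := exists_BK (K := FractionRing R) (K' := K') B ω
  intro φ hφ
  obtain ⟨ψ, hψ, hconj⟩ := cart_conj B BK hBK ω P c hφ σ⁻¹
  obtain ⟨b, hb, h1⟩ := hz ψ hψ
  have hinv : ∀ y : K', BK.act ω σ (BK.act ω σ⁻¹ y) = y := fun y => by
    rw [← BK.act_mul, mul_inv_cancel, BK.act_one]
  have hinv' : ∀ y : K', BK.act ω σ⁻¹ (BK.act ω σ y) = y := fun y => by
    rw [← BK.act_mul, inv_mul_cancel, BK.act_one]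
  have h2 := hconj (BK.act ω σ (algebraMap R' K' z))
  rw [hinv', h1] at h2
  refine ⟨B.act ω σ b, ?_, ?_⟩
  · rw [← hB] at hb ⊢
    exact B.act_mem_map ω σ _ hb
  · rw [← act_algebraMap_R B BK hBK ω σ z, ← act_algebraMap_R B BK hBK ω σ b, h2, hinv]

include hB ω in
/-- PROOF. Let `d' ≠ 0`. By `exists_norm` there are `d''`, `d ≠ 0` with `d' d'' = i d`. Take `e ≥
1`,
`φ` and `a` for `d`: `φ (d a) = b ∈ R`, `b ∉ 𝔪`. The extension `φ'` has
`φ' (d' (d'' i a)) = φ' (i (d a)) = i b ∉ 𝔪'` (`comap_map`). All powers of `⊤` are `⊤`. -/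
theorem SFR_ext (hS : SFR p K (maximalIdeal R) P c ⊤ 0) :
    SFR p K' (maximalIdeal R') (fun j => (P j).map B.i) c ⊤ 0 := by
  have hfd : FiniteDimensional κ κ' := Module.Finite.of_basis ω
  obtain ⟨BK, hBK⟩ := exists_BK (K := K) (K' := K') B ω
  intro d' hd'
  obtain ⟨d'', d, hd, hdd⟩ := B.exists_norm ω hd'
  obtain ⟨e, he, φ, hφ, a, -, hne⟩ := hS d hd
  obtain ⟨φ', hφ', hext⟩ := exists_cart_ext B BK hBK ω P c hφ
  refine ⟨e, he, φ', hφ', d'' * B.i a, ?_, ?_⟩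
  · rw [Ideal.top_pow]
    exact Submodule.mem_top
  · intro b' hb' h1
    obtain ⟨b, hb⟩ := hφ.map_R (d * a)
    rw [← mul_assoc, hdd, ← map_mul, hBK, hext, ← hb, ← hBK] at h1
    have h2 : B.i b = b' := IsFractionRing.injective R' K' h1
    rw [← h2, ← hB] at hb'
    exact hne b (B.comap_map ω _ hb') hb.symm

end FU
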