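import Pool.Agent.Lib.MP_9e8926_ag_G.BCc

/-!
# MP_9e8926_ag, block G: base change of polynomial rings
-/

set_option autoImplicit false

noncomputable section

namespace FU

open Finset Module MvPolynomial

private theorem Bch.insa_expand {m : ℕ} {κ κ' A A' : Type*} [Field κ] [Field κ'] [Algebra κ κ']
    [CommRing A] [CommRing A'] [Algebra κ A] [Algebra κ' A'] (B : Bch m κ κ' A A')
    (ω : Basis (Fin m) κ κ') (x : κ') (a : A) :
    algebraMap κ' A' x * B.i a =
      ∑ j, algebraMap κ' A' (ω j) * B.i (algebraMap κ A (ω.repr x j) * a) := by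
  have h1 : algebraMap κ' A' x = ∑ j, algebraMap κ' A' (ω.repr x j • ω j) := by
    conv_lhs => rw [← ω.sum_repr x]
    rw [map_sum]
  rw [h1, Finset.sum_mul]
  refine Finset.sum_congr rfl fun j _ => ?_
  rw [Algebra.smul_def, map_mul, ← B.comm, map_mul]
  ring

private theorem Bch.insa_co_mul {m : ℕ} {κ κ' A A' : Type*} [Field κ] [Field κ'] [Algebra κ κ']
    [CommRing A] [CommRing A'] [Algebra κ A] [Algebra κ' A'] (B : Bch m κ κ' A A')
    (ω : Basis (Fin m) κ κ') (x : κ') (y : A') :
    B.co ω (algebraMap κ' A' x * y) =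
      fun j => ∑ t, algebraMap κ A (ω.repr (x * ω t) j) * B.co ω y t := by
  refine B.co_unique ω ?_
  conv_lhs => rw [B.co_spec ω y, Finset.mul_sum]
  have h1 : ∀ t, algebraMap κ' A' x * (algebraMap κ' A' (ω t) * B.i (B.co ω y t)) =
      ∑ j, algebraMap κ' A' (ω j) *
        B.i (algebraMap κ A (ω.repr (x * ω t) j) * B.co ω y t) := by
    intro t
    rw [← mul_assoc, ← map_mul]
    exact B.insa_expand ω _ _
  rw [Finset.sum_congr rfl fun t _ => h1 t, Finset.sum_comm]
  refine Finset.sum_congr rfl fun j _ => ?_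
  rw [map_sum, Finset.mul_sum]

private theorem Bch.insa_co_zero {m : ℕ} {κ κ' A A' : Type*} [Field κ] [Field κ'] [Algebra κ κ']
    [CommRing A] [CommRing A'] [Algebra κ A] [Algebra κ' A'] (B : Bch m κ κ' A A')
    (ω : Basis (Fin m) κ κ') (j : Fin m) : B.co ω 0 j = 0 := by
  have h := B.co_mul_i ω 0 0 j
  rwa [map_zero, mul_zero, mul_zero] at h

private theorem Bch.insa_co_sum {m : ℕ} {κ κ' A A' : Type*} [Field κ] [Field κ'] [Algebra κ κ']
    [CommRing A] [CommRing A'] [Algebra κ A] [Algebra κ' A'] (B : Bch m κ κ' A A')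
    (ω : Basis (Fin m) κ κ') {ι : Type*} (s : Finset ι)
    (f : ι → A') (j : Fin m) : B.co ω (∑ l ∈ s, f l) j = ∑ l ∈ s, B.co ω (f l) j := by
  classical
  induction s using Finset.induction_on with
  | empty => rw [Finset.sum_empty, Finset.sum_empty, B.insa_co_zero]
  | insert a s ha ih => rw [Finset.sum_insert ha, Finset.sum_insert ha, B.co_add, Pi.add_apply, ih]

private theorem Bch.insa_co_mem {m : ℕ} {κ κ' A A' : Type*} [Field κ] [Field κ'] [Algebra κ κ']
    [CommRing A] [CommRing A'] [Algebra κ A] [Algebra κ' A'] (B : Bch m κ κ' A A')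
    (ω : Basis (Fin m) κ κ') (I : Ideal A) {z : A'}
    (hz : z ∈ I.map B.i) : ∀ j, B.co ω z j ∈ I := by
  refine Submodule.span_induction (p := fun z _ => ∀ j, B.co ω z j ∈ I) ?_ ?_ ?_ ?_ hz
  · rintro z ⟨a, ha, rfl⟩ j
    rw [B.co_i]
    exact I.mul_mem_left _ ha
  · intro j
    rw [B.insa_co_zero]
    exact I.zero_mem
  · intro x y _ _ hx hy j
    rw [B.co_add]
    exact I.add_mem (hx j) (hy j)
  · intro r y _ hy j
    have h1 : r • y = ∑ l, algebraMap κ' A' (ω l) * (y * B.i (B.co ω r l)) := by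
      rw [smul_eq_mul]
      conv_lhs => rw [B.co_spec ω r, Finset.sum_mul]
      refine Finset.sum_congr rfl fun l _ => ?_
      ring
    rw [h1, B.insa_co_sum]
    refine I.sum_mem fun l _ => ?_
    rw [B.insa_co_mul]
    refine I.sum_mem fun t _ => I.mul_mem_left _ ?_
    rw [B.co_mul_i]
    exact I.mul_mem_right _ (hy t)

/-- An element is in the extended ideal iff its coordinates are in the ideal.
PROOF. `⇐`: `co_spec`. `⇒`: the set of the `z` whose coordinates are in `I` is an ideal (for
`x ∈ κ'` and `a ∈ A` the coordinates of `x z` are `κ`-linear combinations of those of `z`, and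
`co_mul_i`; every element of `A'` is a sum of products `x i (a)`, `co_spec`), and it contains `i a`
for `a ∈ I` (`co_i`): `Submodule.span_induction`. -/
theorem Bch.mem_map_iff {m : ℕ} {κ κ' A A' : Type*} [Field κ] [Field κ'] [Algebra κ κ']
    [CommRing A] [CommRing A'] [Algebra κ A] [Algebra κ' A'] (B : Bch m κ κ' A A')
    (ω : Basis (Fin m) κ κ') (I : Ideal A) (z : A') :
    z ∈ I.map B.i ↔ ∀ j, B.co ω z j ∈ I := by
  refine ⟨fun hz => B.insa_co_mem ω I hz, fun h => ?_⟩
  rw [B.co_spec ω z]
  exact Ideal.sum_mem _ fun j _ => Ideal.mul_mem_left _ _ (Ideal.mem_map_of_mem _ (h j))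

variable {m : ℕ} {κ κ' : Type} [Field κ] [Field κ'] [Algebra κ κ'] (ω : Basis (Fin m) κ κ')
  {N : ℕ}

include ω in
/-- PROOF. `Bch.of_basis`. Surjectivity: the polynomial `z` is `∑_j C (ω j) * map z_j`, where the
coefficients of `z_j` are `ω.repr (coeff α z) j` (`MvPolynomial.induction_on` or
`Finsupp.mapRange`).
Injectivity: compare coefficients, `ω.linearIndependent`. -/
theorem exists_polyBch : ∃ B : Bch m κ κ' (MvPolynomial (Fin N) κ) (MvPolynomial (Fin N) κ'),
    B.i = MvPolynomial.map (algebraMap κ κ') := by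
  refine Bch.of_basis (MvPolynomial.map (algebraMap κ κ')) (fun x => ?_) ω (fun z => ?_)
    fun w hw => ?_
  · rw [MvPolynomial.algebraMap_eq, MvPolynomial.algebraMap_eq, MvPolynomial.map_C]
  · induction z using MvPolynomial.induction_on' with
    | monomial u a =>
      refine ⟨fun j => monomial u (ω.repr a j), ?_⟩
      have h1 : ∀ j, algebraMap κ' (MvPolynomial (Fin N) κ') (ω j) *
          MvPolynomial.map (algebraMap κ κ') (monomial u (ω.repr a j)) =
          monomial u (ω.repr a j • ω j) := by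
        intro j
        rw [MvPolynomial.algebraMap_eq, MvPolynomial.map_monomial, MvPolynomial.C_mul_monomial,
          Algebra.smul_def, mul_comm]
      rw [Finset.sum_congr rfl fun j _ => h1 j, ← map_sum, ω.sum_repr]
    | add p q hp hq =>
      obtain ⟨w, hw⟩ := hp
      obtain ⟨w', hw'⟩ := hq
      refine ⟨fun j => w j + w' j, ?_⟩
      conv_lhs => rw [hw, hw', ← Finset.sum_add_distrib]
      refine Finset.sum_congr rfl fun j _ => ?_
      rw [map_add, mul_add]
  · funext j
    ext α
    rw [Pi.zero_apply, MvPolynomial.coeff_zero]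
    have h1 := congrArg (MvPolynomial.coeff α) hw
    rw [MvPolynomial.coeff_sum, MvPolynomial.coeff_zero] at h1
    have h2 : ∑ j, MvPolynomial.coeff α (w j) • ω j = 0 := by
      rw [← h1]
      refine Finset.sum_congr rfl fun j _ => ?_
      rw [MvPolynomial.algebraMap_eq, MvPolynomial.coeff_C_mul, MvPolynomial.coeff_map,
        Algebra.smul_def, mul_comm]
    exact Fintype.linearIndependent_iff.1 ω.linearIndependent _ h2 j

include ω in
/-- PROOF. Let `B` be as in `exists_polyBch`. The constant coefficient of `B.act ω σ u` is `σ` of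
the constant coefficient of `u` (`Bch.hom_ext` for the homomorphisms `constantCoeff ∘ act σ` and
`σ ∘ constantCoeff` to `κ'`), so it is one. The product `∏_σ act σ u` is fixed by all `act τ`, so it
is `map d` (`Bch.exists_of_fixed`), the constant coefficient of `d` is one (`algebraMap κ κ'` is
injective), and it is a multiple of the factor `act 1 u = u`. -/
theorem exists_norm_poly [Finite κ] [Finite κ'] {u : MvPolynomial (Fin N) κ'}
    (hu : constantCoeff u = 1) :
    ∃ (u' : MvPolynomial (Fin N) κ') (d : MvPolynomial (Fin N) κ), constantCoeff d = 1 ∧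
      u * u' = MvPolynomial.map (algebraMap κ κ') d := by
  classical
  obtain ⟨B, hB⟩ := exists_polyBch ω (N := N)
  have : FiniteDimensional κ κ' := Module.Finite.of_basis ω
  have hcc : ∀ (σ : κ' ≃ₐ[κ] κ') (z : MvPolynomial (Fin N) κ'),
      constantCoeff (B.act ω σ z) = σ (constantCoeff z) := by
    intro σ z
    have h : (constantCoeff (σ := Fin N) (R := κ')).comp
        ((B.act ω σ : MvPolynomial (Fin N) κ' ≃+* MvPolynomial (Fin N) κ') :
          MvPolynomial (Fin N) κ' →+* MvPolynomial (Fin N) κ') =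
        ((σ : κ' ≃+* κ') : κ' →+* κ').comp (constantCoeff (σ := Fin N) (R := κ')) := by
      refine B.hom_ext ω (fun a => ?_) fun x => ?_
      · rw [RingHom.comp_apply, RingHom.comp_apply, RingEquiv.coe_toRingHom, B.act_i, hB,
          MvPolynomial.constantCoeff_map]
        exact (σ.commutes _).symm
      · rw [RingHom.comp_apply, RingHom.comp_apply, RingEquiv.coe_toRingHom, B.act_algebraMap,
          MvPolynomial.algebraMap_eq, MvPolynomial.constantCoeff_C, MvPolynomial.constantCoeff_C]
        rfl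
    exact RingHom.congr_fun h z
  have hfix : ∀ τ : κ' ≃ₐ[κ] κ', B.act ω τ (∏ σ : κ' ≃ₐ[κ] κ', B.act ω σ u) =
      ∏ σ : κ' ≃ₐ[κ] κ', B.act ω σ u := by
    intro τ
    rw [map_prod]
    have h1 : ∀ σ : κ' ≃ₐ[κ] κ', B.act ω τ (B.act ω σ u) = B.act ω (τ * σ) u := fun σ =>
      (B.act_mul ω τ σ u).symm
    rw [Finset.prod_congr rfl fun σ _ => h1 σ]
    exact Fintype.prod_equiv (Equiv.mulLeft τ) _ _ fun σ => rfl
  obtain ⟨d, hd⟩ := B.exists_of_fixed ω hfix
  rw [hB] at hd
  refine ⟨∏ σ ∈ (univ : Finset (κ' ≃ₐ[κ] κ')).erase 1, B.act ω σ u, d, ?_, ?_⟩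
  · have h1 := congrArg (constantCoeff (σ := Fin N) (R := κ')) hd
    rw [map_prod, MvPolynomial.constantCoeff_map, Finset.prod_eq_one fun σ _ => by
      rw [hcc, hu, map_one]] at h1
    exact (algebraMap κ κ').injective (h1.symm.trans (map_one _).symm)
  · rw [← hd, ← Finset.mul_prod_erase univ (fun σ : κ' ≃ₐ[κ] κ' => B.act ω σ u)
      (Finset.mem_univ 1), B.act_one]

end FU
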