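import Pool.Agent.Lib.MP_9e8926_ag_G.Ext
import Pool.Agent.Lib.MP_9e8926_ag_U.Len

/-!
# MP_9e8926_ag, block G: the multiplicity and the colength of an ideal
-/

set_option autoImplicit false

noncomputable section

namespace FU

open IsLocalRing Finset Module Filter Topology

/-- PROOF. For finite sets `card A = card (image) * card (A ⧸ image)`. The additive map
`Φ : (ι → R ⧸ I) → R ⧸ J`, ` (w α)_α ↦ ∑ α, m α * w α ^ q` is well defined since `q = p ^ e` and the
`q`-th powers of the elements of `I` are in `J`. By the hypothesis `hz` its image contains the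
classes of all `g * z`, so `card (R ⧸ J) ≤ card (R ⧸ I) ^ card ι * card (R ⧸ (g ⊔ J))`. Take
logarithms to the base `card κ`: `Module.card_eq_pow_finrank` (`Nat.card` versions). -/
theorem finrank_frob_aux {p : ℕ} [Fact p.Prime] {κ R : Type*} [Field κ] [Finite κ] [CommRing R]
    [CharP R p] [Algebra κ R] {ι : Type*} [Fintype ι] (m : ι → R) (g : R) (I J : Ideal R) (e : ℕ)
    (hI : Module.Finite κ (R ⧸ I)) (hJ : Module.Finite κ (R ⧸ J))
    (hIJ : ∀ x ∈ I, x ^ p ^ e ∈ J)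
    (hz : ∀ z : R, ∃ w : ι → R, g * z = ∑ α, m α * w α ^ p ^ e) :
    finrank κ (R ⧸ J) ≤ Fintype.card ι * finrank κ (R ⧸ I) +
      finrank κ (R ⧸ (Ideal.span {g} ⊔ J)) := by
  classical
  set N : Ideal R := Ideal.span {g} ⊔ J with hN
  have hJN : J ≤ N := le_sup_right
  set π : (R ⧸ J) →ₗ[κ] (R ⧸ N) := (Ideal.Quotient.factorₐ κ hJN).toLinearMap with hπ
  have hπs : Function.Surjective π := Ideal.Quotient.factor_surjective hJN
  have hfI : Finite (R ⧸ I) := Module.finite_of_finite κ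
  have h1 := LinearMap.finrank_range_add_finrank_ker π
  rw [LinearMap.range_eq_top.2 hπs, finrank_top] at h1
  have h2 : Nat.card (LinearMap.ker π) ≤ Nat.card (ι → R ⧸ I) := by
    have h3 : ∀ w : ι → R ⧸ I, ∃ x : R, x = ∑ α, m α * (Quotient.out (w α)) ^ p ^ e :=
      fun w => ⟨_, rfl⟩
    choose F hF using h3
    have h4 : ∀ x : LinearMap.ker π, ∃ w : ι → R ⧸ I, Ideal.Quotient.mk J (F w) = x.1 := by
      rintro ⟨x, hx⟩
      obtain ⟨x, rfl⟩ := Ideal.Quotient.mk_surjective x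
      have h5 : x ∈ N := by
        have h6 : π (Ideal.Quotient.mk J x) = 0 := hx
        have h7 : π (Ideal.Quotient.mk J x) = Ideal.Quotient.mk N x := rfl
        rw [h7] at h6
        exact Ideal.Quotient.eq_zero_iff_mem.1 h6
      obtain ⟨a, ha, b, hb, rfl⟩ := Submodule.mem_sup.1 h5
      obtain ⟨z, rfl⟩ := Ideal.mem_span_singleton'.1 ha
      obtain ⟨w, hw⟩ := hz z
      refine ⟨fun α => Ideal.Quotient.mk I (w α), ?_⟩
      refine Ideal.Quotient.eq.2 ?_
      have h8 : F (fun α => Ideal.Quotient.mk I (w α)) - (z * g + b) =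
          ∑ α, m α * ((Quotient.out (Ideal.Quotient.mk I (w α))) ^ p ^ e - w α ^ p ^ e) - b := by
        rw [hF, mul_comm z g, hw]
        simp only [mul_sub, Finset.sum_sub_distrib]
        ring
      rw [h8]
      refine J.sub_mem (J.sum_mem fun α _ => J.mul_mem_left _ ?_) hb
      rw [← sub_pow_char_pow]
      refine hIJ _ (Ideal.Quotient.eq.1 ?_)
      exact Quotient.out_eq _
    choose G hG using h4
    refine Nat.card_le_card_of_injective G fun x y hxy => ?_
    have h5 := hG x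
    rw [hxy, hG y] at h5
    exact Subtype.ext h5.symm
  rw [Module.natCard_eq_pow_finrank (K := κ), Nat.card_fun,
    Module.natCard_eq_pow_finrank (K := κ) (V := R ⧸ I), ← pow_mul,
    Nat.card_eq_fintype_card (α := ι)] at h2
  have h3 : 1 < Nat.card κ := Finite.one_lt_card
  have h4 := (Nat.pow_le_pow_iff_right h3).1 h2
  rw [mul_comm] at h4
  omega

variable {p : ℕ} [Fact p.Prime] {κ R K : Type*} [Field κ] [Finite κ] [CommRing R] [IsDomain R]
  [IsLocalRing R] [CharP R p] [Field K] [CharP K p] [Algebra κ R] [Algebra R K]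
  [IsFractionRing R K] {r : ℕ} {P : Fin r → Ideal R} {c : Fin r → ℚ} {n C0 : ℕ} {E : ℝ}
  (d : Dat p κ K (maximalIdeal R) P n C0 E)

include d in
/-- An ideal which contains a power of the maximal ideal has finite colength (`d.fin`). -/
theorem Dat.finite_quot {I : Ideal R} {B : ℕ} (hB : maximalIdeal R ^ B ≤ I) :
    Module.Finite κ (R ⧸ I) := by
  have := d.fin B
  exact Module.Finite.of_surjective (Ideal.Quotient.factorₐ κ hB).toLinearMap
    (Ideal.Quotient.factor_surjective hB)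

omit [Finite κ] in
private theorem lech_frob (d : Dat p κ K (maximalIdeal R) P n C0 E) {I : Ideal R} {B : ℕ}
    (hB : maximalIdeal R ^ B ≤ I) (e : ℕ) :
    maximalIdeal R ^ ((B + C0) * p ^ e) ≤ I.map (iterateFrobenius R p e) :=
  (maxPow_le_frob d.g d.span_g e B).trans (Ideal.map_mono hB)

include d in
/-- PROOF. `finrank_frob_aux` for `ι = Fin n → Fin q`, `g = H ^ (n q)` (`exists_repr`), `I` and
`J = I.map (iterateFrobenius R p e)`, which contains `𝔪 ^ ((B + C0) q)` (`maxPow_le_frob`).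
`finrank_quot_pow` (Len): `finrank (R ⧸ (H ^ (n q) ⊔ J)) ≤ n q * finrank (R ⧸ (H ⊔ J))
≤ n q * finrank (R ⧸ (H ⊔ 𝔪 ^ ((B + C0) q))) ≤ n q E ((B + C0) q) ^ (n - 1)` by `d.E1`
(` (B + C0) q ≥ 1` because `1 ≤ C0`); for `n = 0` this is `0`, for `n ≥ 1` it is
`q ^ n * n * E * (B + C0) ^ (n - 1)`. -/
theorem Dat.finrank_frob_le (hS : SFR p K (maximalIdeal R) P c ⊤ 0) (hC : 1 ≤ C0) {I : Ideal R}
    {B : ℕ} (hB : maximalIdeal R ^ B ≤ I) (e : ℕ) :
    (finrank κ (R ⧸ I.map (iterateFrobenius R p e)) : ℝ) ≤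
      ((p : ℝ) ^ e) ^ n * (finrank κ (R ⧸ I) + n * (E * ((B : ℝ) + C0) ^ (n - 1))) := by
  have hfI : Module.Finite κ (R ⧸ I) := d.finite_quot hB
  have hfJ : Module.Finite κ (R ⧸ I.map (iterateFrobenius R p e)) :=
    d.finite_quot (lech_frob d hB e)
  have hp : 1 ≤ p ^ e := Nat.one_le_pow _ _ (Fact.out : p.Prime).pos
  have h1 := finrank_frob_aux (fun α : Fin n → Fin (p ^ e) => ∏ i, d.y i ^ (α i : ℕ))
    (d.H ^ (n * p ^ e)) I (I.map (iterateFrobenius R p e)) e hfI hfJ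
    (fun x hx => by
      rw [← iterateFrobenius_def]
      exact Ideal.mem_map_of_mem _ hx)
    (fun z => d.exists_repr hS e z)
  have h2 := finrank_quot_pow (κ := κ) (C := I.map (iterateFrobenius R p e)) d.H (n * p ^ e)
  have hle : maximalIdeal R ^ ((B + C0) * p ^ e) ≤
      Ideal.span {d.H} ⊔ maximalIdeal R ^ ((B + C0) * p ^ e) := le_sup_right
  have hfL : Module.Finite κ (R ⧸ (Ideal.span {d.H} ⊔ maximalIdeal R ^ ((B + C0) * p ^ e))) :=
    d.finite_quot hle
  have h3 := finrank_quot_anti (κ := κ)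
    (sup_le_sup_left (lech_frob d hB e) (Ideal.span {d.H}))
  have h4 := d.E1 ((B + C0) * p ^ e) (Nat.mul_pos (by omega) hp)
  have h5 : (finrank κ (R ⧸ I.map (iterateFrobenius R p e)) : ℝ) ≤
      (((p ^ e) ^ n : ℕ) : ℝ) * finrank κ (R ⧸ I) +
        ((n * p ^ e : ℕ) : ℝ) * (E * (((B + C0) * p ^ e : ℕ) : ℝ) ^ (n - 1)) := by
    have h6 : finrank κ (R ⧸ I.map (iterateFrobenius R p e)) ≤
        (p ^ e) ^ n * finrank κ (R ⧸ I) + n * p ^ e *
          finrank κ (R ⧸ (Ideal.span {d.H} ⊔ maximalIdeal R ^ ((B + C0) * p ^ e))) := by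
      have h7 : Fintype.card (Fin n → Fin (p ^ e)) = (p ^ e) ^ n := by
        rw [Fintype.card_fun, Fintype.card_fin, Fintype.card_fin]
      rw [h7] at h1
      exact h1.trans (Nat.add_le_add_left (h2.trans (Nat.mul_le_mul_left _ h3)) _)
    refine (Nat.cast_le (α := ℝ).2 h6).trans ?_
    rw [Nat.cast_add, Nat.cast_mul, Nat.cast_mul (n * p ^ e)]
    exact add_le_add_right (mul_le_mul_of_nonneg_left h4 (Nat.cast_nonneg _)) _
  refine h5.trans (le_of_eq ?_)
  rcases Nat.eq_zero_or_pos n with hn | hn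
  · subst hn
    simp
  · obtain ⟨n', rfl⟩ : ∃ n', n = n' + 1 := ⟨n - 1, by omega⟩
    rw [Nat.add_sub_cancel]
    push_cast
    rw [mul_pow]
    ring

/-- The Hilbert-Samuel limit exists. -/
def HSlim (κ : Type*) [Field κ] (n : ℕ) {R : Type*} [CommRing R] [Algebra κ R]
    (I : Ideal R) : Prop :=
  ∃ l : ℝ, Tendsto (fun N : ℕ => (n.factorial : ℝ) * (finrank κ (R ⧸ I ^ N) : ℝ) / (N : ℝ) ^ n)
    atTop (𝓝 l)

include d in
/-- PROOF. The limit `l` of `HSlim` is `emult` (`Tendsto.limsup_eq`), and it is the limit along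
`N = p ^ e`. `I.map (iterateFrobenius R p e) ≤ I ^ (p ^ e)`, so
`finrank (R ⧸ I ^ q) ≤ finrank (R ⧸ I.map (iterateFrobenius R p e))` and `finrank_frob_le`. -/
theorem Dat.emult_le (hS : SFR p K (maximalIdeal R) P c ⊤ 0) (hC : 1 ≤ C0) {I : Ideal R}
    {B : ℕ} (hB : maximalIdeal R ^ B ≤ I) (hI : HSlim κ n I) :
    emult κ n I ≤ (n.factorial : ℝ) *
      (finrank κ (R ⧸ I) + n * (E * ((B : ℝ) + C0) ^ (n - 1))) := by
  obtain ⟨l, hl⟩ := hI
  refine emult_le_of_frequently hl (f := fun k => p ^ k)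
    (tendsto_pow_atTop_atTop_of_one_lt (Fact.out : p.Prime).one_lt) (Frequently.of_forall ?_)
  intro k
  have hfJ : Module.Finite κ (R ⧸ I.map (iterateFrobenius R p k)) :=
    d.finite_quot (lech_frob d hB k)
  have h1 : I.map (iterateFrobenius R p k) ≤ I ^ p ^ k := by
    refine Ideal.map_le_iff_le_comap.2 fun x hx => ?_
    rw [Ideal.mem_comap, iterateFrobenius_def]
    exact Ideal.pow_mem_pow hx _
  have h2 : (finrank κ (R ⧸ I ^ p ^ k) : ℝ) ≤
      finrank κ (R ⧸ I.map (iterateFrobenius R p k)) := by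
    exact_mod_cast finrank_quot_anti (κ := κ) h1
  have h3 := h2.trans (d.finrank_frob_le hS hC hB k)
  rw [Nat.cast_pow, mul_assoc]
  refine mul_le_mul_of_nonneg_left ?_ (Nat.cast_nonneg _)
  rw [mul_comm (_ + _)]
  exact h3

private theorem lech_nonneg {κ R : Type*} [Field κ] [CommRing R] [Algebra κ R] {n : ℕ}
    {I : Ideal R} (hI : HSlim κ n I) : 0 ≤ emult κ n I := by
  obtain ⟨l, hl⟩ := hI
  rw [emult_eq_of_tendsto hl]
  exact ge_of_tendsto' hl fun N => by positivity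

/-- From `HSlim`: eventually `n! finrank (R ⧸ I ^ N) ≤ (emult + ε) N ^ n`, and the finitely many
other values are bounded. -/
theorem exists_bound_of_emult {I : Ideal R} (hI : HSlim κ n I) {ε : ℝ} (hε : 0 < ε) :
    ∃ C : ℝ, ∀ N : ℕ, (n.factorial : ℝ) * (finrank κ (R ⧸ I ^ N) : ℝ) ≤
      (emult κ n I + ε) * (N : ℝ) ^ n + C := by
  have h0 := lech_nonneg hI
  obtain ⟨l, hl⟩ := hI
  rw [emult_eq_of_tendsto hl] at h0 ⊢
  have h1 := hl.eventually_lt_const (show l < l + ε by linarith)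
  obtain ⟨N0, hN0⟩ := (h1.and (eventually_ge_atTop 1)).exists_forall_of_atTop
  have hpos : ∀ N : ℕ, (0 : ℝ) ≤ (n.factorial : ℝ) * (finrank κ (R ⧸ I ^ N) : ℝ) := fun N => by
    positivity
  refine ⟨∑ N ∈ Finset.range N0, (n.factorial : ℝ) * (finrank κ (R ⧸ I ^ N) : ℝ), fun N => ?_⟩
  have h2 : (0 : ℝ) ≤ ∑ N ∈ Finset.range N0, (n.factorial : ℝ) * (finrank κ (R ⧸ I ^ N) : ℝ) :=
    Finset.sum_nonneg fun N _ => hpos N
  have h3 : (0 : ℝ) ≤ (l + ε) * (N : ℝ) ^ n := by positivity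
  rcases lt_or_ge N N0 with h | h
  · have h4 := Finset.single_le_sum (f := fun N => (n.factorial : ℝ) *
      (finrank κ (R ⧸ I ^ N) : ℝ)) (fun N _ => hpos N) (Finset.mem_range.2 h)
    exact h4.trans (by linarith)
  · obtain ⟨h4, h5⟩ := hN0 N h
    have h6 : (0 : ℝ) < (N : ℝ) ^ n := by
      have : (0 : ℝ) < N := by exact_mod_cast h5
      positivity
    rw [div_lt_iff₀ h6] at h4
    linarith

theorem emult_nonneg_lim {I : Ideal R} (hI : HSlim κ n I) : 0 ≤ emult κ n I := by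
  exact lech_nonneg hI

end FU
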