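import Pool.Agent.Lib.MP_9e8926_ag_G.RealA

/-!
# MP_9e8926_ag, block G: the limit
-/

set_option autoImplicit false

namespace FU

open Finset Filter Topology

/-- PROOF. The `W` values `∑_σ s σ u`, `u = W + 1, …, 2 W`, have the sum at most
`∑_σ ∑_{u ∈ Icc 1 (2 W)} s σ u ≤ card S * A`, so one of them is at most `card S * A / W`. -/
theorem exists_pick {S : Type*} [Fintype S] {s : S → ℕ → ℝ} (hs : ∀ σ u, 0 ≤ s σ u) {W : ℕ}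
    (hW : 1 ≤ W) {A : ℝ} (h : ∀ σ, ∑ u ∈ Icc 1 (2 * W), s σ u ≤ A) :
    ∃ u ∈ Icc (W + 1) (2 * W), ∑ σ, s σ u ≤ Fintype.card S * A / W := by
  have hW0 : (0 : ℝ) < W := by exact_mod_cast hW
  refine Finset.exists_le_of_sum_le ⟨W + 1, Finset.mem_Icc.2 ⟨le_rfl, by omega⟩⟩ ?_
  rw [Finset.sum_comm]
  have h1 : ∀ σ, ∑ u ∈ Icc (W + 1) (2 * W), s σ u ≤ A := fun σ =>
    (Finset.sum_le_sum_of_subset_of_nonneg (fun u hu => by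
      rw [Finset.mem_Icc] at hu ⊢
      omega) fun u _ _ => hs σ u).trans (h σ)
  refine (Finset.sum_le_sum fun σ _ => h1 σ).trans (le_of_eq ?_)
  rw [Finset.sum_const, Finset.sum_const, Finset.card_univ, Nat.card_Icc, nsmul_eq_mul,
    nsmul_eq_mul]
  have h2 : 2 * W + 1 - (W + 1) = W := by omega
  rw [h2]
  field_simp

private theorem realb_step {n : ℕ} (hn : 1 ≤ n) {S : Type*} [Fintype S] {V V' ε c0 C : ℝ}
    (hV' : 0 ≤ V') (hε : 0 < ε) (hc : 0 < c0) (hC : 0 ≤ C) {x : ℕ → ℝ} {M s : S → ℕ → ℝ}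
    (hx : ∀ i, 0 ≤ x i) (hs : ∀ σ u, 0 ≤ s σ u)
    (h1 : ∀ i, (n.factorial : ℝ) * x i ≤ (V' + ε) * ((i : ℝ) / c0) ^ n + C)
    (h2 : ∀ σ, ∀ L : ℕ, 1 ≤ L → V' * ((L : ℝ) / (2 * c0)) ^ n ≤
      (n.factorial : ℝ) * M σ L + C * (L : ℝ) ^ (n - 1))
    (h3 : ∀ σ, ∀ T : ℕ, 1 ≤ T → (∑ u ∈ Icc 1 T, s σ u) ^ 2 ≤ x T *
      (2 * ∑ i ∈ Icc 1 T, (2 * ((T : ℝ) - i) + 1) * (x i + x i) -
        ∑ L ∈ Icc 1 (2 * T), (2 * (2 * (T : ℝ) - L) + 1) * M σ L))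
    (h4 : ∀ u : ℕ, 1 ≤ u → V * ((u : ℝ) / c0) ^ n ≤
      (n.factorial : ℝ) * (x u + ∑ σ, s σ u) + C * (u : ℝ) ^ (n - 1)) {W : ℕ} (hW : 1 ≤ W) :
    V ≤ V' + ε + 2 * C * c0 ^ n * (1 / (W : ℝ)) + 2 ^ (n + 1) * Fintype.card S * (c0 ^ n *
      Real.sqrt (((V' + ε) / c0 ^ n + C / 2 * (1 / (W : ℝ))) *
        (8 * ε / c0 ^ n + (2 * n * V' / c0 ^ n + 8 * C + 2 ^ (n + 2) * C) / 2 *
          (1 / (W : ℝ))))) := by
  have hW0 : (0 : ℝ) < W := by exact_mod_cast hW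
  have hcn : 0 < c0 ^ n := pow_pos hc n
  have hF : (0 : ℝ) < n.factorial := by exact_mod_cast n.factorial_pos
  obtain ⟨ρ, hρ⟩ : ∃ ρ : ℝ, ρ = Real.sqrt (((V' + ε) / c0 ^ n + C / 2 * (1 / (W : ℝ))) *
        (8 * ε / c0 ^ n + (2 * n * V' / c0 ^ n + 8 * C + 2 ^ (n + 2) * C) / 2 *
          (1 / (W : ℝ)))) := ⟨_, rfl⟩
  rw [← hρ]
  have hρ0 : 0 ≤ ρ := by
    rw [hρ]
    exact Real.sqrt_nonneg _
  have hT : ((2 * W : ℕ) : ℝ) = 2 * W := by push_cast; ring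
  have hA : ∀ σ, ∑ u ∈ Icc 1 (2 * W), (n.factorial : ℝ) * s σ u ≤
      (((2 * W : ℕ) : ℝ) ^ (n + 1)) * ρ := fun σ => by
    have h5 := sq_sum_le hn hV' hε hc hC hx h1 (h2 σ) (T := 2 * W) (by omega)
      (h3 σ (2 * W) (by omega))
    have h6 : (((V' + ε) / c0 ^ n + C / ((2 * W : ℕ) : ℝ)) *
        (8 * ε / c0 ^ n + (2 * n * V' / c0 ^ n + 8 * C + 2 ^ (n + 2) * C) /
          ((2 * W : ℕ) : ℝ))) = ρ ^ 2 := by
      rw [hρ, Real.sq_sqrt (by positivity), hT]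
      field_simp
    rw [h6, ← mul_pow] at h5
    exact (abs_le_of_sq_le_sq' h5 (by positivity)).2
  obtain ⟨u, hu, hpick⟩ := exists_pick (s := fun σ u => (n.factorial : ℝ) * s σ u)
    (fun σ u => mul_nonneg hF.le (hs σ u)) hW hA
  rw [Finset.mem_Icc] at hu
  have hu1 : 1 ≤ u := by omega
  have hu0 : (0 : ℝ) < u := by exact_mod_cast hu1
  have huW : (W : ℝ) ≤ u := by exact_mod_cast (by omega : W ≤ u)
  have h5 := h4 u hu1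
  rw [mul_add, Finset.mul_sum] at h5
  have h6 := h1 u
  have hun : 0 < (u : ℝ) ^ n := pow_pos hu0 n
  have h7 : (Fintype.card S : ℝ) * ((((2 * W : ℕ) : ℝ) ^ (n + 1)) * ρ) / W ≤
      2 ^ (n + 1) * Fintype.card S * ((u : ℝ) ^ n * ρ) := by
    have h8 : (Fintype.card S : ℝ) * ((((2 * W : ℕ) : ℝ) ^ (n + 1)) * ρ) / W =
        2 ^ (n + 1) * Fintype.card S * ((W : ℝ) ^ n * ρ) := by
      rw [hT, mul_pow, pow_succ (W : ℝ) n]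
      field_simp
    rw [h8]
    exact mul_le_mul_of_nonneg_left (mul_le_mul_of_nonneg_right
      (pow_le_pow_left₀ hW0.le huW n) hρ0) (by positivity)
  have h8 : V * ((u : ℝ) / c0) ^ n ≤ (V' + ε) * ((u : ℝ) / c0) ^ n + C +
      2 ^ (n + 1) * Fintype.card S * ((u : ℝ) ^ n * ρ) + C * (u : ℝ) ^ (n - 1) := by
    linarith [hpick.trans h7]
  have hq : 0 < c0 ^ n / (u : ℝ) ^ n := div_pos hcn hun
  have h9 := mul_le_mul_of_nonneg_right h8 hq.le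
  have h10 : ((u : ℝ) / c0) ^ n * (c0 ^ n / (u : ℝ) ^ n) = 1 := by
    rw [div_pow]
    field_simp
  have h11 : (u : ℝ) ^ (n - 1) * (c0 ^ n / (u : ℝ) ^ n) = c0 ^ n * (1 / (u : ℝ)) := by
    obtain ⟨m, rfl⟩ : ∃ m, n = m + 1 := ⟨n - 1, by omega⟩
    rw [Nat.add_sub_cancel, pow_succ (u : ℝ) m]
    field_simp
  have h12 : (u : ℝ) ^ n * ρ * (c0 ^ n / (u : ℝ) ^ n) = c0 ^ n * ρ := by
    field_simp
  have h13 : C ≤ C * (u : ℝ) ^ (n - 1) :=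
    le_mul_of_one_le_right hC (one_le_pow₀ (by exact_mod_cast hu1))
  have h14 : C * (c0 ^ n / (u : ℝ) ^ n) ≤ C * (c0 ^ n * (1 / (u : ℝ))) := by
    have h15 := mul_le_mul_of_nonneg_right h13 hq.le
    rwa [mul_assoc, h11] at h15
  have h15 : C * (c0 ^ n * (1 / (u : ℝ))) ≤ C * (c0 ^ n * (1 / (W : ℝ))) :=
    mul_le_mul_of_nonneg_left (mul_le_mul_of_nonneg_left
      (one_div_le_one_div_of_le hW0 huW) hcn.le) hC
  have h16 : V * ((u : ℝ) / c0) ^ n * (c0 ^ n / (u : ℝ) ^ n) = V := by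
    rw [mul_assoc, h10, mul_one]
  have h17 : ((V' + ε) * ((u : ℝ) / c0) ^ n + C +
      2 ^ (n + 1) * Fintype.card S * ((u : ℝ) ^ n * ρ) + C * (u : ℝ) ^ (n - 1)) *
      (c0 ^ n / (u : ℝ) ^ n) = (V' + ε) * (((u : ℝ) / c0) ^ n * (c0 ^ n / (u : ℝ) ^ n)) +
      C * (c0 ^ n / (u : ℝ) ^ n) + 2 ^ (n + 1) * Fintype.card S *
      ((u : ℝ) ^ n * ρ * (c0 ^ n / (u : ℝ) ^ n)) +
      C * ((u : ℝ) ^ (n - 1) * (c0 ^ n / (u : ℝ) ^ n)) := by ring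
  rw [h16, h17, h10, h11, h12] at h9
  linarith

/-- PROOF. Let `K = 2 n V' / c0 ^ n + 8 C + 2 ^ (n + 2) C`, `W ≥ 1`, `T = 2 W` and
`ρ W = √(((V' + ε) / c0 ^ n + C / T) (8 ε / c0 ^ n + K / T))`. By `sq_sum_le`
`∑_{u ∈ Icc 1 T} n! s σ u ≤ T ^ (n + 1) ρ W` for all `σ` (`abs_le_of_sq_le_sq'`,
`Real.sqrt_sq`, or `Real.le_sqrt`). By `exists_pick` (for `n! s`) there is `u`, `W < u ≤ T`, with
`∑_σ n! s σ u ≤ card S * T ^ (n + 1) ρ W / W = 2 card S * T ^ n ρ W ≤ 2 ^ (n + 1) card S * u ^ n ρ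
W`
(`T ≤ 2 u`). By `h4` and `h1` and `u ≥ W`, after division by ` (u / c0) ^ n`,
`V ≤ V' + ε + 2 C c0 ^ n / W + 2 ^ (n + 1) card S * c0 ^ n ρ W`
(`C ≤ C u ^ (n - 1)`, `u ^ (n - 1) / u ^ n = 1 / u ≤ 1 / W`). For `W → ∞` the right side tends to
`V' + ε + 2 ^ (n + 1) card S * √(8 ε (V' + ε))`, because `c0 ^ n * √(X / c0 ^ n * (Y / c0 ^ n)) =
√(X Y)`
(`ge_of_tendsto'` or `le_of_tendsto'` along `W + 1`). -/
theorem le_of_data {n : ℕ} (hn : 1 ≤ n) {S : Type*} [Fintype S] {V V' ε c0 C : ℝ}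
    (hV' : 0 ≤ V') (hε : 0 < ε) (hc : 0 < c0) (hC : 0 ≤ C) {x : ℕ → ℝ} {M s : S → ℕ → ℝ}
    (hx : ∀ i, 0 ≤ x i) (hs : ∀ σ u, 0 ≤ s σ u)
    (h1 : ∀ i, (n.factorial : ℝ) * x i ≤ (V' + ε) * ((i : ℝ) / c0) ^ n + C)
    (h2 : ∀ σ, ∀ L : ℕ, 1 ≤ L → V' * ((L : ℝ) / (2 * c0)) ^ n ≤
      (n.factorial : ℝ) * M σ L + C * (L : ℝ) ^ (n - 1))
    (h3 : ∀ σ, ∀ T : ℕ, 1 ≤ T → (∑ u ∈ Icc 1 T, s σ u) ^ 2 ≤ x T *
      (2 * ∑ i ∈ Icc 1 T, (2 * ((T : ℝ) - i) + 1) * (x i + x i) -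
        ∑ L ∈ Icc 1 (2 * T), (2 * (2 * (T : ℝ) - L) + 1) * M σ L))
    (h4 : ∀ u : ℕ, 1 ≤ u → V * ((u : ℝ) / c0) ^ n ≤
      (n.factorial : ℝ) * (x u + ∑ σ, s σ u) + C * (u : ℝ) ^ (n - 1)) :
    V ≤ V' + ε + 2 ^ (n + 1) * Fintype.card S * Real.sqrt (8 * ε * (V' + ε)) := by
  have hcn : 0 < c0 ^ n := pow_pos hc n
  have hl : Tendsto (fun m : ℕ => V' + ε + 2 * C * c0 ^ n * (1 / ((m : ℝ) + 1)) +
      2 ^ (n + 1) * Fintype.card S * (c0 ^ n *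
      Real.sqrt (((V' + ε) / c0 ^ n + C / 2 * (1 / ((m : ℝ) + 1))) *
        (8 * ε / c0 ^ n + (2 * n * V' / c0 ^ n + 8 * C + 2 ^ (n + 2) * C) / 2 *
          (1 / ((m : ℝ) + 1)))))) atTop
      (𝓝 (V' + ε + 2 * C * c0 ^ n * 0 + 2 ^ (n + 1) * Fintype.card S * (c0 ^ n *
      Real.sqrt (((V' + ε) / c0 ^ n + C / 2 * 0) *
        (8 * ε / c0 ^ n + (2 * n * V' / c0 ^ n + 8 * C + 2 ^ (n + 2) * C) / 2 * 0))))) := by
    have h0 := tendsto_one_div_add_atTop_nhds_zero_nat (𝕜 := ℝ)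
    exact (tendsto_const_nhds.add (tendsto_const_nhds.mul h0)).add
      (tendsto_const_nhds.mul (tendsto_const_nhds.mul
        (((tendsto_const_nhds.add (tendsto_const_nhds.mul h0)).mul
          (tendsto_const_nhds.add (tendsto_const_nhds.mul h0))).sqrt)))
  have hle := ge_of_tendsto' hl fun m => by
    have h5 := realb_step hn hV' hε hc hC hx hs h1 h2 h3 h4 (W := m + 1) (by omega)
    push_cast at h5
    exact h5
  have h6 : c0 ^ n * Real.sqrt (((V' + ε) / c0 ^ n + C / 2 * 0) *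
      (8 * ε / c0 ^ n + (2 * n * V' / c0 ^ n + 8 * C + 2 ^ (n + 2) * C) / 2 * 0)) =
      Real.sqrt (8 * ε * (V' + ε)) := by
    have h7 : ((V' + ε) / c0 ^ n + C / 2 * 0) *
        (8 * ε / c0 ^ n + (2 * n * V' / c0 ^ n + 8 * C + 2 ^ (n + 2) * C) / 2 * 0) =
        8 * ε * (V' + ε) / (c0 ^ n) ^ 2 := by
      field_simp
      ring
    rw [h7, Real.sqrt_div (by positivity), Real.sqrt_sq hcn.le]
    field_simp
  rw [h6] at hle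
  linarith

/-- For `ε → 0` (continuity of the right side at `ε = 0`, `ge_of_tendsto` within `ε > 0`). -/
theorem le_of_forall_eps {V V' D : ℝ}
    (h : ∀ ε : ℝ, 0 < ε → V ≤ V' + ε + D * Real.sqrt (8 * ε * (V' + ε))) : V ≤ V' := by
  have h0 := tendsto_one_div_add_atTop_nhds_zero_nat (𝕜 := ℝ)
  have hl : Tendsto (fun m : ℕ => V' + 1 / ((m : ℝ) + 1) +
      D * Real.sqrt (8 * (1 / ((m : ℝ) + 1)) * (V' + 1 / ((m : ℝ) + 1)))) atTop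
      (𝓝 (V' + 0 + D * Real.sqrt (8 * 0 * (V' + 0)))) :=
    (tendsto_const_nhds.add h0).add (tendsto_const_nhds.mul
      (((tendsto_const_nhds.mul h0).mul (tendsto_const_nhds.add h0)).sqrt))
  have hle := ge_of_tendsto' hl fun m => h _ (by positivity)
  simpa using hle

end FU
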