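import Pool.Agent.Lib.MP_9e8926_ag_G.Mid
import Pool.Agent.Lib.MP_9e8926_ag_G.RealB
import Pool.Agent.Lib.MP_9e8926_ag_G.IeX

/-!
# MP_9e8926_ag, block G: Frobenius volumes and finite extensions of the residue field
-/

set_option autoImplicit false

noncomputable section

namespace FU

open IsLocalRing Finset Module Filter Topology

variable {m : ℕ} {κ κ' R R' K K' : Type*} [Field κ] [Field κ'] [Finite κ] [Finite κ']
  [Algebra κ κ'] [CommRing R] [CommRing R'] [Algebra κ R] [Algebra κ' R'] [Field K] [Field K']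
  [Algebra R K] [Algebra R' K'] [Algebra κ K] [Algebra κ' K'] [IsScalarTower κ R K]
  [IsScalarTower κ' R' K'] [IsDomain R] [IsDomain R'] [IsLocalRing R] [IsLocalRing R']
  [IsFractionRing R K] [IsFractionRing R' K'] (B : Bch m κ κ' R R')
  (hB : (maximalIdeal R).map B.i = maximalIdeal R') (ω : Basis (Fin m) κ κ')
  {p : ℕ} [Fact p.Prime] [CharP κ p] [CharP κ' p] [CharP K p] [CharP K' p] [CharP R p]
  [CharP R' p] {r : ℕ} (P : Fin r → Ideal R) (c : Fin r → ℚ) {n C0 C0' : ℕ} {E E' : ℝ}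

include hB in
theorem img_maxPow (σ : κ' ≃ₐ[κ] κ') (N : ℕ) :
    B.img ω σ (maximalIdeal R' ^ N) = maximalIdeal R' ^ N := by
  rw [← hB, ← Ideal.map_pow, B.img_map]

include hB in
theorem img_pow_le_Ie (σ : κ' ≃ₐ[κ] κ') {a : Ideal R'} {c0 : ℝ}
    (ha : ∀ e i : ℕ, c0 * (p : ℝ) ^ e ≤ i →
      a ^ i ≤ Ie p K' (maximalIdeal R') (fun j => (P j).map B.i) c e) (e i : ℕ)
    (hi : c0 * (p : ℝ) ^ e ≤ i) :
    (B.img ω σ a) ^ i ≤ Ie p K' (maximalIdeal R') (fun j => (P j).map B.i) c e := by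
  intro z hz
  rw [← B.img_pow, B.mem_img] at hz
  have h1 := act_mem_Ie B hB ω P c e σ (ha e i hi hz)
  rwa [← B.act_mul, mul_inv_cancel, B.act_one] at h1

include hB in
theorem comap_core_Prp {a : Ideal R'} {c0 : ℝ}
    (ha : ∀ e i : ℕ, c0 * (p : ℝ) ^ e ≤ i →
      a ^ i ≤ Ie p K' (maximalIdeal R') (fun j => (P j).map B.i) c e) (u : ℕ) :
    Prp p K (maximalIdeal R) P c c0 u ((B.core ω (a ^ u)).comap B.i) := by
  intro e i hi
  have h1 : a ^ (u * i) ≤ Ie p K' (maximalIdeal R') (fun j => (P j).map B.i) c e :=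
    ha e (u * i) (by push_cast; exact hi)
  have h2 : ((B.core ω (a ^ u)).comap B.i) ^ i ≤ (a ^ (u * i)).comap B.i := by
    refine (Ideal.le_comap_pow _ _).trans (Ideal.comap_mono ?_)
    rw [pow_mul]
    exact Ideal.pow_right_mono (B.core_le ω _) i
  exact (h2.trans (Ideal.comap_mono h1)).trans (comap_Ie_le B hB ω P c e)

include hB ω in
/-- The Frobenius volume does not become smaller if the residue field is extended. -/
theorem FvolR_le_ext (hm : 1 ≤ m) (hn : 1 ≤ n) (d : Dat p κ K (maximalIdeal R) P n C0 E)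
    (d' : Dat p κ' K' (maximalIdeal R') (fun j => (P j).map B.i) n C0' E')
    (hS : SFR p K (maximalIdeal R) P c ⊤ 0)
    (hlim : ∀ I : Ideal R, IsPrim (maximalIdeal R) I → HSlim κ n I)
    (hlim' : ∀ I : Ideal R', IsPrim (maximalIdeal R') I → HSlim κ' n I) :
    FvolR κ n p K (maximalIdeal R) P c ≤
      FvolR κ' n p K' (maximalIdeal R') (fun j => (P j).map B.i) c := by
  have : FiniteDimensional κ κ' := Module.Finite.of_basis ω
  have hS' := SFR_ext (K := K) (K' := K') B hB ω P c hS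
  have hC' := d'.one_le_C0
  set V' := FvolR κ' n p K' (maximalIdeal R') (fun j => (P j).map B.i) c with hV'
  have hV0 : 0 ≤ V' := FvolR_nonneg_lim hlim'
  refine le_of_forall_eps (D := 2 ^ (n + 1) * Fintype.card (κ' ≃ₐ[κ] κ')) fun ε hε => ?_
  obtain ⟨v, ⟨a, ha, rfl⟩, hv⟩ := exists_lt_of_csInf_lt
    (s := {v : ℝ | ∃ I : Ideal R', IsPrim (maximalIdeal R') I ∧
      v = emult κ' n I * fpt p K' (maximalIdeal R') (fun j => (P j).map B.i) c I ^ n})
    ⟨_, maximalIdeal R', ⟨le_rfl, 1, by rw [pow_one]⟩, rfl⟩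
    (lt_add_of_pos_right V' hε)
  obtain ⟨c0, hc0, hec⟩ : ∃ c0 : ℝ,
      fpt p K' (maximalIdeal R') (fun j => (P j).map B.i) c a < c0 ∧
      emult κ' n a * c0 ^ n < V' + ε := by
    have h1 : ContinuousAt (fun t : ℝ => emult κ' n a * t ^ n)
        (fpt p K' (maximalIdeal R') (fun j => (P j).map B.i) c a) :=
      (continuous_const.mul (continuous_pow n)).continuousAt
    have h2 := h1.eventually (gt_mem_nhds hv)
    obtain ⟨c0, h3, h4⟩ := ((h2.filter_mono nhdsWithin_le_nhds).and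
      (self_mem_nhdsWithin (s := Set.Ioi
        (fpt p K' (maximalIdeal R') (fun j => (P j).map B.i) c a)))).exists
    exact ⟨c0, h4, h3⟩
  have hc : 0 < c0 := (fpt_nonneg a).trans_lt hc0
  have hcn : 0 < c0 ^ n := pow_pos hc n
  obtain ⟨N0, hN0⟩ := ha.2
  have hε2 : 0 < (V' + ε) / c0 ^ n - emult κ' n a := by
    rw [sub_pos, lt_div_iff₀ hcn]
    exact hec
  obtain ⟨C1, hC1⟩ := exists_bound_of_emult (κ := κ') (n := n) (hlim' a ha) hε2
  have hIe : ∀ e i : ℕ, c0 * (p : ℝ) ^ e ≤ i →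
      a ^ i ≤ Ie p K' (maximalIdeal R') (fun j => (P j).map B.i) c e := fun e i hi =>
    pow_le_Ie_of_fpt_lt hS' hC' d'.g d'.span_g ha.1 hc0 e i hi
  have hpow : ∀ L : ℕ, maximalIdeal R' ^ (N0 * L) ≤ a ^ L := fun L => by
    rw [pow_mul]
    exact Ideal.pow_right_mono hN0 L
  have hpowσ : ∀ (σ : κ' ≃ₐ[κ] κ') (L : ℕ),
      maximalIdeal R' ^ (N0 * L) ≤ (B.img ω σ a) ^ L := fun σ L => by
    rw [← B.img_pow, ← img_maxPow B hB ω σ (N0 * L)]
    exact B.img_mono ω σ (hpow L)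
  have hfin : ∀ L : ℕ, Module.Finite κ' (R' ⧸ a ^ L) := fun L => d'.finite_quot (hpow L)
  have hfinσ : ∀ (σ : κ' ≃ₐ[κ] κ') (L : ℕ), Module.Finite κ' (R' ⧸ (B.img ω σ a) ^ L) :=
    fun σ L => d'.finite_quot (hpowσ σ L)
  have hfr : ∀ (σ : κ' ≃ₐ[κ] κ') (L : ℕ),
      finrank κ' (R' ⧸ (B.img ω σ a) ^ L) = finrank κ' (R' ⧸ a ^ L) := fun σ L => by
    have h1 := hfinσ σ L
    rw [← B.img_pow] at h1 ⊢
    exact B.finrank_img ω σ _ (hfin L) h1
  set A1 : ℝ := (n.factorial : ℝ) * (n * (|E'| * ((N0 : ℝ) + C0') ^ (n - 1))) with hA1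
  set A2 : ℝ := (n.factorial : ℝ) * (n * (|E| * ((N0 : ℝ) + C0) ^ (n - 1))) with hA2
  have hA10 : 0 ≤ A1 := by positivity
  have hA20 : 0 ≤ A2 := by positivity
  refine le_of_data (n := n) hn (S := κ' ≃ₐ[κ] κ') (V' := V') (c0 := c0)
    (C := |C1| + A1 + A2) hV0 hε hc (by positivity)
    (x := fun i => (finrank κ' (R' ⧸ a ^ i) : ℝ))
    (M := fun σ L => (finrank κ' (R' ⧸ midI a (B.img ω σ a) L) : ℝ))
    (s := fun σ u => incr κ' (a ^ u) ((B.img ω σ a) ^ u))
    (fun i => Nat.cast_nonneg _) (fun σ u => ?_) (fun i => ?_) (fun σ L hL => ?_)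
    (fun σ T hT => ?_) (fun u hu => ?_)
  · refine incr_nonneg (d'.finite_quot (B := N0 * u) (le_inf (hpow u) (hpowσ σ u)))
  · have h1 := hC1 i
    have h2 : (emult κ' n a + ((V' + ε) / c0 ^ n - emult κ' n a)) * (i : ℝ) ^ n =
        (V' + ε) * ((i : ℝ) / c0) ^ n := by
      rw [div_pow]
      ring
    rw [h2] at h1
    have h3 := le_abs_self C1
    linarith
  · have h1 := d'.mid_bound hS' hlim' hN0 hc hIe (img_pow_le_Ie B hB ω P c σ hIe) hL
    refine h1.trans (add_le_add_right (mul_le_mul_of_nonneg_right ?_ (by positivity)) _)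
    have := abs_nonneg C1
    linarith
  · have h1 := two_ideals (κ := κ') (a := a) (b := B.img ω σ a)
      (N := maximalIdeal R' ^ (N0 * (2 * T))) T (d'.fin _) (hpow _) (hpowσ σ _)
    simp only [hfr] at h1
    exact h1
  · have h2 : maximalIdeal R ^ (N0 * u) ≤ (B.core ω (a ^ u)).comap B.i := by
      rw [← Ideal.map_le_iff_le_comap, Ideal.map_pow, hB]
      refine le_iInf fun σ => ?_
      rw [B.img_pow]
      exact hpowσ σ u
    have h3 := d.one_bound hS hlim h2 hc hu (comap_core_Prp B hB ω P c hIe u)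
    have hcf : Module.Finite κ' (R' ⧸ B.core ω (a ^ u)) := by
      refine d'.finite_quot (B := N0 * u) (le_iInf fun σ => ?_)
      rw [B.img_pow]
      exact hpowσ σ u
    have h4 := B.finrank_comap_le ω hm (a ^ u) hcf (d.finite_quot h2)
    have h5 := finrank_iInf_le (κ := κ') (univ : Finset (κ' ≃ₐ[κ] κ')) (a ^ u)
      (fun σ => B.img ω σ (a ^ u)) (maximalIdeal R' ^ (N0 * u)) (d'.fin _) (hpow u)
      (fun σ _ => by rw [B.img_pow]; exact hpowσ σ u)
    rw [← B.core_eq] at h5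
    simp only [B.img_pow] at h5
    have h6 : (finrank κ (R ⧸ (B.core ω (a ^ u)).comap B.i) : ℝ) ≤
        finrank κ' (R' ⧸ B.core ω (a ^ u)) := by exact_mod_cast h4
    refine h3.trans (add_le_add (mul_le_mul_of_nonneg_left (h6.trans h5) (by positivity)) ?_)
    refine mul_le_mul_of_nonneg_right ?_ (by positivity)
    have := abs_nonneg C1
    linarith

end FU
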