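import Pool.Agent.Lib.MP_9e8926_ag_G.TwoB

/-!
# MP_9e8926_ag, block G: the powers of two ideals
-/

set_option autoImplicit false

namespace FU

open Finset Module

variable {κ R : Type*} [Field κ] [CommRing R] [Algebra κ R]

/-- The ideal `∑_{u + v = L} a^u ∩ b^v`. -/
def midI (a b : Ideal R) (L : ℕ) : Ideal R := ⨆ x ∈ antidiagonal L, a ^ x.1 ⊓ b ^ x.2

theorem le_midI (a b : Ideal R) (L u v : ℕ) (h : u + v = L) : a ^ u ⊓ b ^ v ≤ midI a b L := by
  exact le_iSup₂_of_le (f := fun (x : ℕ × ℕ) (_ : x ∈ antidiagonal L) => a ^ x.1 ⊓ b ^ x.2)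
    (u, v) (HasAntidiagonal.mem_antidiagonal.2 h) le_rfl

theorem pow_le_midI (a b : Ideal R) (L : ℕ) : a ^ L ≤ midI a b L := by
  refine le_trans ?_ (le_midI a b L L 0 (add_zero L))
  rw [pow_zero, Ideal.one_eq_top, inf_top_eq]

/-- `midI L * midI L' ≤ midI (L + L')` (`Ideal.iSup_mul`, `Ideal.mul_iSup`). -/
theorem midI_mul (a b : Ideal R) (L L' : ℕ) : midI a b L * midI a b L' ≤ midI a b (L + L') := by
  unfold midI
  rw [Submodule.iSup_mul]
  refine iSup_le fun x => ?_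
  rw [Submodule.iSup_mul]
  refine iSup_le fun hx => ?_
  rw [Submodule.mul_iSup]
  refine iSup_le fun y => ?_
  rw [Submodule.mul_iSup]
  refine iSup_le fun hy => ?_
  refine le_trans ?_ (le_midI a b (L + L') (x.1 + y.1) (x.2 + y.2) ?_)
  · rw [pow_add, pow_add]
    exact le_inf (Ideal.mul_mono inf_le_left inf_le_left) (Ideal.mul_mono inf_le_right inf_le_right)
  · rw [HasAntidiagonal.mem_antidiagonal] at hx hy
    omega

theorem midI_pow (a b : Ideal R) (L i : ℕ) : midI a b L ^ i ≤ midI a b (L * i) := by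
  induction i with
  | zero =>
    rw [pow_zero, mul_zero]
    exact le_trans (pow_zero a).ge (pow_le_midI a b 0)
  | succ i ih =>
    rw [pow_succ, mul_add, mul_one]
    exact (Ideal.mul_mono ih le_rfl).trans (midI_mul a b (L * i) L)

/-- The image of an ideal in `R ⧸ N`. -/
private def twocI (κ : Type*) [Field κ] {R : Type*} [CommRing R] [Algebra κ R]
    (N I : Ideal R) : Submodule κ (R ⧸ N) :=
  (I.restrictScalars κ).map (Ideal.Quotient.mkₐ κ N).toLinearMap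

private theorem twoc_mem {N I : Ideal R} {x : R ⧸ N} :
    x ∈ twocI κ N I ↔ ∃ r ∈ I, Ideal.Quotient.mk N r = x := by
  unfold twocI
  rw [Submodule.mem_map]
  exact Iff.rfl

private theorem twoc_mk {N I : Ideal R} (h : N ≤ I) {r : R} :
    Ideal.Quotient.mk N r ∈ twocI κ N I ↔ r ∈ I := by
  rw [twoc_mem]
  constructor
  · rintro ⟨s, hs, hsr⟩
    have h1 : s - r ∈ N := Ideal.Quotient.eq.1 hsr
    have h2 : r = s - (s - r) := by ring
    rw [h2]
    exact I.sub_mem hs (h h1)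
  · intro hr
    exact ⟨r, hr, rfl⟩

private theorem twoc_mono {N I J : Ideal R} (h : I ≤ J) : twocI κ N I ≤ twocI κ N J := by
  intro x hx
  obtain ⟨r, hr, hrx⟩ := twoc_mem.1 hx
  exact twoc_mem.2 ⟨r, h hr, hrx⟩

private theorem twoc_top {N : Ideal R} : twocI κ N ⊤ = ⊤ := by
  rw [eq_top_iff]
  intro x _
  obtain ⟨r, rfl⟩ := Ideal.Quotient.mk_surjective x
  exact twoc_mem.2 ⟨r, Submodule.mem_top, rfl⟩

private theorem twoc_inf {N I J : Ideal R} (h : N ≤ J) :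
    twocI κ N (I ⊓ J) = twocI κ N I ⊓ twocI κ N J := by
  refine le_antisymm (le_inf (twoc_mono inf_le_left) (twoc_mono inf_le_right)) ?_
  rintro x ⟨h1, h2⟩
  obtain ⟨r, hr, rfl⟩ := twoc_mem.1 h1
  exact twoc_mem.2 ⟨r, ⟨hr, (twoc_mk h).1 h2⟩, rfl⟩

private theorem twoc_sup {N I J : Ideal R} :
    twocI κ N (I ⊔ J) = twocI κ N I ⊔ twocI κ N J := by
  refine le_antisymm ?_ (sup_le (twoc_mono le_sup_left) (twoc_mono le_sup_right))
  intro x hx
  obtain ⟨r, hr, rfl⟩ := twoc_mem.1 hx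
  obtain ⟨y, hy, z, hz, rfl⟩ := Submodule.mem_sup.1 hr
  rw [map_add]
  exact Submodule.add_mem_sup (twoc_mem.2 ⟨y, hy, rfl⟩) (twoc_mem.2 ⟨z, hz, rfl⟩)

/-- Dimensions. -/
private theorem twoc_dim {N I : Ideal R} [Module.Finite κ (R ⧸ N)] (h : N ≤ I) :
    finrank κ (R ⧸ I) + finrank κ (twocI κ N I) = finrank κ (R ⧸ N) := by
  have h1 : LinearMap.ker (Ideal.Quotient.factorₐ κ h).toLinearMap = twocI κ N I := by
    ext x
    obtain ⟨r, rfl⟩ := Ideal.Quotient.mk_surjective x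
    rw [twoc_mk h, LinearMap.mem_ker]
    change Ideal.Quotient.mk I r = 0 ↔ r ∈ I
    exact Ideal.Quotient.eq_zero_iff_mem
  have h2 : LinearMap.range (Ideal.Quotient.factorₐ κ h).toLinearMap = ⊤ :=
    LinearMap.range_eq_top.2 (Ideal.Quotient.factor_surjective h)
  have h3 := LinearMap.finrank_range_add_finrank_ker (Ideal.Quotient.factorₐ κ h).toLinearMap
  rw [h1, h2, finrank_top] at h3
  exact h3

private theorem twoc_quot {N I : Ideal R} [Module.Finite κ (R ⧸ N)] (h : N ≤ I) :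
    finrank κ ((R ⧸ N) ⧸ twocI κ N I) = finrank κ (R ⧸ I) := by
  have h1 := Submodule.finrank_quotient_add_finrank (twocI κ N I)
  have h2 := twoc_dim (κ := κ) h
  omega

private theorem twoc_le {I J : Ideal R} [Module.Finite κ (R ⧸ I)] (h : I ≤ J) :
    finrank κ (R ⧸ J) ≤ finrank κ (R ⧸ I) := by
  have h1 := twoc_dim (κ := κ) h
  omega

/-- The increase of the colength. -/
noncomputable def incr (κ : Type*) [Field κ] {R : Type*} [CommRing R] [Algebra κ R]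
    (a b : Ideal R) : ℝ := (finrank κ (R ⧸ a ⊓ b) : ℝ) - finrank κ (R ⧸ a)

/-- For ideals of finite colength. -/
theorem incr_nonneg {a b : Ideal R} (h : Module.Finite κ (R ⧸ a ⊓ b)) : 0 ≤ incr κ a b := by
  have h1 : finrank κ (R ⧸ a) ≤ finrank κ (R ⧸ a ⊓ b) := twoc_le inf_le_left
  have h2 : (finrank κ (R ⧸ a) : ℝ) ≤ finrank κ (R ⧸ a ⊓ b) := by exact_mod_cast h1
  unfold incr
  linarith

/-- PROOF. `V = R ⧸ N`, `F u` and `G u` the images of `a^u` and `b^u` (`Submodule.map (mkQ _)`, with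
scalars restricted to `κ`). `two_filt`. For `u ≤ 2 T` we have `N ≤ a^(2 T) ≤ a^u`, so `V ⧸ F u` has
the dimension of `R ⧸ a^u` (third isomorphism theorem, `Submodule.quotientQuotientEquivQuotient` or
`DoubleQuot`), the intersections correspond to the intersections, and `mid F G L` is the image of
`midI a b L`, which contains `N`, for `L ≤ 2 T`. `dim F u - dim (F u ⊓ G u) = incr κ (a^u) (b^u)`.
-/
theorem two_ideals {a b N : Ideal R} (T : ℕ) (hN : Module.Finite κ (R ⧸ N))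
    (ha : N ≤ a ^ (2 * T)) (hb : N ≤ b ^ (2 * T)) :
    (∑ u ∈ Icc 1 T, incr κ (a ^ u) (b ^ u)) ^ 2 ≤ (finrank κ (R ⧸ b ^ T) : ℝ) *
      (2 * ∑ i ∈ Icc 1 T, (2 * ((T : ℝ) - i) + 1) *
          ((finrank κ (R ⧸ a ^ i) : ℝ) + finrank κ (R ⧸ b ^ i)) -
        ∑ L ∈ Icc 1 (2 * T), (2 * (2 * (T : ℝ) - L) + 1) *
          (finrank κ (R ⧸ midI a b L) : ℝ)) := by
  have haL : ∀ L, L ≤ 2 * T → N ≤ a ^ L := fun L hL => ha.trans (Ideal.pow_le_pow_right hL)
  have hbL : ∀ L, L ≤ 2 * T → N ≤ b ^ L := fun L hL => hb.trans (Ideal.pow_le_pow_right hL)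
  have hT := two_filt (k := κ) (V := R ⧸ N) (F := fun u => twocI κ N (a ^ u))
    (G := fun u => twocI κ N (b ^ u)) (fun u v huv => twoc_mono (Ideal.pow_le_pow_right huv))
    (fun u v huv => twoc_mono (Ideal.pow_le_pow_right huv))
    (by
      change twocI κ N (a ^ 0) = ⊤
      rw [pow_zero, Ideal.one_eq_top]
      exact twoc_top)
    (by
      change twocI κ N (b ^ 0) = ⊤
      rw [pow_zero, Ideal.one_eq_top]
      exact twoc_top) T
  have h1 : ∑ u ∈ Icc 1 T, incr κ (a ^ u) (b ^ u) = ∑ u ∈ Icc 1 T,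
      ((finrank κ (twocI κ N (a ^ u)) : ℝ) -
        finrank κ (twocI κ N (a ^ u) ⊓ twocI κ N (b ^ u) : Submodule κ (R ⧸ N))) := by
    refine Finset.sum_congr rfl fun u hu => ?_
    rw [Finset.mem_Icc] at hu
    have e1 := haL u (by omega)
    have e2 := hbL u (by omega)
    rw [← twoc_inf e2]
    have e3 := twoc_dim (κ := κ) e1
    have e4 := twoc_dim (κ := κ) (le_inf e1 e2)
    have e5 : (finrank κ (R ⧸ a ^ u) : ℝ) + finrank κ (twocI κ N (a ^ u)) =
        finrank κ (R ⧸ a ^ u ⊓ b ^ u) + finrank κ (twocI κ N (a ^ u ⊓ b ^ u)) := by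
      exact_mod_cast e3.trans e4.symm
    unfold incr
    linarith
  have h2 : ∑ i ∈ Icc 1 T, (2 * ((T : ℝ) - i) + 1) *
      ((finrank κ (R ⧸ a ^ i) : ℝ) + finrank κ (R ⧸ b ^ i)) =
      ∑ i ∈ Icc 1 T, (2 * ((T : ℝ) - i) + 1) *
      ((finrank κ ((R ⧸ N) ⧸ twocI κ N (a ^ i)) : ℝ) +
        finrank κ ((R ⧸ N) ⧸ twocI κ N (b ^ i))) := by
    refine Finset.sum_congr rfl fun u hu => ?_
    rw [Finset.mem_Icc] at hu
    rw [twoc_quot (haL u (by omega)), twoc_quot (hbL u (by omega))]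
  have h3 : ∑ L ∈ Icc 1 (2 * T), (2 * (2 * (T : ℝ) - L) + 1) *
      (finrank κ (R ⧸ midI a b L) : ℝ) ≤ ∑ L ∈ Icc 1 (2 * T), (2 * (2 * (T : ℝ) - L) + 1) *
      (finrank κ ((R ⧸ N) ⧸ mid (fun u => twocI κ N (a ^ u)) (fun u => twocI κ N (b ^ u)) L) :
        ℝ) := by
    refine Finset.sum_le_sum fun L hL => ?_
    rw [Finset.mem_Icc] at hL
    have e1 : N ≤ midI a b L := (haL L hL.2).trans (pow_le_midI a b L)
    have e2 : (L : ℝ) ≤ 2 * T := by exact_mod_cast hL.2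
    refine mul_le_mul_of_nonneg_left ?_ (by linarith)
    have e3 : mid (fun u => twocI κ N (a ^ u)) (fun u => twocI κ N (b ^ u)) L ≤
        twocI κ N (midI a b L) := by
      refine iSup₂_le fun x hx => ?_
      rw [HasAntidiagonal.mem_antidiagonal] at hx
      change twocI κ N (a ^ x.1) ⊓ twocI κ N (b ^ x.2) ≤ _
      rw [← twoc_inf (hbL x.2 (by omega))]
      exact twoc_mono (le_midI a b L x.1 x.2 hx)
    have e4 := Submodule.finrank_mono e3
    have e5 := Submodule.finrank_quotient_add_finrank (twocI κ N (midI a b L))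
    have e6 := Submodule.finrank_quotient_add_finrank
      (mid (fun u => twocI κ N (a ^ u)) (fun u => twocI κ N (b ^ u)) L)
    rw [twoc_quot e1] at e5
    have e7 : finrank κ (R ⧸ midI a b L) ≤ finrank κ ((R ⧸ N) ⧸
        mid (fun u => twocI κ N (a ^ u)) (fun u => twocI κ N (b ^ u)) L) := by omega
    exact_mod_cast e7
  rw [h1, h2]
  refine hT.trans ?_
  rw [twoc_quot (hbL T (by omega))]
  refine mul_le_mul_of_nonneg_left (sub_le_sub_left h3 _) (Nat.cast_nonneg _)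

/-- PROOF. Induction on the finite set: for `B = ⨅ j ∈ s, b j` the exact sequences give
`dim R/(a ⊓ B ⊓ b_j) - dim R/(a ⊓ B) = dim (a ⊓ B)/(a ⊓ B ⊓ b_j) ≤ dim a/(a ⊓ b_j)`. -/
theorem finrank_iInf_le {J : Type*} (s : Finset J) (a : Ideal R) (b : J → Ideal R) (N : Ideal R)
    (hN : Module.Finite κ (R ⧸ N)) (ha : N ≤ a) (hb : ∀ j ∈ s, N ≤ b j) :
    (finrank κ (R ⧸ a ⊓ ⨅ j ∈ s, b j) : ℝ) ≤ finrank κ (R ⧸ a) + ∑ j ∈ s, incr κ a (b j) := by
  classical
  induction s using Finset.induction_on with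
  | empty =>
    have h1 : a ⊓ ⨅ j ∈ (∅ : Finset J), b j = a := by simp
    rw [h1, Finset.sum_empty, add_zero]
  | insert j s hj ih =>
    have ih' := ih fun i hi => hb i (Finset.mem_insert_of_mem hi)
    rw [Finset.sum_insert hj, Finset.iInf_insert]
    obtain ⟨B, hB⟩ : ∃ B : Ideal R, B = ⨅ i ∈ s, b i := ⟨_, rfl⟩
    have hNB : N ≤ B := by
      rw [hB]
      exact le_iInf₂ fun i hi => hb i (Finset.mem_insert_of_mem hi)
    have hNj : N ≤ b j := hb j (Finset.mem_insert_self j s)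
    rw [← hB] at ih' ⊢
    have h1 : a ⊓ (b j ⊓ B) = (a ⊓ B) ⊓ (a ⊓ b j) := by
      rw [inf_inf_inf_comm, inf_idem, inf_comm B (b j)]
    have h2 := Submodule.finrank_sup_add_finrank_inf_eq (twocI κ N (a ⊓ B))
      (twocI κ N (a ⊓ b j))
    rw [← twoc_inf (le_inf ha hNj), ← twoc_sup] at h2
    have h3 := twoc_dim (κ := κ) (le_inf (le_inf ha hNB) (le_inf ha hNj))
    have h4 := twoc_dim (κ := κ) (le_inf ha hNB)
    have h5 := twoc_dim (κ := κ) (le_inf ha hNj)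
    have h6 := twoc_dim (κ := κ) ((le_inf ha hNB).trans (le_sup_left (b := a ⊓ b j)))
    have h7 := twoc_dim (κ := κ) ha
    have h8 := Submodule.finrank_mono (twoc_mono (κ := κ) (N := N)
      (sup_le inf_le_left inf_le_left : (a ⊓ B) ⊔ (a ⊓ b j) ≤ a))
    have h9 : finrank κ (R ⧸ (a ⊓ B) ⊓ (a ⊓ b j)) + finrank κ (R ⧸ a) ≤
        finrank κ (R ⧸ a ⊓ B) + finrank κ (R ⧸ a ⊓ b j) := by omega
    have h10 : (finrank κ (R ⧸ (a ⊓ B) ⊓ (a ⊓ b j)) : ℝ) + finrank κ (R ⧸ a) ≤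
        finrank κ (R ⧸ a ⊓ B) + finrank κ (R ⧸ a ⊓ b j) := by exact_mod_cast h9
    rw [h1]
    have h11 : incr κ a (b j) = (finrank κ (R ⧸ a ⊓ b j) : ℝ) - finrank κ (R ⧸ a) := rfl
    rw [h11]
    linarith

end FU
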