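import Pool.Agent.Lib.MP_9e8926_ag_G.Lech
import Pool.Agent.Lib.MP_9e8926_ag_G.TwoC

/-!
# MP_9e8926_ag, block G: lower bounds of colengths by the Frobenius volume
-/

set_option autoImplicit false

noncomputable section

namespace FU

open IsLocalRing Finset Module

variable {p : ℕ} [Fact p.Prime] {κ R K : Type*} [Field κ] [Finite κ] [CommRing R] [IsDomain R]
  [IsLocalRing R] [CharP R p] [Field K] [CharP K p] [Algebra κ R] [Algebra R K]
  [IsFractionRing R K] {r : ℕ} {P : Fin r → Ideal R} {c : Fin r → ℚ} {n C0 : ℕ} {E : ℝ}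
  (d : Dat p κ K (maximalIdeal R) P n C0 E)

include d in
/-- There is a generator of the maximal ideal: `0 ≠ b ∈ 𝔪` (`d.b_ne`, `d.b_mem`, `d.span_g`). -/
theorem Dat.one_le_C0 : 1 ≤ C0 := by
  by_contra hn
  have h0 : C0 = 0 := by omega
  subst h0
  have h1 := d.span_g
  rw [Set.range_eq_empty, Ideal.span_empty] at h1
  have h2 : d.b ∈ maximalIdeal R := Ideal.pow_le_self two_ne_zero d.b_mem
  have h3 : d.b ∈ (⊥ : Ideal R) := h1.ge h2
  exact d.b_ne (Ideal.mem_bot.1 h3)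

include d in
/-- `b ^ N ≠ 0` is in `𝔪 ^ N` (`d.b_ne`, `d.b_mem`). -/
theorem Dat.maxPow_ne_bot (N : ℕ) : maximalIdeal R ^ N ≠ ⊥ := by
  intro h
  have h1 : d.b ∈ maximalIdeal R := Ideal.pow_le_self two_ne_zero d.b_mem
  have h2 : d.b ^ N ∈ maximalIdeal R ^ N := Ideal.pow_mem_pow h1 N
  rw [h, Ideal.mem_bot] at h2
  exact pow_ne_zero N d.b_ne h2

/-- The set in the definition of `FvolR` is bounded from below by `0` (`emult_nonneg`,
`fpt_nonneg`), `csInf_le`. -/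
theorem FvolR_le_lim (hlim : ∀ I : Ideal R, IsPrim (maximalIdeal R) I → HSlim κ n I) {I : Ideal R}
    (hI : IsPrim (maximalIdeal R) I) :
    FvolR κ n p K (maximalIdeal R) P c ≤
      emult κ n I * fpt p K (maximalIdeal R) P c I ^ n := by
  refine csInf_le ⟨0, ?_⟩ ⟨I, hI, rfl⟩
  rintro v ⟨J, hJ, rfl⟩
  exact mul_nonneg (emult_nonneg_lim (hlim J hJ)) (pow_nonneg (fpt_nonneg J) n)

theorem FvolR_nonneg_lim (hlim : ∀ I : Ideal R, IsPrim (maximalIdeal R) I → HSlim κ n I) :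
    0 ≤ FvolR κ n p K (maximalIdeal R) P c := by
  refine Real.sInf_nonneg ?_
  rintro v ⟨J, hJ, rfl⟩
  exact mul_nonneg (emult_nonneg_lim (hlim J hJ)) (pow_nonneg (fpt_nonneg J) n)

include d in
/-- PROOF. `I ≤ 𝔪` (`le_max_of_Prp`), so `I` is primary, and `I ≠ ⊥` (`maxPow_ne_bot`).
`FvolR_le_lim`, `fpt_le_of_Prp` (`fpt ≤ S / m`), `fpt_nonneg`, and `Dat.emult_le`. -/
theorem Dat.Fvol_mul_le (hS : SFR p K (maximalIdeal R) P c ⊤ 0)
    (hlim : ∀ I : Ideal R, IsPrim (maximalIdeal R) I → HSlim κ n I) {I : Ideal R} {B : ℕ}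
    (hB : maximalIdeal R ^ B ≤ I) {S : ℝ} (hS0 : 0 < S) {m : ℕ} (hm : 1 ≤ m)
    (hP : Prp p K (maximalIdeal R) P c S m I) :
    FvolR κ n p K (maximalIdeal R) P c * ((m : ℝ) / S) ^ n ≤ (n.factorial : ℝ) *
      (finrank κ (R ⧸ I) + n * (E * ((B : ℝ) + C0) ^ (n - 1))) := by
  have hIP : IsPrim (maximalIdeal R) I := ⟨le_max_of_Prp hm hP, B, hB⟩
  have hne : I ≠ ⊥ := by
    rintro rfl
    exact d.maxPow_ne_bot B (le_bot_iff.1 hB)
  have hm0 : (0 : ℝ) < m := by exact_mod_cast hm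
  have h1 : fpt p K (maximalIdeal R) P c I ≤ S / m := fpt_le_of_Prp hne hS0.le hm hP
  have h2 : 0 ≤ emult κ n I := emult_nonneg_lim (hlim I hIP)
  have h3 : FvolR κ n p K (maximalIdeal R) P c ≤ emult κ n I * (S / m) ^ n :=
    (FvolR_le_lim hlim hIP).trans
      (mul_le_mul_of_nonneg_left (pow_le_pow_left₀ (fpt_nonneg I) h1 n) h2)
  have h4 : (0 : ℝ) ≤ ((m : ℝ) / S) ^ n := by positivity
  refine (mul_le_mul_of_nonneg_right h3 h4).trans ?_
  have h5 : emult κ n I * (S / m) ^ n * ((m : ℝ) / S) ^ n = emult κ n I := by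
    rw [mul_assoc, ← mul_pow, div_mul_div_cancel₀ hm0.ne', div_self hS0.ne', one_pow, mul_one]
  rw [h5]
  exact d.emult_le hS d.one_le_C0 hB (hlim I hIP)

/-- PROOF. ` (midI a b L) ^ i ≤ midI a b (L * i)` (`midI_pow`), and for `u + v = L * i` with
`2 c0 p ^ e ≤ L i` one of `u`, `v` is at least `c0 p ^ e`. -/
theorem Prp_midI {a b : Ideal R} {c0 : ℝ}
    (ha : ∀ e i : ℕ, c0 * (p : ℝ) ^ e ≤ i → a ^ i ≤ Ie p K (maximalIdeal R) P c e)
    (hb : ∀ e i : ℕ, c0 * (p : ℝ) ^ e ≤ i → b ^ i ≤ Ie p K (maximalIdeal R) P c e) (L : ℕ) :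
    Prp p K (maximalIdeal R) P c (2 * c0) L (midI a b L) := by
  intro e i hi
  refine (midI_pow a b L i).trans (iSup₂_le fun x hx => ?_)
  rw [HasAntidiagonal.mem_antidiagonal] at hx
  have h1 : (x.1 : ℝ) + x.2 = (L : ℝ) * i := by exact_mod_cast hx
  by_cases h2 : c0 * (p : ℝ) ^ e ≤ x.1
  · exact inf_le_left.trans (ha e x.1 h2)
  · refine inf_le_right.trans (hb e x.2 ?_)
    rw [not_le] at h2
    linarith

private theorem mid_arith {F N0 C0' L' E' : ℝ} (hN : 0 ≤ N0) (hC : 0 ≤ C0') (hL : 1 ≤ L')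
    (n : ℕ) (x : ℝ) (hx : F ≤ (n.factorial : ℝ) *
      (x + n * (E' * (N0 * L' + C0') ^ (n - 1)))) :
    F ≤ (n.factorial : ℝ) * x +
      (n.factorial : ℝ) * (n * (|E'| * (N0 + C0') ^ (n - 1))) * L' ^ (n - 1) := by
  refine hx.trans ?_
  have h1 : (N0 * L' + C0') ^ (n - 1) ≤ (N0 + C0') ^ (n - 1) * L' ^ (n - 1) := by
    rw [← mul_pow]
    refine pow_le_pow_left₀ (by positivity) ?_ _
    nlinarith
  have h2 : E' * (N0 * L' + C0') ^ (n - 1) ≤ |E'| * ((N0 + C0') ^ (n - 1) * L' ^ (n - 1)) :=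
    (mul_le_mul_of_nonneg_right (le_abs_self E') (by positivity)).trans
      (mul_le_mul_of_nonneg_left h1 (abs_nonneg _))
  have h3 : (n : ℝ) * (E' * (N0 * L' + C0') ^ (n - 1)) ≤
      n * (|E'| * ((N0 + C0') ^ (n - 1) * L' ^ (n - 1))) :=
    mul_le_mul_of_nonneg_left h2 (Nat.cast_nonneg _)
  calc (n.factorial : ℝ) * (x + n * (E' * (N0 * L' + C0') ^ (n - 1)))
      ≤ (n.factorial : ℝ) * (x + n * (|E'| * ((N0 + C0') ^ (n - 1) * L' ^ (n - 1)))) :=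
        mul_le_mul_of_nonneg_left (by linarith) (Nat.cast_nonneg _)
    _ = _ := by ring

include d in
/-- PROOF. `𝔪 ^ (N0 * L) ≤ a ^ L ≤ midI a b L` (`pow_le_midI`), `Dat.Fvol_mul_le` for
`B = N0 * L`, `Prp_midI`, and `N0 L + C0 ≤ (N0 + C0) L`. -/
theorem Dat.mid_bound (hS : SFR p K (maximalIdeal R) P c ⊤ 0)
    (hlim : ∀ I : Ideal R, IsPrim (maximalIdeal R) I → HSlim κ n I) {a b : Ideal R} {N0 : ℕ}
    (hN : maximalIdeal R ^ N0 ≤ a) {c0 : ℝ} (hc : 0 < c0)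
    (ha : ∀ e i : ℕ, c0 * (p : ℝ) ^ e ≤ i → a ^ i ≤ Ie p K (maximalIdeal R) P c e)
    (hb : ∀ e i : ℕ, c0 * (p : ℝ) ^ e ≤ i → b ^ i ≤ Ie p K (maximalIdeal R) P c e) {L : ℕ}
    (hL : 1 ≤ L) :
    FvolR κ n p K (maximalIdeal R) P c * ((L : ℝ) / (2 * c0)) ^ n ≤
      (n.factorial : ℝ) * finrank κ (R ⧸ midI a b L) +
      (n.factorial : ℝ) * (n * (|E| * ((N0 : ℝ) + C0) ^ (n - 1))) * (L : ℝ) ^ (n - 1) := by
  have hB : maximalIdeal R ^ (N0 * L) ≤ midI a b L := by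
    rw [pow_mul]
    exact (Ideal.pow_right_mono hN L).trans (pow_le_midI a b L)
  have h1 := d.Fvol_mul_le hS hlim hB (by positivity : (0 : ℝ) < 2 * c0) hL
    (Prp_midI ha hb L)
  refine mid_arith (Nat.cast_nonneg N0) (Nat.cast_nonneg C0) (by exact_mod_cast hL) n _ ?_
  push_cast at h1
  exact h1

include d in
/-- PROOF. `Dat.Fvol_mul_le` for `I = g`, `B = N0 * u`, `S = c0`, `m = u`. -/
theorem Dat.one_bound (hS : SFR p K (maximalIdeal R) P c ⊤ 0)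
    (hlim : ∀ I : Ideal R, IsPrim (maximalIdeal R) I → HSlim κ n I) {g : Ideal R} {N0 u : ℕ}
    (hN : maximalIdeal R ^ (N0 * u) ≤ g) {c0 : ℝ} (hc : 0 < c0) (hu : 1 ≤ u)
    (hg : Prp p K (maximalIdeal R) P c c0 u g) :
    FvolR κ n p K (maximalIdeal R) P c * ((u : ℝ) / c0) ^ n ≤
      (n.factorial : ℝ) * finrank κ (R ⧸ g) +
      (n.factorial : ℝ) * (n * (|E| * ((N0 : ℝ) + C0) ^ (n - 1))) * (u : ℝ) ^ (n - 1) := by
  have h1 := d.Fvol_mul_le hS hlim hN hc hu hg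
  refine mid_arith (Nat.cast_nonneg N0) (Nat.cast_nonneg C0) (by exact_mod_cast hu) n _ ?_
  push_cast at h1
  exact h1

end FU
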