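import Mathlib

/-!
# MP_9e8926_ag, block G: comparison of the sums
-/

set_option autoImplicit false

namespace FU

open Finset

private theorem reala_pow (a b : ℝ) (hb : 0 ≤ b) (hab : b ≤ a) (n : ℕ) :
    a ^ (n + 1) - b ^ (n + 1) ≤ (n + 1) * a ^ n * (a - b) := by
  induction n with
  | zero => simp
  | succ n ih =>
    have ha : 0 ≤ a := hb.trans hab
    have h1 : b ^ (n + 1) * (a - b) ≤ a ^ (n + 1) * (a - b) :=
      mul_le_mul_of_nonneg_right (pow_le_pow_left₀ hb hab _) (by linarith)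
    have h2 := mul_le_mul_of_nonneg_left ih ha
    have h3 : a ^ (n + 1 + 1) - b ^ (n + 1 + 1) =
        a * (a ^ (n + 1) - b ^ (n + 1)) + b ^ (n + 1) * (a - b) := by ring
    have h4 : ((n + 1 : ℕ) + 1 : ℝ) * a ^ (n + 1) * (a - b) =
        a * ((n + 1) * a ^ n * (a - b)) + a ^ (n + 1) * (a - b) := by
      push_cast
      ring
    rw [h3, h4]
    exact add_le_add h2 h1

private theorem reala_pair (f : ℕ → ℝ) (T : ℕ) : ∑ L ∈ Icc 1 (2 * T), f L =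
    ∑ i ∈ Icc 1 T, (f (2 * i - 1) + f (2 * i)) := by
  induction T with
  | zero => simp
  | succ T ih =>
    have h1 : 2 * (T + 1) = 2 * T + 1 + 1 := by ring
    rw [Finset.sum_Icc_succ_top (by omega), h1, Finset.sum_Icc_succ_top (by omega),
      Finset.sum_Icc_succ_top (by omega), ih]
    have h2 : 2 * T + 1 + 1 - 1 = 2 * T + 1 := by omega
    rw [h2, add_assoc]

private theorem reala_sum (T : ℕ) {f : ℕ → ℝ} {c : ℝ} (h : ∀ i ∈ Icc 1 T, f i ≤ c) :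
    ∑ i ∈ Icc 1 T, f i ≤ (T : ℝ) * c := by
  refine (Finset.sum_le_card_nsmul _ _ _ h).trans ?_
  rw [Nat.card_Icc, Nat.add_sub_cancel, nsmul_eq_mul]

/-- PROOF. `i ^ n - (i - 1/2) ^ n = 1/2 * ∑_{j < n} i ^ j (i - 1/2) ^ (n - 1 - j)
≤ n / 2 * i ^ (n - 1)` for `i ≥ 1` (`Commute.geom_sum₂_mul` or induction on `n`). -/
theorem half_pow_le (n i : ℕ) (hi : 1 ≤ i) :
    (i : ℝ) ^ n - ((i : ℝ) - 1 / 2) ^ n ≤ (n : ℝ) / 2 * (i : ℝ) ^ (n - 1) := by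
  have hi1 : (1 : ℝ) ≤ i := by exact_mod_cast hi
  rcases Nat.eq_zero_or_pos n with h | h
  · subst h
    simp
  · obtain ⟨m, rfl⟩ : ∃ m, n = m + 1 := ⟨n - 1, by omega⟩
    have h1 := reala_pow (i : ℝ) ((i : ℝ) - 1 / 2) (by linarith) (by linarith) m
    rw [Nat.add_sub_cancel]
    refine h1.trans (le_of_eq ?_)
    push_cast
    ring

/-- PROOF. The terms `L = 2 i - 1` and `L = 2 i`, `1 ≤ i ≤ T` (induction on `T` for a general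
function: `∑_{L ∈ Icc 1 (2 T)} f L = ∑_{i ∈ Icc 1 T} (f (2 i - 1) + f (2 i))`), of the second sum
are
` (4 (T - i) + 3) (i - 1/2) ^ n` and ` (4 (T - i) + 1) i ^ n`, and
`4 (2 (T - i) + 1) = (4 (T - i) + 3) + (4 (T - i) + 1)`. So the difference is
`∑_i (4 (T - i) + 3) (i ^ n - (i - 1/2) ^ n) ≤ T * (4 T) * (n / 2) T ^ (n - 1)`
(`half_pow_le`; `4 (T - i) + 3 ≤ 4 T` for `i ≥ 1`). -/
theorem sum_compare (n T : ℕ) (hn : 1 ≤ n) :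
    4 * ∑ i ∈ Icc 1 T, (2 * ((T : ℝ) - i) + 1) * (i : ℝ) ^ n -
      ∑ L ∈ Icc 1 (2 * T), (2 * (2 * (T : ℝ) - L) + 1) * ((L : ℝ) / 2) ^ n ≤
      2 * n * (T : ℝ) ^ (n + 1) := by
  obtain ⟨m, rfl⟩ : ∃ m, n = m + 1 := ⟨n - 1, by omega⟩
  rw [reala_pair, Finset.mul_sum, ← Finset.sum_sub_distrib]
  have h1 : ∀ i ∈ Icc 1 T, 4 * ((2 * ((T : ℝ) - i) + 1) * (i : ℝ) ^ (m + 1)) -
      ((2 * (2 * (T : ℝ) - (2 * i - 1 : ℕ)) + 1) * (((2 * i - 1 : ℕ) : ℝ) / 2) ^ (m + 1) +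
      (2 * (2 * (T : ℝ) - (2 * i : ℕ)) + 1) * (((2 * i : ℕ) : ℝ) / 2) ^ (m + 1)) ≤
      4 * T * ((m + 1 : ℕ) / 2 * (T : ℝ) ^ m) := by
    intro i hi
    rw [Finset.mem_Icc] at hi
    have hi1 : (1 : ℝ) ≤ i := by exact_mod_cast hi.1
    have hi2 : (i : ℝ) ≤ T := by exact_mod_cast hi.2
    have e1 : ((2 * i - 1 : ℕ) : ℝ) = 2 * i - 1 := by
      rw [Nat.cast_sub (by omega)]
      push_cast
      ring
    have e2 : ((2 * i : ℕ) : ℝ) = 2 * i := by push_cast; ring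
    have e3 : (2 * (i : ℝ) - 1) / 2 = i - 1 / 2 := by ring
    have e4 : (2 * (i : ℝ)) / 2 = i := by ring
    rw [e1, e2, e3, e4]
    have h2 := half_pow_le (m + 1) i hi.1
    rw [Nat.add_sub_cancel] at h2
    have h3 : (((m + 1 : ℕ) : ℝ) / 2) * (i : ℝ) ^ m ≤ ((m + 1 : ℕ) : ℝ) / 2 * (T : ℝ) ^ m :=
      mul_le_mul_of_nonneg_left (pow_le_pow_left₀ (by linarith) hi2 m) (by positivity)
    have h4 : 0 ≤ 4 * ((T : ℝ) - i) + 3 := by linarith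
    have h5 : 4 * ((T : ℝ) - i) + 3 ≤ 4 * T := by linarith
    have h6 : (4 * ((T : ℝ) - i) + 3) * ((i : ℝ) ^ (m + 1) - ((i : ℝ) - 1 / 2) ^ (m + 1)) ≤
        (4 * ((T : ℝ) - i) + 3) * (((m + 1 : ℕ) : ℝ) / 2 * (T : ℝ) ^ m) :=
      mul_le_mul_of_nonneg_left (h2.trans h3) h4
    have h7 : (4 * ((T : ℝ) - i) + 3) * (((m + 1 : ℕ) : ℝ) / 2 * (T : ℝ) ^ m) ≤
        4 * T * (((m + 1 : ℕ) : ℝ) / 2 * (T : ℝ) ^ m) :=
      mul_le_mul_of_nonneg_right h5 (by positivity)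
    refine le_trans (le_of_eq ?_) (h6.trans h7)
    ring
  refine (reala_sum T h1).trans (le_of_eq ?_)
  ring

/-- PROOF. Write `F = n!`. By `h1` and `h2` the bracket in `h3`, multiplied by `F`, is at most
`4 ∑_i (2 (T - i) + 1) ((V' + ε) (i / c0) ^ n + C) -
∑_L (2 (2 T - L) + 1) (V' (L / (2 c0)) ^ n - C L ^ (n - 1))`, that is
` (V' / c0 ^ n) * (4 ∑_i (2 (T - i) + 1) i ^ n - ∑_L (2 (2 T - L) + 1) (L / 2) ^ n)
+ 4 (ε / c0 ^ n) ∑_i (2 (T - i) + 1) i ^ n + 4 C ∑_i (2 (T - i) + 1)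
+ C ∑_L (2 (2 T - L) + 1) L ^ (n - 1)`.
Use `sum_compare` for the first term, and for the others the bounds
`∑_i (2 (T - i) + 1) i ^ n ≤ T * 2 T * T ^ n`, `∑_i (2 (T - i) + 1) ≤ 2 T ^ 2 ≤ 2 T ^ (n + 1)`,
`∑_L (2 (2 T - L) + 1) L ^ (n - 1) ≤ 2 T * 4 T * (2 T) ^ (n - 1) = 2 ^ (n + 2) T ^ (n + 1)`.
By `h1` the factor `F x_T` is at most ` ((V' + ε) / c0 ^ n + C / T) T ^ n`. If the bracket is
negative the square is zero or negative, which is fine: the claim only needs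
`F ^ 2 (∑ s) ^ 2 ≤ (F x_T) * max 0 (F bracket)`. -/
theorem sq_sum_le {n : ℕ} (hn : 1 ≤ n) {V' ε c0 C : ℝ} (hV' : 0 ≤ V') (hε : 0 < ε) (hc : 0 < c0)
    (hC : 0 ≤ C) {x M s : ℕ → ℝ} (hx : ∀ i, 0 ≤ x i)
    (h1 : ∀ i, (n.factorial : ℝ) * x i ≤ (V' + ε) * ((i : ℝ) / c0) ^ n + C)
    (h2 : ∀ L : ℕ, 1 ≤ L → V' * ((L : ℝ) / (2 * c0)) ^ n ≤
      (n.factorial : ℝ) * M L + C * (L : ℝ) ^ (n - 1)) {T : ℕ} (hT : 1 ≤ T)
    (h3 : (∑ u ∈ Icc 1 T, s u) ^ 2 ≤ x T *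
      (2 * ∑ i ∈ Icc 1 T, (2 * ((T : ℝ) - i) + 1) * (x i + x i) -
        ∑ L ∈ Icc 1 (2 * T), (2 * (2 * (T : ℝ) - L) + 1) * M L)) :
    (∑ u ∈ Icc 1 T, (n.factorial : ℝ) * s u) ^ 2 ≤
      ((T : ℝ) ^ (n + 1)) ^ 2 * (((V' + ε) / c0 ^ n + C / T) *
        (8 * ε / c0 ^ n + (2 * n * V' / c0 ^ n + 8 * C + 2 ^ (n + 2) * C) / T)) := by
  have hT1 : (1 : ℝ) ≤ T := by exact_mod_cast hT
  have hT0 : (0 : ℝ) < T := by linarith
  have hcn : 0 < c0 ^ n := pow_pos hc n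
  have hF : (0 : ℝ) < n.factorial := by exact_mod_cast n.factorial_pos
  obtain ⟨F, hFd⟩ : ∃ F : ℝ, F = n.factorial := ⟨_, rfl⟩
  rw [← hFd] at hF h1 h2 ⊢
  obtain ⟨B, hB⟩ : ∃ B : ℝ, B = 2 * ∑ i ∈ Icc 1 T, (2 * ((T : ℝ) - i) + 1) * (x i + x i) -
      ∑ L ∈ Icc 1 (2 * T), (2 * (2 * (T : ℝ) - L) + 1) * M L := ⟨_, rfl⟩
  rw [← hB] at h3
  obtain ⟨P1, hP1⟩ : ∃ P1 : ℝ, P1 = (V' + ε) / c0 ^ n + C / T := ⟨_, rfl⟩
  obtain ⟨P2, hP2⟩ : ∃ P2 : ℝ, P2 = 8 * ε / c0 ^ n +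
      (2 * n * V' / c0 ^ n + 8 * C + 2 ^ (n + 2) * C) / T := ⟨_, rfl⟩
  rw [← hP1, ← hP2]
  have hP20 : 0 ≤ P2 := by
    rw [hP2]
    positivity
  have hTn : (T : ℝ) ≤ (T : ℝ) ^ n := le_self_pow₀ hT1 (by omega)
  have hxT : F * x T ≤ (T : ℝ) ^ n * P1 := by
    refine (h1 T).trans ?_
    rw [hP1, mul_add, div_pow]
    have e1 : C ≤ (T : ℝ) ^ n * (C / T) := by
      rw [mul_div_assoc', le_div_iff₀ hT0, mul_comm]
      exact mul_le_mul_of_nonneg_right hTn hC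
    have e2 : (V' + ε) * ((T : ℝ) ^ n / c0 ^ n) = (T : ℝ) ^ n * ((V' + ε) / c0 ^ n) := by ring
    rw [e2]
    linarith
  have hS1 : ∑ i ∈ Icc 1 T, (2 * ((T : ℝ) - i) + 1) * (i : ℝ) ^ n ≤
      T * (2 * T * (T : ℝ) ^ n) := by
    refine reala_sum T fun i hi => ?_
    rw [Finset.mem_Icc] at hi
    have hi1 : (1 : ℝ) ≤ i := by exact_mod_cast hi.1
    have hi2 : (i : ℝ) ≤ T := by exact_mod_cast hi.2
    exact mul_le_mul (by linarith) (pow_le_pow_left₀ (by linarith) hi2 n) (by positivity)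
      (by positivity)
  have hS2 : ∑ i ∈ Icc 1 T, (2 * ((T : ℝ) - i) + 1) ≤ T * (2 * T) := by
    refine reala_sum T fun i hi => ?_
    rw [Finset.mem_Icc] at hi
    have hi1 : (1 : ℝ) ≤ i := by exact_mod_cast hi.1
    linarith
  have hS3 : ∑ L ∈ Icc 1 (2 * T), (2 * (2 * (T : ℝ) - L) + 1) * (L : ℝ) ^ (n - 1) ≤
      ((2 * T : ℕ) : ℝ) * (4 * T * (2 * T) ^ (n - 1)) := by
    refine reala_sum (2 * T) fun i hi => ?_
    rw [Finset.mem_Icc] at hi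
    have hi1 : (1 : ℝ) ≤ i := by exact_mod_cast hi.1
    have hi2 : (i : ℝ) ≤ 2 * T := by exact_mod_cast hi.2
    exact mul_le_mul (by linarith) (pow_le_pow_left₀ (by linarith) hi2 _) (by positivity)
      (by positivity)
  have hFB : F * B ≤ (T : ℝ) ^ (n + 2) * P2 := by
    have e1 : 4 * ∑ i ∈ Icc 1 T, (2 * ((T : ℝ) - i) + 1) * (F * x i) ≤
        4 * ∑ i ∈ Icc 1 T, (2 * ((T : ℝ) - i) + 1) * ((V' + ε) * ((i : ℝ) / c0) ^ n + C) := by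
      refine mul_le_mul_of_nonneg_left (Finset.sum_le_sum fun i hi => ?_) (by norm_num)
      rw [Finset.mem_Icc] at hi
      have hi2 : (i : ℝ) ≤ T := by exact_mod_cast hi.2
      exact mul_le_mul_of_nonneg_left (h1 i) (by linarith)
    have e2 : ∑ L ∈ Icc 1 (2 * T), (2 * (2 * (T : ℝ) - L) + 1) *
        (V' * ((L : ℝ) / (2 * c0)) ^ n - C * (L : ℝ) ^ (n - 1)) ≤
        ∑ L ∈ Icc 1 (2 * T), (2 * (2 * (T : ℝ) - L) + 1) * (F * M L) := by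
      refine Finset.sum_le_sum fun i hi => ?_
      rw [Finset.mem_Icc] at hi
      have hi2 : (i : ℝ) ≤ 2 * T := by exact_mod_cast hi.2
      refine mul_le_mul_of_nonneg_left ?_ (by linarith)
      linarith [h2 i hi.1]
    have e3 : F * B = 4 * ∑ i ∈ Icc 1 T, (2 * ((T : ℝ) - i) + 1) * (F * x i) -
        ∑ L ∈ Icc 1 (2 * T), (2 * (2 * (T : ℝ) - L) + 1) * (F * M L) := by
      rw [hB, mul_sub, Finset.mul_sum, Finset.mul_sum, Finset.mul_sum, Finset.mul_sum]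
      refine congrArg₂ (fun a b => a - b) (Finset.sum_congr rfl fun i _ => by ring)
        (Finset.sum_congr rfl fun i _ => by ring)
    have e4 : ∑ i ∈ Icc 1 T, (2 * ((T : ℝ) - i) + 1) * ((V' + ε) * ((i : ℝ) / c0) ^ n + C) =
        (V' + ε) / c0 ^ n * ∑ i ∈ Icc 1 T, (2 * ((T : ℝ) - i) + 1) * (i : ℝ) ^ n +
        C * ∑ i ∈ Icc 1 T, (2 * ((T : ℝ) - i) + 1) := by
      rw [Finset.mul_sum, Finset.mul_sum, ← Finset.sum_add_distrib]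
      refine Finset.sum_congr rfl fun i _ => ?_
      rw [div_pow]
      ring
    have e5 : ∑ L ∈ Icc 1 (2 * T), (2 * (2 * (T : ℝ) - L) + 1) *
        (V' * ((L : ℝ) / (2 * c0)) ^ n - C * (L : ℝ) ^ (n - 1)) =
        V' / c0 ^ n * ∑ L ∈ Icc 1 (2 * T), (2 * (2 * (T : ℝ) - L) + 1) * ((L : ℝ) / 2) ^ n -
        C * ∑ L ∈ Icc 1 (2 * T), (2 * (2 * (T : ℝ) - L) + 1) * (L : ℝ) ^ (n - 1) := by
      rw [Finset.mul_sum, Finset.mul_sum, ← Finset.sum_sub_distrib]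
      refine Finset.sum_congr rfl fun L _ => ?_
      have e6 : (L : ℝ) / (2 * c0) = (L : ℝ) / 2 / c0 := by
        rw [div_div]
      rw [e6, div_pow ((L : ℝ) / 2) c0]
      ring
    rw [e4] at e1
    rw [e5] at e2
    have e6 := mul_le_mul_of_nonneg_left (sum_compare n T hn)
      (div_nonneg hV' hcn.le : 0 ≤ V' / c0 ^ n)
    have e7 := mul_le_mul_of_nonneg_left hS1 (div_nonneg hε.le hcn.le : 0 ≤ ε / c0 ^ n)
    have e8 := mul_le_mul_of_nonneg_left hS2 hC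
    have e9 := mul_le_mul_of_nonneg_left hS3 hC
    obtain ⟨A1, hA1⟩ : ∃ A1 : ℝ, A1 = ∑ i ∈ Icc 1 T, (2 * ((T : ℝ) - i) + 1) * (i : ℝ) ^ n :=
      ⟨_, rfl⟩
    obtain ⟨A2, hA2⟩ : ∃ A2 : ℝ, A2 = ∑ L ∈ Icc 1 (2 * T), (2 * (2 * (T : ℝ) - L) + 1) *
      ((L : ℝ) / 2) ^ n := ⟨_, rfl⟩
    rw [← hA1] at e1 e6 e7
    rw [← hA2] at e2 e6
    obtain ⟨v, hv⟩ : ∃ v : ℝ, v = V' / c0 ^ n := ⟨_, rfl⟩
    obtain ⟨u, hu⟩ : ∃ u : ℝ, u = ε / c0 ^ n := ⟨_, rfl⟩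
    have e10 : (V' + ε) / c0 ^ n = v + u := by
      rw [hv, hu, add_div]
    rw [e10] at e1
    rw [← hv] at e2 e6
    rw [← hu] at e7
    have e11 : (T : ℝ) ^ (n + 2) * P2 = 8 * u * (T : ℝ) ^ (n + 2) +
        (2 * n * v + 8 * C + 2 ^ (n + 2) * C) * (T : ℝ) ^ (n + 1) := by
      have e12 : P2 = 8 * u + (2 * n * v + 8 * C + 2 ^ (n + 2) * C) / T := by
        rw [hP2, hu, hv]
        ring
      rw [e12, mul_add, mul_div_assoc', pow_succ (T : ℝ) (n + 1)]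
      field_simp
    have e12 : C * (((2 * T : ℕ) : ℝ) * (4 * T * (2 * T) ^ (n - 1))) =
        2 ^ (n + 2) * C * (T : ℝ) ^ (n + 1) := by
      obtain ⟨m, rfl⟩ : ∃ m, n = m + 1 := ⟨n - 1, by omega⟩
      rw [Nat.add_sub_cancel]
      push_cast
      ring
    have e13 : C * ((T : ℝ) * (2 * T)) ≤ 2 * C * (T : ℝ) ^ (n + 1) := by
      have e14 : (T : ℝ) ^ 2 ≤ (T : ℝ) ^ (n + 1) := pow_le_pow_right₀ hT1 (by omega)
      nlinarith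
    have e14 : u * ((T : ℝ) * (2 * T * (T : ℝ) ^ n)) = 2 * u * (T : ℝ) ^ (n + 2) := by ring
    rw [e3, e11]
    rw [e12] at e9
    rw [e14] at e7
    linarith
  have hFx : 0 ≤ F * x T := mul_nonneg hF.le (hx T)
  calc (∑ u ∈ Icc 1 T, F * s u) ^ 2 = F ^ 2 * (∑ u ∈ Icc 1 T, s u) ^ 2 := by
        rw [← Finset.mul_sum, mul_pow]
    _ ≤ F ^ 2 * (x T * B) := mul_le_mul_of_nonneg_left h3 (sq_nonneg F)
    _ = (F * x T) * (F * B) := by ring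
    _ ≤ (F * x T) * ((T : ℝ) ^ (n + 2) * P2) := mul_le_mul_of_nonneg_left hFB hFx
    _ ≤ ((T : ℝ) ^ n * P1) * ((T : ℝ) ^ (n + 2) * P2) :=
        mul_le_mul_of_nonneg_right hxT (by positivity)
    _ = ((T : ℝ) ^ (n + 1)) ^ 2 * (P1 * P2) := by ring

end FU
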