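import Mathlib

/-!
# MP_9e8926_ag, block G: a finite inequality for arrays with nonnegative second differences
-/

set_option autoImplicit false

namespace FU

open Finset

/-- The second differences of `D`. -/
def sd (D : ℕ → ℕ → ℝ) (f g : ℕ) : ℝ := D f g - D (f + 1) g - D f (g + 1) + D (f + 1) (g + 1)

variable {D : ℕ → ℕ → ℝ} {T : ℕ}

/-- Telescoping (two times `Finset.sum_range_sub'`). -/
theorem sum_sd (D : ℕ → ℕ → ℝ) (a b : ℕ) :
    ∑ f ∈ range a, ∑ g ∈ range b, sd D f g = D 0 0 - D a 0 - D 0 b + D a b := by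
  have inner : ∀ f b, ∑ g ∈ range b, sd D f g = D f 0 - D f b - (D (f + 1) 0 - D (f + 1) b) := by
    intro f b
    induction b with
    | zero => simp
    | succ b ih =>
      rw [sum_range_succ, ih, sd]
      ring
  induction a with
  | zero => simp
  | succ a ih =>
    rw [sum_range_succ, ih, inner]
    ring

/-- `∑_{f < i} ∑_{g ≤ T} sd = D 0 0 - D i 0`. -/
theorem sum_sd_row (h1 : ∀ v, D (T + 1) v = 0) (h2 : ∀ u, D u (T + 1) = 0) (i : ℕ) :
    ∑ f ∈ range i, ∑ g ∈ range (T + 1), sd D f g = D 0 0 - D i 0 := by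
  rw [sum_sd, h2, h2]
  ring

theorem sum_sd_col (h1 : ∀ v, D (T + 1) v = 0) (h2 : ∀ u, D u (T + 1) = 0) (i : ℕ) :
    ∑ f ∈ range (T + 1), ∑ g ∈ range i, sd D f g = D 0 0 - D 0 i := by
  rw [sum_sd, h1, h1]
  ring

/-- `∑_{u ≤ f ≤ T} ∑_{g < u} sd = D u 0 - D u u` for `u ≤ T + 1` (`Finset.sum_Ico_sub`-type
telescoping; from `sum_sd` for `a = T + 1` and `a = u`). -/
theorem sum_sd_rect (h1 : ∀ v, D (T + 1) v = 0) (u : ℕ) (hu : u ≤ T + 1) :
    ∑ f ∈ Ico u (T + 1), ∑ g ∈ range u, sd D f g = D u 0 - D u u := by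
  rw [sum_Ico_eq_sub _ hu, sum_sd, sum_sd, h1, h1]
  ring

/-- `∑_{1 ≤ i ≤ T, f < i} (2 (T - i) + 1) = (T - f)^2` for `f ≤ T`. -/
theorem sum_odd_sq (T f : ℕ) (hf : f ≤ T) :
    ∑ i ∈ Icc 1 T, (if f < i then (2 * ((T : ℝ) - i) + 1) else 0) = ((T : ℝ) - f) ^ 2 := by
  have key : ∀ n, f ≤ n → ∑ i ∈ Icc 1 n, (if f < i then (2 * ((T : ℝ) - i) + 1) else 0) =
      ((T : ℝ) - f) ^ 2 - ((T : ℝ) - n) ^ 2 := by
    intro n hn
    induction n, hn using Nat.le_induction with
    | base =>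
      rw [sub_self]
      refine sum_eq_zero fun i hi => ?_
      rw [if_neg (not_lt.2 (mem_Icc.1 hi).2)]
    | succ n hn ih =>
      rw [sum_Icc_succ_top (by omega), ih, if_pos (by omega)]
      push_cast
      ring
  rw [key T hf]
  ring

/-- The main inequality.

PROOF. Write `N = sd D`, all sums over `f, g ∈ range (T + 1)`.
(a) `∑_{u ∈ Icc 1 T} (D u 0 - D u u) = ∑_{f, g} N f g * max (f - g) 0` by `sum_sd_rect` and
`∑_{u ∈ Icc 1 T} [g < u ≤ f] = f - g` for `g ≤ f ≤ T`.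
(b) Cauchy-Schwarz with the weights `N f g ≥ 0`, restricted to `g ≤ T - 1` (for `g = T` the factor
`max (f - g) 0` is zero): the square of (a) is at most
` (∑_{f, g < T} N f g) * ∑_{f, g} N f g (f - g)^2`, and the first factor is `D 0 0 - D 0 T`
(`sum_sd_col`).
(c) ` (f - g)^2 = 2 (T - f)^2 + 2 (T - g)^2 - (2 T - f - g)^2`;
`∑ N f g (T - f)^2 = ∑_{i ∈ Icc 1 T} (2 (T - i) + 1) * ∑_{f < i, g} N f g` (`sum_odd_sq`)
` = ∑_i (2 (T - i) + 1) (D 0 0 - D i 0)` (`sum_sd_row`), the same for `g`, and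
`∑ N f g (2 T - f - g)^2 = ∑_{L ∈ Icc 1 (2 T)} (2 (2 T - L) + 1) ∑_{f + g < L} N f g`
(`sum_odd_sq` for `2 T`), which is at least `∑_L (2 (2 T - L) + 1) m L` by the hypothesis `hm`. -/
theorem arr_main (hN : ∀ f g, 0 ≤ sd D f g) (h1 : ∀ v, D (T + 1) v = 0)
    (h2 : ∀ u, D u (T + 1) = 0) (m : ℕ → ℝ)
    (hm : ∀ L ∈ Icc 1 (2 * T), m L ≤ ∑ f ∈ range (T + 1), ∑ g ∈ range (T + 1),
      if f + g < L then sd D f g else 0) :
    (∑ u ∈ Icc 1 T, (D u 0 - D u u)) ^ 2 ≤ (D 0 0 - D 0 T) *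
      (2 * ∑ i ∈ Icc 1 T, (2 * ((T : ℝ) - i) + 1) * ((D 0 0 - D i 0) + (D 0 0 - D 0 i)) -
        ∑ L ∈ Icc 1 (2 * T), (2 * (2 * (T : ℝ) - L) + 1) * m L) := by
  have hA : ∑ u ∈ Icc 1 T, (D u 0 - D u u) =
      ∑ f ∈ range (T + 1), ∑ g ∈ range (T + 1), sd D f g * ((f - g : ℕ) : ℝ) := by
    have e1 : ∀ u ∈ Icc 1 T, D u 0 - D u u = ∑ f ∈ range (T + 1), ∑ g ∈ range (T + 1),
        sd D f g * (if g < u ∧ u ≤ f then 1 else 0) := by
      intro u hu
      have hu2 := mem_Icc.1 hu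
      rw [← sum_sd_rect h1 u (by omega)]
      have e2 : Ico u (T + 1) = (range (T + 1)).filter (fun f => u ≤ f) := by
        ext f
        simp only [mem_Ico, mem_filter, mem_range]
        tauto
      rw [e2, sum_filter]
      refine sum_congr rfl fun f hf => ?_
      split_ifs with hf2
      · have e3 : range u = (range (T + 1)).filter (fun g => g < u) := by
          ext g
          simp only [mem_filter, mem_range]
          omega
        rw [e3, sum_filter]
        refine sum_congr rfl fun g hg => ?_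
        by_cases hg2 : g < u
        · rw [if_pos hg2, if_pos ⟨hg2, hf2⟩, mul_one]
        · rw [if_neg hg2, if_neg (fun h => hg2 h.1), mul_zero]
      · symm
        refine sum_eq_zero fun g hg => ?_
        rw [if_neg (fun h => hf2 h.2), mul_zero]
    rw [sum_congr rfl e1, sum_comm]
    refine sum_congr rfl fun f hf => ?_
    rw [sum_comm]
    refine sum_congr rfl fun g hg => ?_
    rw [← mul_sum, sum_boole]
    congr 2
    have e4 : (Icc 1 T).filter (fun u => g < u ∧ u ≤ f) = Ioc g f := by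
      ext u
      simp only [mem_filter, mem_Icc, mem_Ioc]
      have := mem_range.1 hf
      omega
    rw [e4, Nat.card_Ioc]
  have hB : (∑ u ∈ Icc 1 T, (D u 0 - D u u)) ^ 2 ≤ (D 0 0 - D 0 T) *
      ∑ f ∈ range (T + 1), ∑ g ∈ range (T + 1), sd D f g * ((f : ℝ) - g) ^ 2 := by
    have hA2 : ∑ f ∈ range (T + 1), ∑ g ∈ range (T + 1), sd D f g * ((f - g : ℕ) : ℝ) =
        ∑ f ∈ range (T + 1), ∑ g ∈ range T, sd D f g * ((f - g : ℕ) : ℝ) := by
      refine sum_congr rfl fun f hf => ?_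
      rw [sum_range_succ]
      have hfT : f - T = 0 := by
        have := mem_range.1 hf
        omega
      rw [hfT, Nat.cast_zero, mul_zero, add_zero]
    rw [hA, hA2, ← sum_sd_col h1 h2 T, ← sum_product', ← sum_product', ← sum_product']
    have hcs := sum_sq_le_sum_mul_sum_of_sq_le_mul (range (T + 1) ×ˢ range T)
      (r := fun x => sd D x.1 x.2 * ((x.1 - x.2 : ℕ) : ℝ)) (f := fun x => sd D x.1 x.2)
      (g := fun x => sd D x.1 x.2 * ((x.1 - x.2 : ℕ) : ℝ) ^ 2)
      (fun x _ => hN _ _) (fun x _ => mul_nonneg (hN _ _) (sq_nonneg _))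
      (fun x _ => le_of_eq (by ring))
    refine hcs.trans ?_
    refine mul_le_mul_of_nonneg_left ?_ (sum_nonneg fun x _ => hN _ _)
    have hsub : range (T + 1) ×ˢ range T ⊆ range (T + 1) ×ˢ range (T + 1) := by
      refine product_subset_product_right ?_
      exact range_subset_range.2 (Nat.le_succ T)
    refine le_trans ?_ (sum_le_sum_of_subset_of_nonneg hsub
      fun x _ _ => mul_nonneg (hN _ _) (sq_nonneg _))
    refine sum_le_sum fun x _ => mul_le_mul_of_nonneg_left ?_ (hN _ _)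
    rcases le_total x.2 x.1 with h | h
    · rw [Nat.cast_sub h]
    · rw [Nat.sub_eq_zero_of_le h, Nat.cast_zero]
      nlinarith [sq_nonneg ((x.1 : ℝ) - x.2)]
  have hF : ∑ f ∈ range (T + 1), ∑ g ∈ range (T + 1), sd D f g * ((T : ℝ) - f) ^ 2 =
      ∑ i ∈ Icc 1 T, (2 * ((T : ℝ) - i) + 1) * (D 0 0 - D i 0) := by
    have e1 : ∀ f ∈ range (T + 1), ∑ g ∈ range (T + 1), sd D f g * ((T : ℝ) - f) ^ 2 =
        ∑ i ∈ Icc 1 T, (2 * ((T : ℝ) - i) + 1) *
          (if f < i then ∑ g ∈ range (T + 1), sd D f g else 0) := by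
      intro f hf
      rw [← sum_mul, ← sum_odd_sq T f (by have := mem_range.1 hf; omega), mul_sum]
      refine sum_congr rfl fun i _ => ?_
      split_ifs
      · ring
      · ring
    rw [sum_congr rfl e1, sum_comm]
    refine sum_congr rfl fun i hi => ?_
    rw [← mul_sum, ← sum_sd_row h1 h2 i, ← sum_filter]
    congr 2
    ext f
    have := mem_Icc.1 hi
    simp only [mem_filter, mem_range]
    omega
  have hG : ∑ f ∈ range (T + 1), ∑ g ∈ range (T + 1), sd D f g * ((T : ℝ) - g) ^ 2 =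
      ∑ i ∈ Icc 1 T, (2 * ((T : ℝ) - i) + 1) * (D 0 0 - D 0 i) := by
    rw [sum_comm]
    have e1 : ∀ g ∈ range (T + 1), ∑ f ∈ range (T + 1), sd D f g * ((T : ℝ) - g) ^ 2 =
        ∑ i ∈ Icc 1 T, (2 * ((T : ℝ) - i) + 1) *
          (if g < i then ∑ f ∈ range (T + 1), sd D f g else 0) := by
      intro g hg
      rw [← sum_mul, ← sum_odd_sq T g (by have := mem_range.1 hg; omega), mul_sum]
      refine sum_congr rfl fun i _ => ?_
      split_ifs
      · ring
      · ring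
    rw [sum_congr rfl e1, sum_comm]
    refine sum_congr rfl fun i hi => ?_
    rw [← mul_sum, ← sum_sd_col h1 h2 i, ← sum_filter, sum_comm (s := range (T + 1))
      (t := range i)]
    congr 2
    ext g
    have := mem_Icc.1 hi
    simp only [mem_filter, mem_range]
    omega
  have hL : ∑ L ∈ Icc 1 (2 * T), (2 * (2 * (T : ℝ) - L) + 1) * m L ≤
      ∑ f ∈ range (T + 1), ∑ g ∈ range (T + 1), sd D f g * (2 * (T : ℝ) - f - g) ^ 2 := by
    have e1 : ∀ f ∈ range (T + 1), ∀ g ∈ range (T + 1), sd D f g * (2 * (T : ℝ) - f - g) ^ 2 =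
        ∑ L ∈ Icc 1 (2 * T), (2 * (2 * (T : ℝ) - L) + 1) *
          (if f + g < L then sd D f g else 0) := by
      intro f hf g hg
      have h3 := sum_odd_sq (2 * T) (f + g) (by
        have := mem_range.1 hf
        have := mem_range.1 hg
        omega)
      push_cast at h3
      have h4 : (2 * (T : ℝ) - f - g) ^ 2 = (2 * (T : ℝ) - (f + g)) ^ 2 := by ring
      rw [h4, ← h3, mul_sum]
      refine sum_congr rfl fun L _ => ?_
      split_ifs
      · ring
      · ring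
    rw [sum_congr rfl fun f hf => sum_congr rfl fun g hg => e1 f hf g hg]
    have e2 : ∑ f ∈ range (T + 1), ∑ g ∈ range (T + 1), ∑ L ∈ Icc 1 (2 * T),
        (2 * (2 * (T : ℝ) - L) + 1) * (if f + g < L then sd D f g else 0) =
        ∑ L ∈ Icc 1 (2 * T), (2 * (2 * (T : ℝ) - L) + 1) * ∑ f ∈ range (T + 1),
          ∑ g ∈ range (T + 1), (if f + g < L then sd D f g else 0) := by
      simp only [mul_sum]
      rw [sum_congr rfl fun f _ => sum_comm, sum_comm]
    rw [e2]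
    refine sum_le_sum fun L hL => mul_le_mul_of_nonneg_left (hm L hL) ?_
    have h5 : (L : ℝ) ≤ 2 * T := by
      have := (mem_Icc.1 hL).2
      exact_mod_cast this
    linarith
  refine hB.trans (mul_le_mul_of_nonneg_left ?_ ?_)
  · have e3 : ∑ f ∈ range (T + 1), ∑ g ∈ range (T + 1), sd D f g * ((f : ℝ) - g) ^ 2 =
        2 * ∑ f ∈ range (T + 1), ∑ g ∈ range (T + 1), sd D f g * ((T : ℝ) - f) ^ 2 +
        2 * ∑ f ∈ range (T + 1), ∑ g ∈ range (T + 1), sd D f g * ((T : ℝ) - g) ^ 2 -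
        ∑ f ∈ range (T + 1), ∑ g ∈ range (T + 1), sd D f g * (2 * (T : ℝ) - f - g) ^ 2 := by
      simp only [mul_sum, ← sum_add_distrib, ← sum_sub_distrib]
      refine sum_congr rfl fun f _ => sum_congr rfl fun g _ => ?_
      ring
    rw [e3, hF, hG]
    have e4 : 2 * ∑ i ∈ Icc 1 T, (2 * ((T : ℝ) - i) + 1) * ((D 0 0 - D i 0) + (D 0 0 - D 0 i)) =
        2 * ∑ i ∈ Icc 1 T, (2 * ((T : ℝ) - i) + 1) * (D 0 0 - D i 0) +
        2 * ∑ i ∈ Icc 1 T, (2 * ((T : ℝ) - i) + 1) * (D 0 0 - D 0 i) := by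
      rw [← mul_add, ← sum_add_distrib]
      congr 1
      refine sum_congr rfl fun i _ => ?_
      ring
    rw [e4]
    linarith
  · rw [← sum_sd_col h1 h2 T]
    exact sum_nonneg fun f _ => sum_nonneg fun g _ => hN _ _

end FU
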