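import Pool.Agent.Lib.MP_9e8926_ag_G.TwoA

/-!
# MP_9e8926_ag, block G: two filtrations of a vector space
-/

set_option autoImplicit false

namespace FU

open Finset Module

variable {k V : Type*} [Field k] [AddCommGroup V] [Module k V] [Module.Finite k V]

/-- The filtration `F`, cut off after `T`. -/
def cut (F : ℕ → Submodule k V) (T u : ℕ) : Submodule k V := if u ≤ T then F u else ⊥

/-- The dimensions of the intersections. -/
noncomputable def dFG (F G : ℕ → Submodule k V) (u v : ℕ) : ℝ :=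
  (finrank k (F u ⊓ G v : Submodule k V) : ℝ)

theorem cut_anti {F : ℕ → Submodule k V} (hF : Antitone F) (T : ℕ) : Antitone (cut F T) := by
  intro u v h
  unfold cut
  by_cases hv : v ≤ T
  · rw [if_pos hv, if_pos (h.trans hv)]
    exact hF h
  · rw [if_neg hv]
    exact bot_le

/-- The dimension formula over `ℝ`. -/
private theorem twob_dim (A B : Submodule k V) :
    (finrank k (A ⊔ B : Submodule k V) : ℝ) + finrank k (A ⊓ B : Submodule k V) =
      finrank k A + finrank k B := by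
  exact_mod_cast Submodule.finrank_sup_add_finrank_inf_eq A B

private theorem twob_mono {A B : Submodule k V} (h : A ≤ B) :
    (finrank k A : ℝ) ≤ finrank k B := by
  exact_mod_cast Submodule.finrank_mono h

private theorem twob_quot (A : Submodule k V) :
    (finrank k (V ⧸ A) : ℝ) = finrank k V - finrank k A := by
  have h := Submodule.finrank_quotient_add_finrank A
  have h2 : (finrank k (V ⧸ A) : ℝ) + finrank k A = finrank k V := by exact_mod_cast h
  linarith

/-- `F_{u+1} ⊓ G_v` and `F_u ⊓ G_{v+1}` are in `F_u ⊓ G_v`, their intersection is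
`F_{u+1} ⊓ G_{v+1}`: `Submodule.finrank_sup_add_finrank_inf_eq`. -/
theorem sd_dFG_nonneg {F G : ℕ → Submodule k V} (hF : Antitone F) (hG : Antitone G) (u v : ℕ) :
    0 ≤ sd (dFG F G) u v := by
  have h1 := twob_dim (F (u + 1) ⊓ G v) (F u ⊓ G (v + 1))
  have h2 : F (u + 1) ⊓ G v ⊓ (F u ⊓ G (v + 1)) = F (u + 1) ⊓ G (v + 1) := by
    have h3 := hF (Nat.le_succ u)
    have h4 := hG (Nat.le_succ v)
    refine le_antisymm (le_inf ?_ ?_) (le_inf (le_inf ?_ ?_) (le_inf ?_ ?_))
    · exact inf_le_left.trans inf_le_left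
    · exact inf_le_right.trans inf_le_right
    · exact inf_le_left
    · exact inf_le_right.trans h4
    · exact inf_le_left.trans h3
    · exact inf_le_right
  have h3 : F (u + 1) ⊓ G v ⊔ F u ⊓ G (v + 1) ≤ F u ⊓ G v :=
    sup_le (inf_le_inf_right _ (hF (Nat.le_succ u))) (inf_le_inf_left _ (hG (Nat.le_succ v)))
  have h4 := twob_mono h3
  rw [h2] at h1
  unfold sd dFG
  linarith

/-- For `w ≤ T + 1` with `G_{0} = ⊤`:
`dim F_u / (F_{u+1} + F_u ∩ G_w) = ∑_{v < w} sd u v`. From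
`Submodule.finrank_sup_add_finrank_inf_eq` for `F_{u+1}` and `F_u ⊓ G_w`, whose intersection is
`F_{u+1} ⊓ G_w`, and telescoping (`Finset.sum_range_sub'`). -/
theorem finrank_step {F G : ℕ → Submodule k V} (hF : Antitone F) (hG0 : G 0 = ⊤) (u w : ℕ) :
    (finrank k (F u) : ℝ) - finrank k (F (u + 1) ⊔ F u ⊓ G w : Submodule k V) =
      ∑ v ∈ range w, sd (dFG F G) u v := by
  have h1 : ∑ v ∈ range w, sd (dFG F G) u v =
      (dFG F G u 0 - dFG F G (u + 1) 0) - (dFG F G u w - dFG F G (u + 1) w) := by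
    rw [← Finset.sum_range_sub' (fun v => dFG F G u v - dFG F G (u + 1) v) w]
    refine Finset.sum_congr rfl fun v _ => ?_
    unfold sd
    ring
  have h2 := twob_dim (F (u + 1)) (F u ⊓ G w)
  have h3 : F (u + 1) ⊓ (F u ⊓ G w) = F (u + 1) ⊓ G w := by
    rw [← inf_assoc, inf_eq_left.2 (hF (Nat.le_succ u))]
  rw [h3] at h2
  rw [h1]
  unfold dFG
  rw [hG0, inf_top_eq, inf_top_eq]
  linarith

/-- `M L = ∑_{u + v = L} F_u ∩ G_v`. -/
def mid (F G : ℕ → Submodule k V) (L : ℕ) : Submodule k V :=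
  ⨆ x ∈ antidiagonal L, F x.1 ⊓ G x.2

/-- PROOF. Let `M = mid F G L`. The chain `F_0 ⊔ M = ⊤ ≥ F_1 ⊔ M ≥ … ≥ F_L ⊔ M = M`
(`F_L = F_L ⊓ G_0 ≤ M`) gives
`dim V / M = ∑_{u < L} (dim (F_u ⊔ M) - dim (F_{u+1} ⊔ M))`. Here `F_u ⊔ M = F_u ⊔ (F_{u+1} ⊔ M)`,
and
by `Submodule.finrank_sup_add_finrank_inf_eq`
`dim (F_u ⊔ M) - dim (F_{u+1} ⊔ M) = dim F_u - dim (F_u ⊓ (F_{u+1} ⊔ M))
  ≤ dim F_u - dim (F_{u+1} ⊔ F_u ⊓ G_{L-u})`, because `F_u ⊓ G_{L - u} ≤ M`. Use `finrank_step`. -/
theorem finrank_mid_le {F G : ℕ → Submodule k V} (hF : Antitone F) (hF0 : F 0 = ⊤)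
    (hG0 : G 0 = ⊤) (L : ℕ) :
    (finrank k (V ⧸ mid F G L) : ℝ) ≤
      ∑ u ∈ range L, ∑ v ∈ range (L - u), sd (dFG F G) u v := by
  have hmem : ∀ u ≤ L, F u ⊓ G (L - u) ≤ mid F G L := by
    intro u hu
    refine le_iSup₂_of_le (f := fun (x : ℕ × ℕ) (_ : x ∈ antidiagonal L) => F x.1 ⊓ G x.2)
      (u, L - u) ?_ le_rfl
    rw [HasAntidiagonal.mem_antidiagonal]
    omega
  have h1 : (finrank k (V ⧸ mid F G L) : ℝ) =
      ∑ u ∈ range L, ((finrank k (F u ⊔ mid F G L : Submodule k V) : ℝ) -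
        finrank k (F (u + 1) ⊔ mid F G L : Submodule k V)) := by
    rw [Finset.sum_range_sub' (fun u => (finrank k (F u ⊔ mid F G L : Submodule k V) : ℝ)) L,
      twob_quot, hF0, top_sup_eq, finrank_top]
    have h2 : F L ≤ mid F G L := by
      have h3 := hmem L le_rfl
      rwa [Nat.sub_self, hG0, inf_top_eq] at h3
    rw [sup_eq_right.2 h2]
  rw [h1]
  refine Finset.sum_le_sum fun u hu => ?_
  rw [mem_range] at hu
  rw [← finrank_step hF hG0 u (L - u)]
  have h2 := twob_dim (F u) (F (u + 1) ⊔ mid F G L)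
  have h3 : F u ⊔ (F (u + 1) ⊔ mid F G L) = F u ⊔ mid F G L := by
    rw [← sup_assoc, sup_eq_left.2 (hF (Nat.le_succ u))]
  have h4 : F (u + 1) ⊔ F u ⊓ G (L - u) ≤ F u ⊓ (F (u + 1) ⊔ mid F G L) :=
    le_inf (sup_le (hF (Nat.le_succ u)) inf_le_left)
      (sup_le_sup_left (hmem u hu.le) _)
  have h5 := twob_mono h4
  rw [h3] at h2
  linarith

private theorem twob_sum {f : ℕ → ℕ → ℝ} {T : ℕ} (h1 : ∀ u v, T < u → f u v = 0)
    (h2 : ∀ u v, T < v → f u v = 0) (L : ℕ) :
    ∑ u ∈ range L, ∑ v ∈ range (L - u), f u v =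
      ∑ u ∈ range (T + 1), ∑ v ∈ range (T + 1), if u + v < L then f u v else 0 := by
  have h3 : ∀ u, ∑ v ∈ range (L - u), f u v =
      ∑ v ∈ range (T + 1), if u + v < L then f u v else 0 := by
    intro u
    have h4 : ∑ v ∈ range (L - u), f u v =
        ∑ v ∈ range (L + T + 1), if u + v < L then f u v else 0 := by
      rw [← Finset.sum_filter]
      refine Finset.sum_congr ?_ fun _ _ => rfl
      ext v
      rw [mem_range, mem_filter, mem_range]
      omega
    rw [h4]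
    symm
    refine Finset.sum_subset (range_subset_range.2 (by omega)) fun v _ hv => ?_
    rw [mem_range, not_lt] at hv
    rw [h2 u v (by omega), ite_self]
  rw [Finset.sum_congr rfl fun u _ => h3 u]
  have h5 : ∑ u ∈ range L, ∑ v ∈ range (T + 1), (if u + v < L then f u v else 0) =
      ∑ u ∈ range (L + T + 1), ∑ v ∈ range (T + 1), if u + v < L then f u v else 0 := by
    refine Finset.sum_subset (range_subset_range.2 (by omega)) fun u _ hu => ?_
    rw [mem_range, not_lt] at hu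
    refine Finset.sum_eq_zero fun v _ => ?_
    rw [if_neg (by omega)]
  rw [h5]
  symm
  refine Finset.sum_subset (range_subset_range.2 (by omega)) fun u _ hu => ?_
  rw [mem_range, not_lt] at hu
  refine Finset.sum_eq_zero fun v _ => ?_
  rw [h1 u v (by omega), ite_self]

/-- PROOF. `arr_main` for `D = dFG (cut F T) (cut G T)` and `m L = dim V / mid F G L`. For
`u, v ≤ T` this is `dFG F G u v`, and it is `0` for `u = T + 1` or `v = T + 1`; `dim V = D 0 0`,
`dim V / F_i = D 0 0 - D i 0` for `i ≤ T` (`Submodule.finrank_quotient_add_finrank`). Hypothesis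
`hm`: `mid (cut F T) (cut G T) L ≤ mid F G L`, so
`dim V / mid F G L ≤ dim V / mid (cut F T) (cut G T) L ≤ ∑_{u < L} ∑_{v < L - u} sd D u v`
(`finrank_mid_le`), and `sd D u v = 0` if `u > T` or `v > T`. If `T = 0` both sides are `0`. -/
theorem two_filt {F G : ℕ → Submodule k V} (hF : Antitone F) (hG : Antitone G)
    (hF0 : F 0 = ⊤) (hG0 : G 0 = ⊤) (T : ℕ) :
    (∑ u ∈ Icc 1 T, ((finrank k (F u) : ℝ) - finrank k (F u ⊓ G u : Submodule k V))) ^ 2 ≤
      (finrank k (V ⧸ G T) : ℝ) *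
      (2 * ∑ i ∈ Icc 1 T, (2 * ((T : ℝ) - i) + 1) *
          ((finrank k (V ⧸ F i) : ℝ) + finrank k (V ⧸ G i)) -
        ∑ L ∈ Icc 1 (2 * T), (2 * (2 * (T : ℝ) - L) + 1) * (finrank k (V ⧸ mid F G L) : ℝ)) := by
  have hc : ∀ (H : ℕ → Submodule k V) {u : ℕ}, u ≤ T → cut H T u = H u := fun H u hu => if_pos hu
  have hc0 : ∀ (H : ℕ → Submodule k V) {u : ℕ}, T < u → cut H T u = ⊥ :=
    fun H u hu => if_neg (not_le.2 hu)
  have hz1 : ∀ u v, T < u → dFG (cut F T) (cut G T) u v = 0 := by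
    intro u v hu
    unfold dFG
    rw [hc0 F hu, bot_inf_eq, finrank_bot, Nat.cast_zero]
  have hz2 : ∀ u v, T < v → dFG (cut F T) (cut G T) u v = 0 := by
    intro u v hv
    unfold dFG
    rw [hc0 G hv, inf_bot_eq, finrank_bot, Nat.cast_zero]
  have hm : ∀ L ∈ Icc 1 (2 * T), (finrank k (V ⧸ mid F G L) : ℝ) ≤
      ∑ f ∈ range (T + 1), ∑ g ∈ range (T + 1),
        if f + g < L then sd (dFG (cut F T) (cut G T)) f g else 0 := by
    intro L _
    rw [← twob_sum (f := sd (dFG (cut F T) (cut G T))) (T := T) _ _ L]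
    · refine le_trans ?_ (finrank_mid_le (cut_anti hF T) ((hc F (Nat.zero_le T)).trans hF0)
        ((hc G (Nat.zero_le T)).trans hG0) L)
      rw [twob_quot, twob_quot]
      have h1 : ∀ (H : ℕ → Submodule k V) (u : ℕ), cut H T u ≤ H u := by
        intro H u
        unfold cut
        split_ifs
        · exact le_rfl
        · exact bot_le
      have h2 : mid (cut F T) (cut G T) L ≤ mid F G L :=
        iSup₂_mono fun x _ => inf_le_inf (h1 F x.1) (h1 G x.2)
      have h3 := twob_mono h2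
      linarith
    · intro u v hu
      unfold sd
      rw [hz1 u v hu, hz1 (u + 1) v (by omega), hz1 u (v + 1) hu, hz1 (u + 1) (v + 1) (by omega)]
      ring
    · intro u v hv
      unfold sd
      rw [hz2 u v hv, hz2 (u + 1) v hv, hz2 u (v + 1) (by omega),
        hz2 (u + 1) (v + 1) (by omega)]
      ring
  have h := arr_main (D := dFG (cut F T) (cut G T)) (T := T)
    (sd_dFG_nonneg (cut_anti hF T) (cut_anti hG T)) (fun v => hz1 _ v (Nat.lt_succ_self T))
    (fun u => hz2 u _ (Nat.lt_succ_self T)) (fun L => (finrank k (V ⧸ mid F G L) : ℝ)) hm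
  have h00 : dFG (cut F T) (cut G T) 0 0 = finrank k V := by
    unfold dFG
    rw [hc F (Nat.zero_le T), hc G (Nat.zero_le T), hF0, hG0, inf_top_eq, finrank_top]
  have hu0 : ∀ u ≤ T, dFG (cut F T) (cut G T) u 0 = finrank k (F u) := by
    intro u hu
    unfold dFG
    rw [hc F hu, hc G (Nat.zero_le T), hG0, inf_top_eq]
  have h0v : ∀ v ≤ T, dFG (cut F T) (cut G T) 0 v = finrank k (G v) := by
    intro v hv
    unfold dFG
    rw [hc F (Nat.zero_le T), hc G hv, hF0, top_inf_eq]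
  have huu : ∀ u ≤ T, dFG (cut F T) (cut G T) u u = finrank k (F u ⊓ G u : Submodule k V) := by
    intro u hu
    unfold dFG
    rw [hc F hu, hc G hu]
  have e1 : ∑ u ∈ Icc 1 T, (dFG (cut F T) (cut G T) u 0 - dFG (cut F T) (cut G T) u u) =
      ∑ u ∈ Icc 1 T, ((finrank k (F u) : ℝ) - finrank k (F u ⊓ G u : Submodule k V)) := by
    refine Finset.sum_congr rfl fun u hu => ?_
    rw [mem_Icc] at hu
    rw [hu0 u hu.2, huu u hu.2]
  have e2 : ∑ i ∈ Icc 1 T, (2 * ((T : ℝ) - i) + 1) *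
      ((dFG (cut F T) (cut G T) 0 0 - dFG (cut F T) (cut G T) i 0) +
        (dFG (cut F T) (cut G T) 0 0 - dFG (cut F T) (cut G T) 0 i)) =
      ∑ i ∈ Icc 1 T, (2 * ((T : ℝ) - i) + 1) *
          ((finrank k (V ⧸ F i) : ℝ) + finrank k (V ⧸ G i)) := by
    refine Finset.sum_congr rfl fun i hi => ?_
    rw [mem_Icc] at hi
    rw [h00, hu0 i hi.2, h0v i hi.2, twob_quot, twob_quot]
  rw [e1, e2, h0v T le_rfl, h00, ← twob_quot (G T)] at h
  exact h

end FU
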